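import Pool.Agent.L0h56.SL.Att

/-!
Analytic dependence on the displacement.
-/

set_option autoImplicit false
set_option linter.unusedSectionVars false
set_option linter.unusedVariables false

open scoped BigOperators Topology
open Complex MeasureTheory Pool.Agent.L0h56.CS

namespace Pool.Agent.L0h56.SL.M

variable {ι : Type} [Fintype ι] [DecidableEq ι]

theorem det_diff {M : ℂ → Matrix ι ι ℂ} {z : ℂ} (h : ∀ i j, DifferentiableAt ℂ (fun w => M w i j) z) :
    DifferentiableAt ℂ (fun w => (M w).det) z := by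
  simp only [Matrix.det_apply]
  refine DifferentiableAt.fun_sum fun σ _ => ?_
  refine DifferentiableAt.const_smul ?_ _
  exact DifferentiableAt.fun_finsetProd fun i _ => h _ _

theorem Gr_diff {K : ι → ι → ℝ} (hK : ∀ x y, K x y = K y x) {p : ℂ → ι → ℂ} {z : ℂ}
    (hp : ∀ x, (p z x).im < 0) (hd : ∀ x, DifferentiableAt ℂ (fun w => p w x) z) (x y : ι) :
    DifferentiableAt ℂ (fun w => Gr K (p w) x y) z := by
  have hM : ∀ i j, DifferentiableAt ℂ (fun w => MM K (p w) i j) z := by
    intro i j
    simp only [MM_apply]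
    refine (differentiableAt_const _).add ?_
    by_cases h : i = j
    · simp only [h, if_true]; exact hd j
    · simp only [if_neg h]; exact differentiableAt_const _
  have h1 : DifferentiableAt ℂ (fun w => (MM K (p w)).det) z := det_diff hM
  have h2 : DifferentiableAt ℂ (fun w => (MM K (p w)).adjugate x y) z := by
    simp only [Matrix.adjugate_apply]
    refine det_diff fun i j => ?_
    by_cases h : i = y
    · subst h
      simp only [Matrix.updateRow_self]
      exact differentiableAt_const _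
    · simp only [Matrix.updateRow_ne h]
      exact hM i j
  have h3 : ∀ w, Gr K (p w) x y = (MM K (p w)).det⁻¹ * (MM K (p w)).adjugate x y := by
    intro w
    unfold Gr
    rw [Matrix.inv_def, Ring.inverse_eq_inv', Matrix.smul_apply, smul_eq_mul]
  simp only [h3]
  exact (h1.inv (det_ne hK hp)).mul h2

/-- the resolvent identity for a change of the whole diagonal -/
theorem res_id {K : ι → ι → ℝ} (hK : ∀ x y, K x y = K y x) {p p' : ι → ℂ}
    (hp : ∀ x, (p x).im < 0) (hp' : ∀ x, (p' x).im < 0) (x a : ι) :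
    Gr K p' x a = Gr K p x a - ∑ y, Gr K p x y * ((p' y - p y) * Gr K p' y a) := by
  have h1 := mul_Gr hK hp'
  have h2 := Gr_mul hK hp
  have e : MM K p' = MM K p + Matrix.diagonal fun y => p' y - p y := by
    ext i j
    rw [Matrix.add_apply, MM_apply, MM_apply, Matrix.diagonal_apply]
    by_cases h : i = j
    · subst h; simp
    · simp [h]
  have h3 : Gr K p' = Gr K p - Gr K p * ((Matrix.diagonal fun y => p' y - p y) * Gr K p') := by
    have h4 : Gr K p * (MM K p' * Gr K p') = Gr K p := by rw [h1, Matrix.mul_one]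
    rw [e, Matrix.add_mul, Matrix.mul_add, ← Matrix.mul_assoc, h2, Matrix.one_mul] at h4
    exact eq_sub_of_add_eq h4
  have h5 := congrFun (congrFun h3 x) a
  rw [Matrix.sub_apply, Matrix.mul_apply] at h5
  simp only [Matrix.diagonal_mul] at h5
  exact h5

/-- the derivative of the reflection amplitude along an affine path of diagonals -/
theorem Gr_deriv {K : ι → ι → ℝ} (hK : ∀ x y, K x y = K y x) {p b : ι → ℂ}
    (hp : ∀ x, (p x).im < 0) (a : ι) :
    HasDerivAt (fun z : ℂ => Gr K (fun x => p x + z * b x) a a) (-∑ y, b y * Gr K p y a ^ 2) 0 := by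
  have hev : ∀ᶠ z : ℂ in 𝓝 0, ∀ x, (p x + z * b x).im < 0 := by
    rw [Filter.eventually_all]
    intro x
    have hc : Continuous fun z : ℂ => (p x + z * b x).im := by fun_prop
    have h0 : (p x + 0 * b x).im < 0 := by rw [zero_mul, add_zero]; exact hp x
    exact hc.continuousAt.eventually_lt continuousAt_const h0
  set h : ℂ → ℂ := fun z => ∑ y, Gr K p a y * (b y * Gr K (fun x => p x + z * b x) y a) with hh
  have hd : DifferentiableAt ℂ h 0 := by
    refine DifferentiableAt.fun_sum fun y _ => ?_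
    refine (differentiableAt_const _).mul ((differentiableAt_const _).mul ?_)
    refine Gr_diff hK (p := fun z x => p x + z * b x) (z := 0) (fun x => ?_) (fun x => ?_) y a
    · rw [zero_mul, add_zero]; exact hp x
    · fun_prop
  have heq : (fun z : ℂ => Gr K (fun x => p x + z * b x) a a) =ᶠ[𝓝 0] fun z => Gr K p a a - z * h z := by
    filter_upwards [hev] with z hz
    rw [res_id hK hp hz a a, hh]
    simp only [add_sub_cancel_left, Finset.mul_sum]
    congr 1
    exact Finset.sum_congr rfl fun y _ => by ring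
  have h1 : HasDerivAt (fun z : ℂ => z * h z) (1 * h 0 + 0 * deriv h 0) 0 :=
    (hasDerivAt_id (0 : ℂ)).mul hd.hasDerivAt
  have h2 : HasDerivAt (fun z : ℂ => Gr K p a a - z * h z) (-(1 * h 0 + 0 * deriv h 0)) 0 :=
    h1.const_sub (Gr K p a a)
  refine (h2.congr_of_eventuallyEq heq).congr_deriv ?_
  rw [hh]
  simp only [zero_mul, add_zero, one_mul]
  congr 1
  refine Finset.sum_congr rfl fun y _ => ?_
  rw [Gr_symm hK p a y]
  ring

section

variable {K : ι → ι → ℝ} (hK : ∀ x y, K x y = K y x) {V : ι → ℝ} {c η : ℝ} (hη : 0 < η) (a : ι)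

include hK hη

/-- analytic dependence of the reflection amplitude on the displacement -/
theorem Rc_diff (ω : ι → ℝ) {τ : ℂ → ι → ℂ} {z : ℂ} (hτ : ∀ x, (τ z x).im ≤ 0)
    (hd : ∀ x, DifferentiableAt ℂ (fun w => τ w x) z) :
    DifferentiableAt ℂ (fun w => Rc K V c η a ω (τ w)) z := by
  unfold Rc Gc
  refine (differentiableAt_const _).add ((differentiableAt_const _).mul ?_)
  refine Gr_diff hK (p := fun w => dd V c η a ω (τ w)) (dd_neg V hη a ω hτ) (fun x => ?_) a a
  unfold dd
  exact (((differentiableAt_const _).add ((hd x).mul (differentiableAt_const _))).sub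
    (differentiableAt_const _)).sub (differentiableAt_const _)

/-- the derivative of the reflection amplitude -/
theorem Rc_deriv (ω : ι → ℝ) {τ0 b : ι → ℂ} (hτ : ∀ x, (τ0 x).im ≤ 0) :
    HasDerivAt (fun z : ℂ => Rc K V c η a ω (fun x => τ0 x + z * b x))
      (∑ y, b y * (-(2 * I) * (vf c (ω y) : ℂ) * Gc K V c η a ω τ0 y ^ 2)) 0 := by
  have h1 := Gr_deriv hK (b := fun x => b x * (vf c (ω x) : ℂ)) (dd_neg V (c := c) hη a ω hτ) a
  have e : ∀ z : ℂ, dd V c η a ω (fun x => τ0 x + z * b x) =
      fun x => dd V c η a ω τ0 x + z * (b x * (vf c (ω x) : ℂ)) := by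
    intro z
    funext x
    unfold dd
    ring
  have h2 : HasDerivAt (fun z : ℂ => Rc K V c η a ω (fun x => τ0 x + z * b x))
      (2 * I * (-∑ y, b y * (vf c (ω y) : ℂ) * Gr K (dd V c η a ω τ0) y a ^ 2)) 0 := by
    unfold Rc Gc
    simp only [e]
    exact (h1.const_mul (2 * I)).const_add 1
  refine h2.congr_deriv ?_
  rw [mul_neg, Finset.mul_sum, ← Finset.sum_neg_distrib]
  refine Finset.sum_congr rfl fun y _ => ?_
  unfold Gc
  ring

end

/-- circle means -/
theorem circle_val {f : ℂ → ℂ} (hf : ∀ z : ℂ, ‖z‖ ≤ 1 → DifferentiableAt ℂ f z) :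
    f 0 = (2 * Real.pi : ℂ)⁻¹ * ∫ θ in (0 : ℝ)..2 * Real.pi, f (Complex.exp (θ * I)) := by
  have hd : DiffContOnCl ℂ f (Metric.ball 0 1) := by
    refine DifferentiableOn.diffContOnCl fun z hz => (hf z ?_).differentiableWithinAt
    rw [closure_ball _ one_ne_zero] at hz
    simpa using hz
  have h := hd.circleIntegral_sub_inv_smul (w := 0) (by simp)
  rw [circleIntegral] at h
  simp only [deriv_circleMap, circleMap, sub_zero, zero_add, ofReal_one, one_mul, smul_eq_mul] at h
  have e : ∀ θ : ℝ, Complex.exp (θ * I) * I * ((Complex.exp (θ * I))⁻¹ * f (Complex.exp (θ * I))) =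
      I * f (Complex.exp (θ * I)) := by
    intro θ
    have := Complex.exp_ne_zero (θ * I)
    field_simp
  simp only [e] at h
  rw [intervalIntegral.integral_const_mul] at h
  have hpi : (2 * Real.pi : ℂ) ≠ 0 := by
    have := Real.pi_ne_zero
    simp [this]
  have h2 : I * ∫ θ in (0 : ℝ)..2 * Real.pi, f (Complex.exp (θ * I)) = I * ((2 * Real.pi : ℂ) * f 0) := by
    rw [h]; ring
  have h3 := mul_left_cancel₀ I_ne_zero h2
  rw [h3, ← mul_assoc, inv_mul_cancel₀ hpi, one_mul]

theorem circle_der {f : ℂ → ℂ} (hf : ∀ z : ℂ, ‖z‖ ≤ 1 → DifferentiableAt ℂ f z) :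
    deriv f 0 = (2 * Real.pi : ℂ)⁻¹ * ∫ θ in (0 : ℝ)..2 * Real.pi,
      Complex.exp (-(θ * I)) * f (Complex.exp (θ * I)) := by
  have hd : DiffContOnCl ℂ f (Metric.ball 0 1) := by
    refine DifferentiableOn.diffContOnCl fun z hz => (hf z ?_).differentiableWithinAt
    rw [closure_ball _ one_ne_zero] at hz
    simpa using hz
  have h := hd.deriv_eq_smul_circleIntegral zero_lt_one
  rw [circleIntegral] at h
  simp only [deriv_circleMap, circleMap, sub_zero, zero_add, ofReal_one, one_mul, smul_eq_mul] at h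
  have e : ∀ θ : ℝ, Complex.exp (θ * I) * I * (1 / Complex.exp (θ * I) ^ 2 * f (Complex.exp (θ * I))) =
      I * (Complex.exp (-(θ * I)) * f (Complex.exp (θ * I))) := by
    intro θ
    have := Complex.exp_ne_zero (θ * I)
    rw [Complex.exp_neg]
    field_simp
  simp only [e] at h
  rw [intervalIntegral.integral_const_mul] at h
  have hpi : (2 * Real.pi : ℂ) ≠ 0 := by
    have := Real.pi_ne_zero
    simp [this]
  have h2 : I * ∫ θ in (0 : ℝ)..2 * Real.pi, Complex.exp (-(θ * I)) * f (Complex.exp (θ * I)) =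
      I * ((2 * Real.pi : ℂ) * deriv f 0) := by
    rw [h]; ring
  have h3 := mul_left_cancel₀ I_ne_zero h2
  rw [h3, ← mul_assoc, inv_mul_cancel₀ hpi, one_mul]

end Pool.Agent.L0h56.SL.M
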