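import Pool.Agent.L0h56.SL.Def
import Mathlib.MeasureTheory.Function.JacobianOneDim

/-!
Moving uniform variables along a vector field.
-/

set_option autoImplicit false
set_option linter.unusedSectionVars false
set_option linter.unusedVariables false

open scoped BigOperators Topology ENNReal
open Complex MeasureTheory Pool.Agent.L0h56.CS

namespace Pool.Agent.L0h56.SL

/-- the Jacobian, truncated -/
noncomputable def jj (c t s : ℝ) : ℝ := max (1 / 2) (min (3 / 2) (1 - 2 * t * s / c ^ 2))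

theorem jj_ge (c t s : ℝ) : 1 / 2 ≤ jj c t s := le_max_left _ _

theorem jj_le (c t s : ℝ) : jj c t s ≤ 3 / 2 := max_le (by norm_num) (min_le_left _ _)

theorem jj_cont (c t : ℝ) : Continuous (jj c t) := by
  unfold jj
  fun_prop

theorem ub {c t s : ℝ} (hc : 0 < c) (ht : |t| ≤ c / 4) (hs : s ∈ Set.Icc (-c) c) :
    |2 * t * s / c ^ 2| ≤ 1 / 2 := by
  have hs' : |s| ≤ c := abs_le.2 hs
  rw [abs_div, abs_mul, abs_mul, abs_of_pos (by norm_num : (0:ℝ) < 2), abs_of_pos (by positivity : 0 < c ^ 2),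
    div_le_iff₀ (by positivity)]
  have := mul_le_mul ht hs' (abs_nonneg s) (by positivity)
  nlinarith

theorem jj_eq {c t s : ℝ} (hc : 0 < c) (ht : |t| ≤ c / 4) (hs : s ∈ Set.Icc (-c) c) :
    jj c t s = 1 - 2 * t * s / c ^ 2 := by
  have h := abs_le.1 (ub hc ht hs)
  unfold jj
  rw [min_eq_right (by linarith [h.1]), max_eq_right (by linarith [h.2])]

theorem vf_cont (c : ℝ) : Continuous (vf c) := by
  unfold vf
  fun_prop

theorem vf_eq {c s : ℝ} (hc : 0 < c) (hs : s ∈ Set.Icc (-c) c) : vf c s = 1 - (s / c) ^ 2 := by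
  have hs' : |s| ≤ c := abs_le.2 hs
  unfold vf
  refine max_eq_right ?_
  have h1 : |s / c| ≤ 1 := by
    rw [abs_div, abs_of_pos hc, div_le_one hc]
    exact hs'
  have : (s / c) ^ 2 ≤ 1 := by
    rw [← sq_abs]
    exact pow_le_one₀ (abs_nonneg _) h1
  linarith

/-- the map -/
noncomputable def psi (c t s : ℝ) : ℝ := s + t * (1 - (s / c) ^ 2)

theorem psi_deriv (c t s : ℝ) (hc : 0 < c) : HasDerivAt (psi c t) (1 - 2 * t * s / c ^ 2) s := by
  unfold psi
  have h1 : HasDerivAt (fun s : ℝ => (s / c) ^ 2) (2 * (s / c) * (1 / c)) s := by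
    have h2 : HasDerivAt (fun s : ℝ => s / c) (1 / c) s := (hasDerivAt_id s).div_const c
    have := h2.fun_pow 2
    simpa using this
  have h3 := (hasDerivAt_id' s).fun_add ((h1.const_sub 1).const_mul t)
  have h4 : 1 + t * -(2 * (s / c) * (1 / c)) = 1 - 2 * t * s / c ^ 2 := by
    field_simp
    ring
  rw [h4] at h3
  exact h3

theorem psi_mono {c t : ℝ} (hc : 0 < c) (ht : |t| ≤ c / 4) : StrictMonoOn (psi c t) (Set.Icc (-c) c) := by
  refine strictMonoOn_of_deriv_pos (convex_Icc _ _) ?_ ?_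
  · exact fun s _ => (psi_deriv c t s hc).continuousAt.continuousWithinAt
  · intro s hs
    rw [(psi_deriv c t s hc).deriv]
    have h := abs_le.1 (ub hc ht (interior_subset hs))
    linarith [h.2]

theorem psi_end {c : ℝ} (hc : 0 < c) (t : ℝ) : psi c t (-c) = -c ∧ psi c t c = c := by
  unfold psi
  constructor
  · rw [neg_div, div_self hc.ne']; ring
  · rw [div_self hc.ne']; ring

theorem psi_image {c t : ℝ} (hc : 0 < c) (ht : |t| ≤ c / 4) :
    psi c t '' Set.Icc (-c) c = Set.Icc (-c) c := by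
  have hcont : ContinuousOn (psi c t) (Set.Icc (-c) c) :=
    fun s _ => (psi_deriv c t s hc).continuousAt.continuousWithinAt
  have hm := (psi_mono hc ht).monotoneOn
  have hcc : -c ≤ c := by linarith
  apply Set.Subset.antisymm
  · rintro _ ⟨s, hs, rfl⟩
    have h1 := hm (Set.left_mem_Icc.2 hcc) hs hs.1
    have h2 := hm hs (Set.right_mem_Icc.2 hcc) hs.2
    rw [(psi_end hc t).1] at h1
    rw [(psi_end hc t).2] at h2
    exact ⟨h1, h2⟩
  · have := intermediate_value_Icc hcc hcont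
    rw [(psi_end hc t).1, (psi_end hc t).2] at this
    exact this

theorem psi_cov {c t : ℝ} (hc : 0 < c) (ht : |t| ≤ c / 4) (g : ℝ → ℝ≥0∞) (hg : Measurable g) :
    ∫⁻ s, ENNReal.ofReal (jj c t s) * g (s + t * vf c s) ∂(unif c) = ∫⁻ s, g s ∂(unif c) := by
  have h1 := lintegral_image_eq_lintegral_abs_deriv_mul (s := Set.Icc (-c) c) (f := psi c t)
    (f' := fun s => 1 - 2 * t * s / c ^ 2) measurableSet_Icc
    (fun s _ => (psi_deriv c t s hc).hasDerivWithinAt) (psi_mono hc ht).injOn g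
  rw [psi_image hc ht] at h1
  unfold unif
  rw [lintegral_smul_measure, lintegral_smul_measure, h1]
  congr 1
  refine setLIntegral_congr_fun measurableSet_Icc fun s hs => ?_
  have h2 := abs_le.1 (ub hc ht hs)
  rw [jj_eq hc ht hs, vf_eq hc hs, abs_of_pos (by linarith [h2.2])]
  rfl

theorem psi_mp {c t : ℝ} (hc : 0 < c) (ht : |t| ≤ c / 4) :
    MeasurePreserving (fun s => s + t * vf c s)
      ((unif c).withDensity fun s => ENNReal.ofReal (jj c t s)) (unif c) := by
  have hm : Measurable (fun s => s + t * vf c s) := by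
    have := (vf_cont c).measurable
    fun_prop
  refine ⟨hm, ?_⟩
  refine Measure.ext fun S hS => ?_
  rw [Measure.map_apply hm hS]
  have h1 := psi_cov hc ht (S.indicator fun _ => 1) (measurable_one.indicator hS)
  have h0 : ∫⁻ s, S.indicator (fun _ => (1 : ℝ≥0∞)) s ∂(unif c) = unif c S :=
    lintegral_indicator_one hS
  rw [h0] at h1
  rw [← h1, withDensity_apply _ (hm hS), ← lintegral_indicator (hm hS)]
  refine lintegral_congr fun s => ?_
  by_cases h : s + t * vf c s ∈ S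
  · rw [Set.indicator_of_mem (by exact h), Set.indicator_of_mem h, mul_one]
  · rw [Set.indicator_of_notMem (by exact h), Set.indicator_of_notMem h, mul_zero]

section

variable {ι : Type} [Fintype ι]

/-- product of densities -/
theorem pi_dens {c : ℝ} (hc : 0 < c) (j : ι → ℝ → ℝ) (hj : ∀ x, Continuous (j x))
    (h0 : ∀ x s, 0 ≤ j x s) (h1 : ∀ x s, j x s ≤ 3 / 2) :
    Measure.pi (fun x => (unif c).withDensity fun s => ENNReal.ofReal (j x s)) =
      (PI c ι).withDensity fun ω => ENNReal.ofReal (∏ x, j x (ω x)) := by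
  have := unif_prob c hc
  have hint : ∀ x, Integrable (j x) (unif c) := fun x =>
    Integrable.of_bound (C := 3 / 2) (hj x).aestronglyMeasurable (ae_of_all _ fun s => by
      rw [Real.norm_eq_abs, abs_of_nonneg (h0 x s)]; exact h1 x s)
  have hfin : ∀ x, IsFiniteMeasure ((unif c).withDensity fun s => ENNReal.ofReal (j x s)) := fun x =>
    isFiniteMeasure_withDensity_ofReal (hint x).2
  refine Measure.pi_eq fun S hS => ?_
  rw [withDensity_apply _ (MeasurableSet.univ_pi hS), ← lintegral_indicator (MeasurableSet.univ_pi hS)]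
  have e1 : ∀ ω : ι → ℝ, (Set.univ.pi S).indicator (fun ω => ENNReal.ofReal (∏ x, j x (ω x))) ω =
      ENNReal.ofReal (∏ x, (S x).indicator (j x) (ω x)) := by
    intro ω
    by_cases h : ω ∈ Set.univ.pi S
    · rw [Set.indicator_of_mem h]
      congr 1
      refine Finset.prod_congr rfl fun x _ => ?_
      rw [Set.indicator_of_mem (h x (Set.mem_univ x))]
    · rw [Set.indicator_of_notMem h]
      have h2 : ∃ x, ω x ∉ S x := by
        by_contra hcon
        push Not at hcon
        exact h fun x _ => hcon x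
      obtain ⟨x, hx⟩ := h2
      rw [Finset.prod_eq_zero (Finset.mem_univ x) (Set.indicator_of_notMem hx _), ENNReal.ofReal_zero]
  simp only [e1]
  have hind : ∀ x, Integrable ((S x).indicator (j x)) (unif c) := fun x => (hint x).indicator (hS x)
  rw [← ofReal_integral_eq_lintegral_ofReal (Integrable.fintype_prod hind)
    (ae_of_all _ fun ω => Finset.prod_nonneg fun x _ => Set.indicator_nonneg (fun s _ => h0 x s) _),
    integral_fintype_prod_eq_prod (fun x => (S x).indicator (j x)),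
    ENNReal.ofReal_prod_of_nonneg
      (fun x _ => integral_nonneg fun s => Set.indicator_nonneg (fun s _ => h0 x s) _)]
  refine Finset.prod_congr rfl fun x _ => ?_
  rw [withDensity_apply _ (hS x), ← lintegral_indicator (hS x),
    ofReal_integral_eq_lintegral_ofReal (hind x)
      (ae_of_all _ fun s => Set.indicator_nonneg (fun s _ => h0 x s) _)]
  refine lintegral_congr fun s => ?_
  by_cases h : s ∈ S x
  · rw [Set.indicator_of_mem h, Set.indicator_of_mem h]
  · rw [Set.indicator_of_notMem h, Set.indicator_of_notMem h, ENNReal.ofReal_zero]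

/-- the change of variables on the product -/
theorem pi_cov {c : ℝ} (hc : 0 < c) (τ : ι → ℝ) (hτ : ∀ x, |τ x| ≤ c / 4) (g : (ι → ℝ) → ℝ)
    (hg : Measurable g) :
    ∫ ω, (∏ x, jj c (τ x) (ω x)) * g (fun x => ω x + τ x * vf c (ω x)) ∂(PI c ι) =
      ∫ ω, g ω ∂(PI c ι) := by
  have := unif_prob c hc
  have hmp := measurePreserving_pi (ι := ι)
    (fun x => (unif c).withDensity fun s => ENNReal.ofReal (jj c (τ x) s)) (fun _ => unif c)
    (f := fun x s => s + τ x * vf c s) (fun x => psi_mp hc (hτ x))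
  rw [pi_dens hc (fun x => jj c (τ x)) (fun x => jj_cont c (τ x))
    (fun x s => le_trans (by norm_num) (jj_ge c (τ x) s)) (fun x s => jj_le c (τ x) s)] at hmp
  have h1 : ∫ ω, g ω ∂(PI c ι) = ∫ ω, g ω ∂(Measure.map (fun (a : ι → ℝ) x => a x + τ x * vf c (a x))
      ((PI c ι).withDensity fun ω => ENNReal.ofReal (∏ x, jj c (τ x) (ω x)))) := by
    rw [hmp.map_eq]
  rw [h1, integral_map hmp.measurable.aemeasurable hg.aestronglyMeasurable]
  have hmeas : Measurable fun ω : ι → ℝ => ∏ x, jj c (τ x) (ω x) := by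
    refine Finset.measurable_prod _ fun x _ => ?_
    exact (jj_cont c (τ x)).measurable.comp (measurable_pi_apply x)
  rw [integral_withDensity_eq_integral_toReal_smul (by fun_prop)
    (ae_of_all _ fun ω => ENNReal.ofReal_lt_top)]
  refine integral_congr_ae (ae_of_all _ fun ω => ?_)
  simp only
  rw [ENNReal.toReal_ofReal, smul_eq_mul]
  exact Finset.prod_nonneg fun x _ => le_trans (by norm_num) (jj_ge c (τ x) _)

end

/-- powers of `1 / (1 + u)` -/
theorem inv_pow_le (n : ℕ) : ∃ C : ℝ, 0 ≤ C ∧ ∀ u : ℝ, |u| ≤ 1 / 2 →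
    ((1 + u)⁻¹) ^ n ≤ 1 - n * u + C * u ^ 2 := by
  induction n with
  | zero => exact ⟨0, le_rfl, fun u _ => by simp⟩
  | succ n ih =>
    obtain ⟨C, hC, h⟩ := ih
    have hn : (0:ℝ) ≤ n := Nat.cast_nonneg n
    refine ⟨2 * C + 2 * n + 2, by positivity, fun u hu => ?_⟩
    have hu' := abs_le.1 hu
    have h1 := h u hu
    have hp : 0 < 1 + u := by linarith [hu'.1]
    have h2 : (1 + u)⁻¹ ≤ 1 - u + 2 * u ^ 2 := by
      rw [inv_le_iff_one_le_mul₀ hp]
      nlinarith [sq_nonneg u, mul_nonneg (sq_nonneg u) (by linarith [hu'.1] : (0:ℝ) ≤ 1 + 2 * u)]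
    have h3 : 0 ≤ ((1 + u)⁻¹) ^ n := by positivity
    have h4 : 0 ≤ 1 - n * u + C * u ^ 2 := h3.trans h1
    rw [pow_succ]
    refine (mul_le_mul h1 h2 (by positivity) h4).trans ?_
    have e1 : (2 * n + C) * u ^ 2 * (1 / 2 + u) ≥ 0 := by
      have : 0 ≤ 1 / 2 + u := by linarith [hu'.1]
      positivity
    have e2 : u ^ 2 ≤ 1 / 4 := by
      rw [← sq_abs]
      nlinarith [abs_nonneg u]
    have e3 : 2 * C * u ^ 2 * (1 / 4 - u ^ 2) ≥ 0 := by
      have : 0 ≤ 1 / 4 - u ^ 2 := by linarith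
      positivity
    push_cast
    nlinarith

theorem unif_id {c : ℝ} (hc : 0 < c) : ∫ s, s ∂(unif c) = 0 := by
  unfold unif
  rw [integral_smul_measure, integral_Icc_eq_integral_Ioc,
    ← intervalIntegral.integral_of_le (by linarith), integral_id]
  simp

theorem unif_ae {c : ℝ} : ∀ᵐ s ∂(unif c), s ∈ Set.Icc (-c) c := by
  unfold unif
  refine Measure.ae_smul_measure ?_ _
  exact ae_restrict_mem measurableSet_Icc

theorem stCV_one {c : ℝ} (hc : 0 < c) (n : ℕ) : ∃ C : ℝ, 0 ≤ C ∧ ∀ t : ℝ, |t| ≤ c / 4 →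
    ∫ s, ((jj c t s)⁻¹) ^ n ∂(unif c) ≤ 1 + C * t ^ 2 := by
  have := unif_prob c hc
  obtain ⟨C, hC, h⟩ := inv_pow_le n
  refine ⟨4 * C / c ^ 2, by positivity, fun t ht => ?_⟩
  have hi0 : Integrable (fun s : ℝ => s) (unif c) := by
    refine Integrable.of_bound (C := c) measurable_id.aestronglyMeasurable ?_
    filter_upwards [unif_ae (c := c)] with s hs
    exact abs_le.2 hs
  have h1 : ∫ s, ((jj c t s)⁻¹) ^ n ∂(unif c) ≤
      ∫ s, (1 + 4 * C / c ^ 2 * t ^ 2 + (2 * n * t / c ^ 2) * s) ∂(unif c) := by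
    refine integral_mono_ae ?_ ?_ ?_
    · refine Integrable.of_bound (C := 2 ^ n) ?_ (ae_of_all _ fun s => ?_)
      · exact (((jj_cont c t).measurable.inv).pow_const n).aestronglyMeasurable
      · have h2 := jj_ge c t s
        have h3 : 0 < jj c t s := by linarith
        rw [Real.norm_eq_abs, abs_of_nonneg (by positivity)]
        refine pow_le_pow_left₀ (by positivity) ?_ n
        rw [inv_le_comm₀ h3 (by norm_num)]
        linarith
    · exact (integrable_const _).add (hi0.const_mul _)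
    · filter_upwards [unif_ae (c := c)] with s hs
      rw [jj_eq hc ht hs]
      have h2 := ub hc ht hs
      have h3 := h (-(2 * t * s / c ^ 2)) (by rw [abs_neg]; exact h2)
      have e : (1 + -(2 * t * s / c ^ 2)) = 1 - 2 * t * s / c ^ 2 := by ring
      rw [e] at h3
      refine h3.trans ?_
      have hs2 : s ^ 2 ≤ c ^ 2 := by
        rw [← sq_abs]
        exact pow_le_pow_left₀ (abs_nonneg _) (abs_le.2 hs) 2
      have h4 : (-(2 * t * s / c ^ 2)) ^ 2 ≤ 4 / c ^ 2 * t ^ 2 := by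
        have : (-(2 * t * s / c ^ 2)) ^ 2 = 4 / c ^ 2 * t ^ 2 * (s ^ 2 / c ^ 2) := by
          field_simp
          ring
        rw [this]
        have h5 : s ^ 2 / c ^ 2 ≤ 1 := by
          rw [div_le_one (by positivity)]
          exact hs2
        exact mul_le_of_le_one_right (by positivity) h5
      have h6 := mul_le_mul_of_nonneg_left h4 hC
      have e2 : -(n * -(2 * t * s / c ^ 2)) = 2 * n * t / c ^ 2 * s := by ring
      have e3 : C * (4 / c ^ 2 * t ^ 2) = 4 * C / c ^ 2 * t ^ 2 := by ring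
      linarith
  refine h1.trans ?_
  rw [integral_add (integrable_const _) (hi0.const_mul _), integral_const_mul, unif_id hc]
  simp

theorem stCV : StCV := by
  intro c hc q hq
  have := unif_prob c hc
  obtain ⟨C1, hC1, h1⟩ := stCV_one hc (q - 1)
  have hq0 : (0:ℝ) < q := by positivity
  have hq1 : (1:ℝ) < q := by exact_mod_cast (by omega : 1 < q)
  have hqm : (0:ℝ) < (q:ℝ) - 1 := by linarith
  set p : ℝ := q / (q - 1) with hp
  have hp1 : 1 < p := by
    rw [hp, lt_div_iff₀ hqm]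
    linarith
  have hp0 : 0 < p := by linarith
  have hpq : p.HolderConjugate (q : ℝ) := by
    refine Real.holderConjugate_iff.2 ⟨hp1, ?_⟩
    rw [hp]
    field_simp
    ring
  have hpinv : 1 / p = 1 - 1 / (q : ℝ) := by
    rw [hp]
    field_simp
  refine ⟨4 * (Real.exp C1) ^ (1 / (q : ℝ)), by positivity, ?_⟩
  intro ι _ τ hτ hτ2 g hg hg0 hg4
  set J : (ι → ℝ) → ℝ := fun ω => ∏ x, jj c (τ x) (ω x) with hJ
  have hJpos : ∀ ω, 0 < J ω := fun ω =>
    Finset.prod_pos fun x _ => lt_of_lt_of_le (by norm_num) (jj_ge c (τ x) (ω x))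
  have hJm : Measurable J := by
    refine Finset.measurable_prod _ fun x _ => ?_
    exact (jj_cont c (τ x)).measurable.comp (measurable_pi_apply x)
  have hJle : ∀ ω, J ω ≤ (3 / 2) ^ Fintype.card ι := by
    intro ω
    have : J ω ≤ ∏ x : ι, (3 / 2 : ℝ) := Finset.prod_le_prod
      (fun x _ => le_trans (by norm_num) (jj_ge c (τ x) (ω x))) (fun x _ => jj_le c (τ x) (ω x))
    rwa [Finset.prod_const, Finset.card_univ] at this
  have hJge : ∀ ω, (1 / 2) ^ Fintype.card ι ≤ J ω := by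
    intro ω
    have : ∏ x : ι, (1 / 2 : ℝ) ≤ J ω := Finset.prod_le_prod
      (fun x _ => by norm_num) (fun x _ => jj_ge c (τ x) (ω x))
    rwa [Finset.prod_const, Finset.card_univ] at this
  set G : (ι → ℝ) → ℝ := fun ω => g (fun x => ω x + τ x * vf c (ω x)) with hG
  have hGm : Measurable G := by
    refine hg.comp ?_
    refine measurable_pi_lambda _ fun x => ?_
    have h2 := (vf_cont c).measurable
    have h3 : Measurable fun ω : ι → ℝ => ω x := measurable_pi_apply x
    exact h3.add ((h2.comp h3).const_mul _)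
  have hG0 : ∀ ω, 0 ≤ G ω := fun ω => hg0 _
  have hG4 : ∀ ω, G ω ≤ 4 := fun ω => hg4 _
  have hcov : ∫ ω, J ω * G ω ∂(PI c ι) = ∫ ω, g ω ∂(PI c ι) := pi_cov hc τ hτ g hg
  set F1 : (ι → ℝ) → ℝ := fun ω => G ω * (J ω) ^ (1 / p) with hF1
  set F2 : (ι → ℝ) → ℝ := fun ω => (J ω)⁻¹ ^ (1 / p) with hF2
  have hF10 : ∀ ω, 0 ≤ F1 ω := fun ω => mul_nonneg (hG0 ω) (Real.rpow_nonneg (hJpos ω).le _)
  have hF20 : ∀ ω, 0 ≤ F2 ω := fun ω => Real.rpow_nonneg (inv_nonneg.2 (hJpos ω).le) _
  have hF1m : Measurable F1 := hGm.mul (hJm.pow_const _)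
  have hF2m : Measurable F2 := (hJm.inv).pow_const _
  have hprod : ∀ ω, G ω = F1 ω * F2 ω := by
    intro ω
    simp only [hF1, hF2]
    rw [mul_assoc, ← Real.mul_rpow (hJpos ω).le (inv_nonneg.2 (hJpos ω).le),
      mul_inv_cancel₀ (hJpos ω).ne', Real.one_rpow, mul_one]
  have hF1b : ∀ ω, F1 ω ≤ 4 * ((3 / 2) ^ Fintype.card ι) ^ (1 / p) := fun ω =>
    mul_le_mul (hG4 ω) (Real.rpow_le_rpow (hJpos ω).le (hJle ω) (by positivity))
      (Real.rpow_nonneg (hJpos ω).le _) (by norm_num)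
  have hF2b : ∀ ω, F2 ω ≤ (((1 / 2) ^ Fintype.card ι)⁻¹) ^ (1 / p) := fun ω =>
    Real.rpow_le_rpow (inv_nonneg.2 (hJpos ω).le)
      (inv_anti₀ (by positivity) (hJge ω)) (by positivity)
  have hL1 : MemLp F1 (ENNReal.ofReal p) (PI c ι) :=
    MemLp.of_bound hF1m.aestronglyMeasurable _ (ae_of_all _ fun ω => by
      rw [Real.norm_eq_abs, abs_of_nonneg (hF10 ω)]; exact hF1b ω)
  have hL2 : MemLp F2 (ENNReal.ofReal (q : ℝ)) (PI c ι) :=
    MemLp.of_bound hF2m.aestronglyMeasurable _ (ae_of_all _ fun ω => by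
      rw [Real.norm_eq_abs, abs_of_nonneg (hF20 ω)]; exact hF2b ω)
  have hH := integral_mul_le_Lp_mul_Lq_of_nonneg hpq (ae_of_all _ hF10) (ae_of_all _ hF20) hL1 hL2
  -- first factor
  have hA : ∫ ω, F1 ω ^ p ∂(PI c ι) ≤ 4 ^ p * ∫ ω, g ω ∂(PI c ι) := by
    rw [← hcov, ← integral_const_mul]
    refine integral_mono_of_nonneg (ae_of_all _ fun ω => Real.rpow_nonneg (hF10 ω) _) ?_
      (ae_of_all _ fun ω => ?_)
    · refine Integrable.const_mul ?_ _
      refine Integrable.of_bound (C := (3 / 2) ^ Fintype.card ι * 4)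
        (hJm.mul hGm).aestronglyMeasurable (ae_of_all _ fun ω => ?_)
      rw [Real.norm_eq_abs, abs_of_nonneg (mul_nonneg (hJpos ω).le (hG0 ω))]
      exact mul_le_mul (hJle ω) (hG4 ω) (hG0 ω) (by positivity)
    · simp only [hF1]
      rw [Real.mul_rpow (hG0 ω) (Real.rpow_nonneg (hJpos ω).le _), ← Real.rpow_mul (hJpos ω).le,
        one_div_mul_cancel hp0.ne', Real.rpow_one]
      have h2 : G ω ^ p ≤ 4 ^ p * (G ω / 4) := by
        have h3 : G ω = 4 * (G ω / 4) := by ring
        have h4 : 0 ≤ G ω / 4 := div_nonneg (hG0 ω) (by norm_num)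
        have h5 : G ω / 4 ≤ 1 := by have := hG4 ω; linarith
        have h6 : (G ω / 4) ^ p ≤ G ω / 4 := by
          have := Real.rpow_le_rpow_of_exponent_ge' h4 h5 (by norm_num : (0:ℝ) ≤ 1) hp1.le
          rwa [Real.rpow_one] at this
        calc G ω ^ p = (4 * (G ω / 4)) ^ p := by rw [← h3]
          _ = 4 ^ p * (G ω / 4) ^ p := Real.mul_rpow (by norm_num) h4
          _ ≤ _ := mul_le_mul_of_nonneg_left h6 (by positivity)
      have h7 : (4:ℝ) ^ p * (G ω / 4) ≤ 4 ^ p * G ω :=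
        mul_le_mul_of_nonneg_left (by have := hG0 ω; linarith) (by positivity)
      have h8 := mul_le_mul_of_nonneg_right (h2.trans h7) (hJpos ω).le
      linarith
  have hgi : 0 ≤ ∫ ω, g ω ∂(PI c ι) := integral_nonneg hg0
  have hA' : (∫ ω, F1 ω ^ p ∂(PI c ι)) ^ (1 / p) ≤ 4 * (∫ ω, g ω ∂(PI c ι)) ^ (1 / p) := by
    have h2 := Real.rpow_le_rpow (integral_nonneg fun ω => Real.rpow_nonneg (hF10 ω) _) hA
      (by positivity : 0 ≤ 1 / p)
    rw [Real.mul_rpow (by positivity) hgi, ← Real.rpow_mul (by norm_num), mul_one_div_cancel hp0.ne',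
      Real.rpow_one] at h2
    exact h2
  -- second factor
  have hB : ∫ ω, F2 ω ^ (q : ℝ) ∂(PI c ι) ≤ Real.exp C1 := by
    have e1 : ∀ ω, F2 ω ^ (q : ℝ) = ∏ x, ((jj c (τ x) (ω x))⁻¹) ^ (q - 1) := by
      intro ω
      simp only [hF2]
      rw [← Real.rpow_mul (inv_nonneg.2 (hJpos ω).le)]
      have e2 : 1 / p * (q : ℝ) = ((q - 1 : ℕ) : ℝ) := by
        rw [hpinv, Nat.cast_sub (by omega)]
        field_simp
        simp
      rw [e2, Real.rpow_natCast, hJ, ← Finset.prod_inv_distrib, Finset.prod_pow]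
    simp only [e1]
    rw [integral_fintype_prod_eq_prod (fun x s => ((jj c (τ x) s)⁻¹) ^ (q - 1))]
    have h2 : ∏ x, ∫ s, ((jj c (τ x) s)⁻¹) ^ (q - 1) ∂(unif c) ≤ ∏ x, Real.exp (C1 * τ x ^ 2) := by
      refine Finset.prod_le_prod (fun x _ => integral_nonneg fun s => ?_) (fun x _ => ?_)
      · have := jj_ge c (τ x) s
        have h3 : 0 < jj c (τ x) s := by linarith
        positivity
      · refine (h1 (τ x) (hτ x)).trans ?_
        have := Real.add_one_le_exp (C1 * τ x ^ 2)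
        linarith
    refine h2.trans ?_
    rw [← Real.exp_sum, ← Finset.mul_sum]
    refine Real.exp_le_exp.2 ?_
    exact mul_le_of_le_one_right hC1 hτ2
  have hB' : (∫ ω, F2 ω ^ (q : ℝ) ∂(PI c ι)) ^ (1 / (q : ℝ)) ≤ (Real.exp C1) ^ (1 / (q : ℝ)) :=
    Real.rpow_le_rpow (integral_nonneg fun ω => Real.rpow_nonneg (hF20 ω) _) hB (by positivity)
  have e3 : ∫ ω, g (fun x => ω x + τ x * vf c (ω x)) ∂(PI c ι) = ∫ ω, F1 ω * F2 ω ∂(PI c ι) :=
    integral_congr_ae (ae_of_all _ hprod)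
  rw [e3, ← hpinv]
  refine hH.trans ?_
  have h9 := mul_le_mul hA' hB' (Real.rpow_nonneg (integral_nonneg fun ω =>
    Real.rpow_nonneg (hF20 ω) _) _) (by positivity)
  refine h9.trans (le_of_eq ?_)
  ring

end Pool.Agent.L0h56.SL
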