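import Pool.Agent.L0h56.SL.Def

/-!
The mean value property in the upper half plane.
-/

set_option autoImplicit false
set_option linter.unusedSectionVars false
set_option linter.unusedVariables false

open scoped BigOperators Topology
open Complex MeasureTheory Pool.Agent.L0h56.CS Pool.Agent.W792.LL Pool.Agent.W335.LLCay

namespace Pool.Agent.L0h56.SL

/-- the inverse Cayley transform of a real number -/
noncomputable def uu (t : ℝ) : ℂ := ((t : ℂ) - I) / ((t : ℂ) + I)

theorem uu_conj (t : ℝ) : uu t = (starRingEnd ℂ) (cay t) := by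
  unfold uu cay
  simp [map_div₀]
  rfl

theorem norm_uu (t : ℝ) : ‖uu t‖ = 1 := by
  rw [uu_conj, Complex.norm_conj, norm_cay]

theorem cont_uu : Continuous uu := by
  have : uu = fun t => (starRingEnd ℂ) (cay t) := funext uu_conj
  rw [this]
  exact Complex.continuous_conj.comp cont_cay

theorem uu_moment (k : ℕ) (hk : 0 < k) : ∫ t, uu t ^ k ∂cauchy = 0 := by
  have h1 : ∀ t, uu t ^ k = (starRingEnd ℂ) (cay t ^ k) := by
    intro t
    rw [uu_conj, map_pow]
  simp only [h1]
  rw [integral_conj, moment k hk, map_zero]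

/-- the map from the disc to the half plane -/
noncomputable def ph (w : ℂ) : ℂ := I * (1 + w) / (1 - w)

theorem ph_uu (t : ℝ) : ph (uu t) = t := by
  unfold ph uu
  have h := add_ne t
  have h2 : 1 - ((t : ℂ) - I) / ((t : ℂ) + I) = 2 * I / ((t : ℂ) + I) := by
    field_simp
    ring
  have h3 : 1 + ((t : ℂ) - I) / ((t : ℂ) + I) = 2 * t / ((t : ℂ) + I) := by
    field_simp
    ring
  rw [h2, h3]
  field_simp

theorem ph_im (w : ℂ) (hw : w ≠ 1) : (ph w).im = (1 - ‖w‖ ^ 2) / ‖1 - w‖ ^ 2 := by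
  have h1 : (1 - w) ≠ 0 := sub_ne_zero.2 (Ne.symm hw)
  have h2 : ph w = I * (1 + w) * (starRingEnd ℂ) (1 - w) / ((‖1 - w‖ ^ 2 : ℝ) : ℂ) := by
    unfold ph
    have h3 : ((‖1 - w‖ ^ 2 : ℝ) : ℂ) = (1 - w) * (starRingEnd ℂ) (1 - w) := by
      rw [Complex.mul_conj, Complex.normSq_eq_norm_sq]
    have h4 : (starRingEnd ℂ) (1 - w) ≠ 0 := by
      rw [Ne, map_eq_zero]
      exact h1
    rw [h3, mul_div_mul_right _ _ h4]
  rw [h2, Complex.div_ofReal_im]
  congr 1
  rw [← Complex.normSq_eq_norm_sq w, Complex.normSq_apply]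
  simp
  ring

theorem ph_im_pos (w : ℂ) (hw : ‖w‖ < 1) : 0 < (ph w).im := by
  have h1 : w ≠ 1 := by
    rintro rfl
    simp at hw
  rw [ph_im w h1]
  have h2 : (1 - w) ≠ 0 := sub_ne_zero.2 (Ne.symm h1)
  have h3 : 0 < ‖1 - w‖ := norm_pos_iff.2 h2
  have h4 : ‖w‖ ^ 2 < 1 := by nlinarith [norm_nonneg w]
  exact div_pos (by linarith) (by positivity)

theorem ph_diff (w : ℂ) (hw : w ≠ 1) : DifferentiableAt ℂ ph w := by
  unfold ph
  have h1 : (1 - w) ≠ 0 := sub_ne_zero.2 (Ne.symm hw)
  exact DifferentiableAt.div (by fun_prop) (by fun_prop) h1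

/-- the mean value property on a smaller circle -/
theorem mean_r (g : ℂ → ℂ) (hg : DifferentiableOn ℂ g (Metric.ball 0 1)) (r : ℝ) (h0 : 0 ≤ r)
    (h1 : r < 1) : ∫ t : ℝ, g (r * uu t) ∂cauchy = g 0 := by
  obtain ⟨R, hR1, hR2⟩ := exists_between h1
  have hR0 : 0 < R := lt_of_le_of_lt h0 hR1
  lift R to NNReal using hR0.le
  have hd : DifferentiableOn ℂ g (Metric.closedBall 0 (R : ℝ)) :=
    hg.mono (Metric.closedBall_subset_ball hR2)
  have hp := hd.hasFPowerSeriesOnBall (by exact_mod_cast hR0)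
  set p := cauchyPowerSeries g 0 R with hpdef
  have hin : ∀ t : ℝ, ((r : ℂ) * uu t) ∈ Metric.eball (0 : ℂ) R := by
    intro t
    rw [Metric.mem_eball, edist_dist, dist_zero_right, norm_mul, norm_uu, mul_one, Complex.norm_real,
      Real.norm_eq_abs, abs_of_nonneg h0, ENNReal.ofReal_lt_iff_lt_toReal h0 (by simp)]
    simpa using hR1
  have hs : ∀ t : ℝ, HasSum (fun n : ℕ => p.coeff n * ((r : ℂ) * uu t) ^ n) (g (r * uu t)) := by
    intro t
    have h2 := hp.hasSum (hin t)
    rw [zero_add] at h2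
    refine h2.congr_fun fun n => ?_
    rw [FormalMultilinearSeries.apply_eq_pow_smul_coeff, smul_eq_mul, mul_comm]
  have hr : ((r : ℂ)) ∈ Metric.eball (0 : ℂ) p.radius := by
    refine lt_of_lt_of_le ?_ hp.r_le
    rw [edist_dist, dist_zero_right, Complex.norm_real,
      Real.norm_eq_abs, abs_of_nonneg h0, ENNReal.ofReal_lt_iff_lt_toReal h0 (by simp)]
    simpa using hR1
  have hsum1 := p.summable_norm_apply hr
  have hterm : ∀ n, ‖p n fun _ => (r : ℂ)‖ = ‖p.coeff n‖ * r ^ n := by
    intro n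
    rw [FormalMultilinearSeries.apply_eq_pow_smul_coeff, smul_eq_mul, norm_mul, norm_pow,
      Complex.norm_real, Real.norm_eq_abs, abs_of_nonneg h0, mul_comm]
  simp only [hterm] at hsum1
  have hint : ∀ n : ℕ, Integrable (fun t : ℝ => p.coeff n * ((r : ℂ) * uu t) ^ n) cauchy := by
    intro n
    refine Integrable.of_bound (C := ‖p.coeff n‖ * r ^ n)
      ((continuous_const.mul ((continuous_const.mul cont_uu).pow _)).aestronglyMeasurable)
      (ae_of_all _ fun s => ?_)
    rw [norm_mul, norm_pow, norm_mul, norm_uu, mul_one, Complex.norm_real, Real.norm_eq_abs,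
      abs_of_nonneg h0]
  have hsum : Summable fun n : ℕ => ∫ t, ‖p.coeff n * ((r : ℂ) * uu t) ^ n‖ ∂cauchy := by
    have e : ∀ n : ℕ, ∫ t, ‖p.coeff n * ((r : ℂ) * uu t) ^ n‖ ∂cauchy = ‖p.coeff n‖ * r ^ n := by
      intro n
      have : ∀ t : ℝ, ‖p.coeff n * ((r : ℂ) * uu t) ^ n‖ = ‖p.coeff n‖ * r ^ n := by
        intro t
        rw [norm_mul, norm_pow, norm_mul, norm_uu, mul_one, Complex.norm_real, Real.norm_eq_abs,
          abs_of_nonneg h0]
      simp only [this]
      rw [integral_const]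
      simp
    simp only [e]
    exact hsum1
  have h3 := hasSum_integral_of_summable_integral_norm hint hsum
  have h4 : ∀ t : ℝ, (∑' n : ℕ, p.coeff n * ((r : ℂ) * uu t) ^ n) = g (r * uu t) :=
    fun t => (hs t).tsum_eq
  simp only [h4] at h3
  have h5 : ∀ n : ℕ, ∫ t, p.coeff n * ((r : ℂ) * uu t) ^ n ∂cauchy = if n = 0 then g 0 else 0 := by
    intro n
    split_ifs with hn
    · subst hn
      simp only [pow_zero, mul_one, integral_const]
      simp only [probReal_univ, one_smul]
      have := hp.coeff_zero (fun _ => (0 : ℂ))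
      rw [FormalMultilinearSeries.apply_eq_pow_smul_coeff] at this
      simpa using this
    · simp only [mul_pow]
      rw [integral_const_mul, integral_const_mul, uu_moment n (Nat.pos_of_ne_zero hn), mul_zero,
        mul_zero]
  simp only [h5] at h3
  exact h3.unique (hasSum_ite_eq 0 (g 0))

theorem stHP : StHP := by
  intro f hd hc M hM
  set g : ℂ → ℂ := fun w => f (ph w) with hg
  have hgd : DifferentiableOn ℂ g (Metric.ball 0 1) := by
    refine DifferentiableOn.comp hd (t := {z | 0 < z.im}) (fun w hw => ?_) (fun w hw => ?_)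
    · have hw' : ‖w‖ < 1 := by simpa using hw
      refine (ph_diff w ?_).differentiableWithinAt
      rintro rfl
      simp at hw'
    · have hw' : ‖w‖ < 1 := by simpa using hw
      exact ph_im_pos w hw'
  have hg0 : g 0 = f I := by
    simp [hg, ph]
  -- the sequence of radii
  set ρ : ℕ → ℝ := fun n => 1 - 1 / ((n : ℝ) + 1) with hρ
  have hρ0 : ∀ n, 0 ≤ ρ n := by
    intro n
    have h1 : 1 / ((n : ℝ) + 1) ≤ 1 := by
      rw [div_le_one (by positivity)]
      have : (0 : ℝ) ≤ n := Nat.cast_nonneg n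
      linarith
    simp only [hρ]
    linarith
  have hρ1 : ∀ n, ρ n < 1 := by
    intro n
    have h1 : 0 < 1 / ((n : ℝ) + 1) := by positivity
    simp only [hρ]
    linarith
  have hρt : Filter.Tendsto ρ Filter.atTop (𝓝 1) := by
    have h1 := tendsto_one_div_add_atTop_nhds_zero_nat (𝕜 := ℝ)
    have h2 := (tendsto_const_nhds (x := (1 : ℝ))).sub h1
    simpa [hρ] using h2
  have hne1 : ∀ t : ℝ, uu t ≠ 1 := by
    intro t h
    unfold uu at h
    rw [div_eq_one_iff_eq (add_ne t)] at h
    have := congrArg Complex.im h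
    simp at this
    norm_num at this
  have hlt : ∀ n (t : ℝ), ‖(ρ n : ℂ) * uu t‖ < 1 := by
    intro n t
    rw [norm_mul, norm_uu, mul_one, Complex.norm_real, Real.norm_eq_abs, abs_of_nonneg (hρ0 n)]
    exact hρ1 n
  have hlim : Filter.Tendsto (fun n => ∫ t : ℝ, g (ρ n * uu t) ∂cauchy) Filter.atTop
      (𝓝 (∫ t : ℝ, f (t : ℂ) ∂cauchy)) := by
    refine tendsto_integral_of_dominated_convergence (fun _ => M) ?_ ?_ ?_ ?_
    · intro n
      refine Continuous.aestronglyMeasurable ?_
      have h1 : Continuous fun t : ℝ => (ρ n : ℂ) * uu t := continuous_const.mul cont_uu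
      exact hgd.continuousOn.comp_continuous h1 (fun t => by simpa using hlt n t)
    · exact integrable_const M
    · intro n
      refine ae_of_all _ fun t => ?_
      exact hM _ (ph_im_pos _ (hlt n t)).le
    · refine ae_of_all _ fun t => ?_
      have h1 : Filter.Tendsto (fun n => (ρ n : ℂ) * uu t) Filter.atTop (𝓝 (uu t)) := by
        have h2 : Filter.Tendsto (fun n => ((ρ n : ℝ) : ℂ)) Filter.atTop (𝓝 ((1 : ℝ) : ℂ)) :=
          (Complex.continuous_ofReal.tendsto 1).comp hρt
        simpa using h2.mul_const (uu t)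
      have h3 : Filter.Tendsto (fun n => ph ((ρ n : ℂ) * uu t)) Filter.atTop (𝓝 (t : ℂ)) := by
        have := ((ph_diff (uu t) (hne1 t)).continuousAt.tendsto).comp h1
        rwa [ph_uu] at this
      have h4 : Filter.Tendsto (fun n => ph ((ρ n : ℂ) * uu t)) Filter.atTop
          (𝓝[{z | 0 ≤ z.im}] (t : ℂ)) := by
        refine tendsto_nhdsWithin_iff.2 ⟨h3, Filter.Eventually.of_forall fun n => ?_⟩
        exact (ph_im_pos _ (hlt n t)).le
      exact (hc (t : ℂ) (by simp)).tendsto.comp h4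
  have hconst : ∀ n, ∫ t : ℝ, g (ρ n * uu t) ∂cauchy = f I := by
    intro n
    rw [mean_r g hgd (ρ n) (hρ0 n) (hρ1 n), hg0]
  simp only [hconst] at hlim
  exact tendsto_nhds_unique hlim tendsto_const_nhds |>.symm ▸ rfl

end Pool.Agent.L0h56.SL
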