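import Pool.Agent.L0h56.SL.InfA

/-!
The criterion for almost surely purely singular spectrum (StSing).
-/

set_option autoImplicit false
set_option linter.unusedSectionVars false
set_option linter.unusedVariables false

open scoped BigOperators Topology ENNReal
open Complex MeasureTheory Filter Pool.Agent.L0h56.CS

namespace Pool.Agent.L0h56.SL

section Sing

variable {X : Type} [DecidableEq X]

/-- `Im G_F(a, a; E + iη)` -/
noncomputable def gF (K : X → X → ℝ) (v : X → ℝ) (F : Finset X) (E η : ℝ) (a : X) : ℝ :=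
  if h : a ∈ F then (Gr (KF K F) (pE (qF v F) E η) ⟨a, h⟩ ⟨a, h⟩).im else 0

theorem gF_nonneg {K : X → X → ℝ} (hK : ∀ x y, K x y = K y x) (v : X → ℝ) (F : Finset X) (E : ℝ)
    {η : ℝ} (hη : 0 < η) (a : X) : 0 ≤ gF K v F E η a := by
  unfold gF
  split_ifs with h
  · rw [im_Gr (KF_symm hK F) (pE_neg _ E hη)]
    refine Finset.sum_nonneg fun x _ => ?_
    rw [pE_im]
    positivity
  · exact le_refl _

/-- mean of the imaginary parts -/
noncomputable def XF (K : X → X → ℝ) (v : X → ℝ) (A F : Finset X) (k : ℕ) (η : ℝ) : ℝ≥0∞ :=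
  ∫⁻ E in Set.Icc (-(k : ℝ)) k, ∑ a ∈ A, ENNReal.ofReal (min (gF K v F E η a) 1)

theorem meas_gF (K : X → X → ℝ) (v : X → ℝ) (F : Finset X) (η : ℝ) (a : X) :
    Measurable fun E => gF K v F E η a := by
  unfold gF
  split_ifs with h
  · refine Complex.measurable_im.comp (measurable_Gr _ (fun z => ?_) _ _)
    unfold pE
    exact (Complex.measurable_ofReal.comp (measurable_const.sub measurable_id)).sub measurable_const
  · exact measurable_const

theorem pt_boundF {K : X → X → ℝ} (hK : ∀ x y, K x y = K y x) {S A F : Finset X} (hSA : S ⊆ A)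
    (hSF : S ⊆ F) (v : X → ℝ) (E : ℝ) {η : ℝ} (hη : 0 < η) {g : X → ℂ} (hg : SqS g) :
    min (QF K v F E η g) 1 ≤ (2 * (∑' x, ‖g x‖ ^ 2) + 1) * ∑ a ∈ A, min (gF K v F E η a) 1 +
      2 * QF K v F E η (fun x => if x ∈ S then 0 else g x) := by
  set C := ∑' x, ‖g x‖ ^ 2 with hC
  have hC0 : 0 ≤ C := tsum_nonneg fun _ => sq_nonneg _
  have h1 := Q_add (K := KF K F) (qF v F) E hη
    (fun x => if x.1 ∈ S then g x.1 else 0) (fun x => if x.1 ∈ S then 0 else g x.1)
  have e1 : ((fun x : F => if x.1 ∈ S then g x.1 else 0) +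
      (fun x : F => if x.1 ∈ S then 0 else g x.1)) = fun x => g x.1 := by
    funext x
    rw [Pi.add_apply]
    split_ifs <;> simp
  rw [e1] at h1
  have h2 := Q_supp (KF_symm hK F) (qF v F) E hη (fun x : F => if x.1 ∈ S then g x.1 else 0)
    (Finset.univ.filter fun x : F => x.1 ∈ S) (fun x hx => by
      rw [if_neg]
      intro h
      exact hx (by simp [h]))
  have h3 : ∑ a ∈ (Finset.univ.filter fun x : F => x.1 ∈ S),
      ‖(if a.1 ∈ S then g a.1 else 0)‖ ^ 2 ≤ C := by
    calc ∑ a ∈ (Finset.univ.filter fun x : F => x.1 ∈ S),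
          ‖(if a.1 ∈ S then g a.1 else 0)‖ ^ 2
        = ∑ a ∈ (Finset.univ.filter fun x : F => x.1 ∈ S), ‖g a.1‖ ^ 2 := by
          refine Finset.sum_congr rfl fun a ha => ?_
          rw [if_pos (Finset.mem_filter.1 ha).2]
      _ ≤ ∑ a : F, ‖g a.1‖ ^ 2 :=
          Finset.sum_le_sum_of_subset_of_nonneg (Finset.filter_subset _ _) fun _ _ _ => sq_nonneg _
      _ = ∑ a ∈ F, ‖g a‖ ^ 2 := Finset.sum_coe_sort F (fun a => ‖g a‖ ^ 2)
      _ ≤ C := hg.sum_le_tsum _ fun _ _ => sq_nonneg _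
  have h4 : ∑ a ∈ (Finset.univ.filter fun x : F => x.1 ∈ S),
      (Gr (KF K F) (pE (qF v F) E η) a a).im = ∑ a ∈ S, gF K v F E η a := by
    refine Finset.sum_bij (fun a _ => a.1) (fun a ha => (Finset.mem_filter.1 ha).2)
      (fun a _ b _ h => Subtype.ext h) (fun b hb => ⟨⟨b, hSF hb⟩, by simp [hb], rfl⟩)
      fun a ha => ?_
    unfold gF
    rw [dif_pos a.2]
  have h5 : 0 ≤ ∑ a ∈ S, gF K v F E η a :=
    Finset.sum_nonneg fun a _ => gF_nonneg hK v F E hη a
  rw [h4] at h2
  have h6 : QF K v F E η g ≤ 2 * (C * ∑ a ∈ S, gF K v F E η a) +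
      2 * QF K v F E η (fun x => if x ∈ S then 0 else g x) := by
    unfold QF
    have := mul_le_mul_of_nonneg_right h3 h5
    linarith
  have hq : 0 ≤ QF K v F E η (fun x => if x ∈ S then 0 else g x) := by
    unfold QF
    positivity
  have hmin : ∀ a, 0 ≤ min (gF K v F E η a) 1 := fun a => le_min (gF_nonneg hK v F E hη a) zero_le_one
  have hs' : 0 ≤ ∑ a ∈ A, min (gF K v F E η a) 1 := Finset.sum_nonneg fun a _ => hmin a
  by_cases hbig : ∃ a ∈ S, 1 < gF K v F E η a
  · obtain ⟨a, ha, ha1⟩ := hbig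
    have h7 : 1 ≤ ∑ a ∈ A, min (gF K v F E η a) 1 := by
      refine le_trans ?_ (Finset.single_le_sum (f := fun a => min (gF K v F E η a) 1)
        (fun a _ => hmin a) (hSA ha))
      simp [ha1.le]
    refine (min_le_right _ _).trans ?_
    nlinarith
  · push Not at hbig
    have h7 : ∑ a ∈ S, gF K v F E η a ≤ ∑ a ∈ A, min (gF K v F E η a) 1 := by
      calc ∑ a ∈ S, gF K v F E η a = ∑ a ∈ S, min (gF K v F E η a) 1 :=
            Finset.sum_congr rfl fun a ha => (min_eq_left (hbig a ha)).symm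
        _ ≤ _ := Finset.sum_le_sum_of_subset_of_nonneg hSA fun a _ _ => hmin a
    refine (min_le_left _ _).trans (h6.trans ?_)
    nlinarith [mul_le_mul_of_nonneg_left h7 hC0]

theorem int_boundF {K : X → X → ℝ} (hK : ∀ x y, K x y = K y x) {S A F : Finset X} (hSA : S ⊆ A)
    (hSF : S ⊆ F) {k L : ℕ} (hLk : L ≤ k) (v : X → ℝ) {η : ℝ}
    (hη : 0 < η) {g : X → ℂ} (hg : SqS g) :
    ∫⁻ E in Set.Icc (-(L : ℝ)) L, ENNReal.ofReal (min (QF K v F E η g) 1) ≤
      ENNReal.ofReal (2 * (∑' x, ‖g x‖ ^ 2) + 1) * XF K v A F k η +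
      2 * ENNReal.ofReal (Real.pi * (∑' y, ‖g y‖ ^ 2 - ∑ y ∈ S, ‖g y‖ ^ 2)) := by
  set C := ∑' x, ‖g x‖ ^ 2 with hC
  have hC0 : 0 ≤ C := tsum_nonneg fun _ => sq_nonneg _
  set h : X → ℂ := fun x => if x ∈ S then 0 else g x with hh
  have hq : ∀ E, 0 ≤ QF K v F E η h := fun E => by unfold QF; positivity
  have hmin : ∀ E a, 0 ≤ min (gF K v F E η a) 1 := fun E a =>
    le_min (gF_nonneg hK v F E hη a) zero_le_one
  have h1 : ∀ E, ENNReal.ofReal (min (QF K v F E η g) 1) ≤
      ENNReal.ofReal (2 * C + 1) * ∑ a ∈ A, ENNReal.ofReal (min (gF K v F E η a) 1) +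
      2 * ENNReal.ofReal (QF K v F E η h) := by
    intro E
    have hpt := pt_boundF hK hSA hSF v E hη hg
    rw [← hC] at hpt
    refine (ENNReal.ofReal_le_ofReal hpt).trans ?_
    rw [ENNReal.ofReal_add (mul_nonneg (by linarith) (Finset.sum_nonneg fun a _ => hmin E a))
      (mul_nonneg zero_le_two (hq E)), ENNReal.ofReal_mul (by linarith),
      ENNReal.ofReal_mul zero_le_two, ENNReal.ofReal_sum_of_nonneg fun a _ => hmin E a]
    simp
  have hm1 : Measurable fun E => ∑ a ∈ A, ENNReal.ofReal (min (gF K v F E η a) 1) :=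
    Finset.measurable_sum _ fun a _ => ((meas_gF K v F η a).min measurable_const).ennreal_ofReal
  have hm2 : Measurable fun E => ENNReal.ofReal (QF K v F E η h) :=
    (Q_meas (KF_symm hK F) (qF v F) hη _).ennreal_ofReal
  calc ∫⁻ E in Set.Icc (-(L : ℝ)) L, ENNReal.ofReal (min (QF K v F E η g) 1)
      ≤ ∫⁻ E in Set.Icc (-(L : ℝ)) L, (ENNReal.ofReal (2 * C + 1) *
          ∑ a ∈ A, ENNReal.ofReal (min (gF K v F E η a) 1) +
          2 * ENNReal.ofReal (QF K v F E η h)) := lintegral_mono fun E => h1 E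
    _ = ENNReal.ofReal (2 * C + 1) * (∫⁻ E in Set.Icc (-(L : ℝ)) L,
          ∑ a ∈ A, ENNReal.ofReal (min (gF K v F E η a) 1)) +
        2 * (∫⁻ E in Set.Icc (-(L : ℝ)) L, ENNReal.ofReal (QF K v F E η h)) := by
        rw [lintegral_add_left (hm1.const_mul _), lintegral_const_mul _ hm1,
          lintegral_const_mul _ hm2]
    _ ≤ _ := by
        refine add_le_add (mul_le_mul' le_rfl ?_) (mul_le_mul' le_rfl ?_)
        · unfold XF
          refine lintegral_mono_set ?_
          have : (L : ℝ) ≤ k := by exact_mod_cast hLk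
          exact Set.Icc_subset_Icc (by linarith) this
        · refine (setLIntegral_le_lintegral _ _).trans ?_
          have h2 := Q_int (KF_symm hK F) (qF v F) hη (fun x : F => h x.1)
          unfold QF
          rw [h2]
          refine ENNReal.ofReal_le_ofReal (mul_le_mul_of_nonneg_left ?_ Real.pi_pos.le)
          rw [Finset.sum_coe_sort F (fun x => ‖h x‖ ^ 2)]
          have h3 : ∑ x ∈ F, ‖h x‖ ^ 2 = ∑ x ∈ F \ S, ‖g x‖ ^ 2 := by
            rw [Finset.sdiff_eq_filter, Finset.sum_filter]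
            refine Finset.sum_congr rfl fun x _ => ?_
            rw [hh]
            by_cases hx : x ∈ S
            · simp [hx]
            · simp [hx]
          rw [h3]
          exact sum_le_tailS hg _ _ Finset.sdiff_disjoint

/-- **Criterion.** -/
theorem sing_ofF {K : X → X → ℝ} (hK : ∀ x y, K x y = K y x) {nb : X → Finset X}
    (hnb : ∀ x y, K x y ≠ 0 → y ∈ nb x) {D : ℝ} (hD0 : 0 ≤ D)
    (hD : ∀ x, ∑ y ∈ nb x, |K x y| ≤ D) {B : ℕ → Finset X} (hBm : Monotone B)
    (hBe : ∀ x, ∃ N, x ∈ B N) {v : X → ℝ} {ηs : ℕ → ℝ} (hη : ∀ k, 0 < ηs k)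
    (hη0 : Tendsto ηs atTop (𝓝 0))
    (hX : ∀ᶠ k in atTop, ∃ᶠ N in atTop, XF K v (B k) (B N) k (ηs k) < ENNReal.ofReal ((1 / 2) ^ k))
    {g : X → ℂ} (hg : SqS g) {m : Measure ℝ} (hm : IsSpec (HK K nb v) g m) :
    m ⟂ₘ volume := by
  have hB : Tendsto B atTop atTop := tendsto_atTop_finset_of_monotone hBm hBe
  obtain ⟨hfin, hz⟩ := hm
  set P : ℕ → ℝ → ℝ := fun k E => (∫ t : ℝ, ((t : ℂ) - (E + ηs k * I))⁻¹ ∂m).im with hP
  have hlim : ∀ k E, Tendsto (fun N => QF K v (B N) E (ηs k) g) atTop (𝓝 (P k E)) := by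
    intro k E
    obtain ⟨u, hu, heq, hint⟩ := hz (E + ηs k * I) (by simp; exact (hη k).ne')
    have := QF_tendsto hK hnb hD0 hD hB (hη k) hu hg heq
    rw [← hint] at this
    exact this
  have hPm : ∀ k, Measurable (P k) := fun k =>
    measurable_of_tendsto_metrizable (fun N => Q_meas (KF_symm hK (B N)) (qF v (B N)) (hη k) _)
      (tendsto_pi_nhds.2 fun E => hlim k E)
  set C := ∑' x, ‖g x‖ ^ 2 with hC
  set τ : ℕ → ℝ := fun M => ∑' y, ‖g y‖ ^ 2 - ∑ y ∈ B M, ‖g y‖ ^ 2 with hτ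
  -- step (b)
  have hb : ∀ L M : ℕ, ∀ᶠ k in atTop, ∫⁻ E in Set.Icc (-(L : ℝ)) L,
      ENNReal.ofReal (min (P k E) 1) ≤ ENNReal.ofReal (2 * C + 1) * ENNReal.ofReal ((1 / 2) ^ k) +
        2 * ENNReal.ofReal (Real.pi * τ M) := by
    intro L M
    filter_upwards [hX, eventually_ge_atTop L, eventually_ge_atTop M] with k hk hL hM
    obtain ⟨φ, hφ, hφX⟩ := extraction_of_frequently_atTop hk
    have h1 : ∀ E, ENNReal.ofReal (min (P k E) 1) =
        liminf (fun n => ENNReal.ofReal (min (QF K v (B (φ n)) E (ηs k) g) 1)) atTop := by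
      intro E
      refine (Tendsto.liminf_eq ?_).symm
      refine (ENNReal.continuous_ofReal.tendsto _).comp ?_
      exact (((hlim k E).comp hφ.tendsto_atTop)).min tendsto_const_nhds
    simp only [h1]
    refine (lintegral_liminf_le fun n => ?_).trans ?_
    · exact ((Q_meas (KF_symm hK _) (qF v _) (hη k) _).min measurable_const).ennreal_ofReal
    · refine (liminf_le_limsup).trans (limsup_le_of_le (h := ?_))
      filter_upwards [eventually_ge_atTop M] with n hn
      refine (int_boundF hK (hBm hM) (hBm (hn.trans (hφ.id_le n))) hL v (hη k) hg).trans ?_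
      exact add_le_add (mul_le_mul' le_rfl (hφX n).le) le_rfl
  -- step (c)
  have hPm' : ∀ k, Measurable fun E => ENNReal.ofReal (min (P k E) 1) := fun k =>
    ((hPm k).min measurable_const).ennreal_ofReal
  have hτ0 : Tendsto τ atTop (𝓝 0) := tail_tendstoS hB hg
  have hc : ∀ L : ℕ, ∫⁻ E in Set.Icc (-(L : ℝ)) L,
      liminf (fun k => ENNReal.ofReal (min (P k E) 1)) atTop = 0 := by
    intro L
    have h1 : ∀ M, ∫⁻ E in Set.Icc (-(L : ℝ)) L,
        liminf (fun k => ENNReal.ofReal (min (P k E) 1)) atTop ≤ 2 * ENNReal.ofReal (Real.pi * τ M) := by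
      intro M
      refine (lintegral_liminf_le hPm').trans ?_
      have h2 : Tendsto (fun k : ℕ => ENNReal.ofReal (2 * C + 1) * ENNReal.ofReal ((1 / 2) ^ k) +
          2 * ENNReal.ofReal (Real.pi * τ M)) atTop
          (𝓝 (ENNReal.ofReal (2 * C + 1) * ENNReal.ofReal 0 + 2 * ENNReal.ofReal (Real.pi * τ M))) := by
        refine Tendsto.add ?_ tendsto_const_nhds
        refine ENNReal.Tendsto.const_mul ?_ (Or.inr ENNReal.ofReal_ne_top)
        refine (ENNReal.continuous_ofReal.tendsto _).comp ?_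
        exact tendsto_pow_atTop_nhds_zero_of_lt_one (by norm_num) (by norm_num)
      rw [ENNReal.ofReal_zero, mul_zero, zero_add] at h2
      rw [← h2.liminf_eq]
      exact liminf_le_liminf (hb L M)
    have h3 : Tendsto (fun M => 2 * ENNReal.ofReal (Real.pi * τ M)) atTop (𝓝 (2 * ENNReal.ofReal (Real.pi * 0))) := by
      refine ENNReal.Tendsto.const_mul ?_ (Or.inr (by simp))
      exact (ENNReal.continuous_ofReal.tendsto _).comp (hτ0.const_mul _)
    rw [mul_zero, ENNReal.ofReal_zero, mul_zero] at h3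
    exact le_antisymm (ge_of_tendsto' h3 h1) zero_le
  have hae : ∀ᵐ E : ℝ, liminf (fun k => ENNReal.ofReal (min (P k E) 1)) atTop = 0 := by
    have h1 : ∀ᵐ E : ℝ, ∀ L : ℕ, E ∈ Set.Icc (-(L : ℝ)) L →
        liminf (fun k => ENNReal.ofReal (min (P k E) 1)) atTop = 0 := by
      rw [ae_all_iff]
      intro L
      rw [← ae_restrict_iff' measurableSet_Icc]
      exact (lintegral_eq_zero_iff (Measurable.liminf hPm')).1 (hc L)
    filter_upwards [h1] with E hE
    obtain ⟨L, hL⟩ := exists_nat_ge |E|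
    exact hE L ⟨by linarith [neg_abs_le E], (le_abs_self E).trans hL⟩
  -- step (d)
  rw [← Measure.rnDeriv_eq_zero]
  filter_upwards [hae, Besicovitch.ae_tendsto_rnDeriv m volume] with E h1 h2
  have h3 : Tendsto ηs atTop (𝓝[>] 0) :=
    tendsto_nhdsWithin_iff.2 ⟨hη0, Filter.Eventually.of_forall fun k => hη k⟩
  have h4 := h2.comp h3
  have h5 : Tendsto (fun k => min (m (Metric.closedBall E (ηs k)) / volume (Metric.closedBall E (ηs k))) 1)
      atTop (𝓝 (min (m.rnDeriv volume E) 1)) := h4.min tendsto_const_nhds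
  have h6 : min (m.rnDeriv volume E) 1 ≤ 0 := by
    rw [← h1, ← h5.liminf_eq]
    refine liminf_le_liminf (Filter.Eventually.of_forall fun k => ?_)
    have h7 := borel_ge m E (hη k)
    rw [ENNReal.ofReal_min, ENNReal.ofReal_one]
    exact min_le_min h7 le_rfl
  have h8 : min (m.rnDeriv volume E) 1 = 0 := le_antisymm h6 zero_le
  rcases min_choice (m.rnDeriv volume E) 1 with h9 | h9
  · rw [h9] at h8
    exact h8
  · rw [h9] at h8
    exact absurd h8 one_ne_zero

end Sing

section Prob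

variable {X : Type} [DecidableEq X]

theorem meas_gFz (K : X → X → ℝ) (W : X → ℝ) (F : Finset X) (η : ℝ) (a : X) :
    Measurable fun p : (X → ℝ) × ℝ => gF K (fun x => W x + p.1 x) F p.2 η a := by
  unfold gF
  split_ifs with h
  · refine Complex.measurable_im.comp (measurable_Gr _ (fun z => ?_) _ _)
    unfold pE qF
    refine Measurable.sub (Complex.measurable_ofReal.comp (Measurable.sub (Measurable.add
      measurable_const ?_) measurable_snd)) measurable_const
    exact (measurable_pi_apply _).comp measurable_fst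
  · exact measurable_const

/-- the hypothesis of the criterion -/
def SmallG (K : X → X → ℝ) (c : ℝ) (W : X → ℝ) : Prop :=
  ∀ (A : Finset X) (ε : ℝ), 0 < ε → ∃ η0 : ℝ, 0 < η0 ∧ ∀ η : ℝ, 0 < η → η ≤ η0 →
    ∀ (F : Finset X) (E : ℝ) (a : X) (ha : a ∈ F), a ∈ A →
      ∫ ω, min (Gr (fun x y : F => K x y) (fun x : F => ((W x + ω x - E : ℝ) : ℂ) - η * I)
        ⟨a, ha⟩ ⟨a, ha⟩).im 1 ∂(PI c F) ≤ ε

theorem small_inf {K : X → X → ℝ} {c : ℝ} (hc : 0 < c) {W : X → ℝ} (hS : SmallG K c W)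
    (A : Finset X) {ε : ℝ} (hε : 0 < ε) : ∃ η0 : ℝ, 0 < η0 ∧ ∀ η : ℝ, 0 < η → η ≤ η0 →
    ∀ (F : Finset X) (E : ℝ) (a : X), a ∈ A →
      ∫ ω, min (gF K (fun x => W x + ω x) F E η a) 1 ∂(Measure.infinitePi fun _ : X => unif c) ≤ ε := by
  have hP := unif_prob c hc
  obtain ⟨η0, hη0, h⟩ := hS A ε hε
  refine ⟨η0, hη0, fun η hη hη1 F E a haA => ?_⟩
  by_cases ha : a ∈ F
  · obtain ⟨φ, hφ⟩ : ∃ φ : (F → ℝ) → ℝ, φ = fun ω' : F → ℝ => min (Gr (fun x y : F => K x y)
          (fun x : F => ((W x + ω' x - E : ℝ) : ℂ) - η * I) ⟨a, ha⟩ ⟨a, ha⟩).im 1 := ⟨_, rfl⟩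
    have h1 : ∀ ω : X → ℝ, min (gF K (fun x => W x + ω x) F E η a) 1 = φ (F.restrict ω) := by
      intro ω
      rw [hφ]
      unfold gF
      rw [dif_pos ha]
      rfl
    have hm : Measurable φ := by
      rw [hφ]
      refine Measurable.min (Complex.measurable_im.comp (measurable_Gr _ (fun z => ?_) _ _)) measurable_const
      refine Measurable.sub (Complex.measurable_ofReal.comp ?_) measurable_const
      exact (measurable_const.add (measurable_pi_apply _)).sub measurable_const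
    simp only [h1]
    have h3 := integral_restrict_infinitePi (fun _ : X => unif c) (s := F) (f := φ)
      hm.aestronglyMeasurable
    refine (le_of_eq h3).trans ?_
    rw [hφ]
    exact h η hη hη1 F E a ha haA
  · have h1 : ∀ ω : X → ℝ, gF K (fun x => W x + ω x) F E η a = 0 := by
      intro ω
      unfold gF
      rw [dif_neg ha]
    simp only [h1]
    simp
    exact hε.le

theorem mean_XF {K : X → X → ℝ} (hK : ∀ x y, K x y = K y x) {c : ℝ} (hc : 0 < c) {W : X → ℝ}
    (hS : SmallG K c W) (B : ℕ → Finset X) (k : ℕ) :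
    ∃ η0 : ℝ, 0 < η0 ∧ ∀ η, 0 < η → η ≤ η0 → ∀ F : Finset X,
    ∫⁻ ω, XF K (fun x => W x + ω x) (B k) F k η ∂(Measure.infinitePi fun _ : X => unif c) ≤
      ENNReal.ofReal ((1 / 4) ^ k) := by
  have hP := unif_prob c hc
  set D : ℝ := 2 * k * (B k).card + 1 with hD
  have hD0 : 0 < D := by positivity
  obtain ⟨η0, hη0, h⟩ := small_inf hc hS (B k) (ε := (1 / 4) ^ k / D) (by positivity)
  refine ⟨η0, hη0, fun η hη hη1 F => ?_⟩
  have hm : Measurable fun p : (X → ℝ) × ℝ =>
      ∑ a ∈ B k, ENNReal.ofReal (min (gF K (fun x => W x + p.1 x) F p.2 η a) 1) :=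
    Finset.measurable_sum _ fun a _ => ((meas_gFz K W F η a).min measurable_const).ennreal_ofReal
  unfold XF
  rw [lintegral_lintegral_swap hm.aemeasurable]
  have h1 : ∀ E, ∫⁻ ω, ∑ a ∈ B k, ENNReal.ofReal (min (gF K (fun x => W x + ω x) F E η a) 1)
      ∂(Measure.infinitePi fun _ : X => unif c) ≤
      ENNReal.ofReal ((B k).card * ((1 / 4) ^ k / D)) := by
    intro E
    have hmE : ∀ a, Measurable fun ω : X → ℝ =>
        min (gF K (fun x => W x + ω x) F E η a) 1 := by
      intro a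
      have hpair : Measurable fun ω : X → ℝ => (ω, E) :=
        measurable_id.prodMk measurable_const
      exact ((meas_gFz K W F η a).comp hpair).min measurable_const
    rw [lintegral_finsetSum _ fun a _ => (hmE a).ennreal_ofReal]
    have h2 : ∀ a ∈ B k, ∫⁻ ω, ENNReal.ofReal (min (gF K (fun x => W x + ω x) F E η a) 1)
        ∂(Measure.infinitePi fun _ : X => unif c) ≤ ENNReal.ofReal ((1 / 4) ^ k / D) := by
      intro a ha
      have hnn : ∀ ω : X → ℝ, 0 ≤ min (gF K (fun x => W x + ω x) F E η a) 1 := fun ω =>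
        le_min (gF_nonneg hK _ F E hη a) zero_le_one
      rw [← ofReal_integral_eq_lintegral_ofReal ?_ (Eventually.of_forall hnn)]
      · exact ENNReal.ofReal_le_ofReal (h η hη hη1 F E a ha)
      · refine Integrable.of_bound (C := 1) (hmE a).aestronglyMeasurable
          (Eventually.of_forall fun ω => ?_)
        rw [Real.norm_of_nonneg (hnn ω)]
        exact min_le_right _ _
    refine (Finset.sum_le_sum h2).trans ?_
    rw [Finset.sum_const, nsmul_eq_mul, ENNReal.ofReal_mul (Nat.cast_nonneg _),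
      ENNReal.ofReal_natCast]
  refine (lintegral_mono h1).trans ?_
  rw [setLIntegral_const, Real.volume_Icc, ← ENNReal.ofReal_mul (by positivity)]
  refine ENNReal.ofReal_le_ofReal ?_
  have h3 : ((B k).card * ((1 / 4) ^ k / D) : ℝ) * (k - -k) = (1 / 4) ^ k * ((D - 1) / D) := by
    rw [hD]; field_simp; ring
  rw [h3]
  have h4 : (D - 1) / D ≤ 1 := by
    rw [div_le_one hD0]; linarith
  have h5 : (0 : ℝ) < (1 / 4) ^ k := by positivity
  nlinarith

/-- **Almost sure singularity.** -/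
theorem as_singF {K : X → X → ℝ} (hK : ∀ x y, K x y = K y x) {nb : X → Finset X}
    (hnb : ∀ x y, K x y ≠ 0 → y ∈ nb x) {D : ℝ} (hD0 : 0 ≤ D)
    (hD : ∀ x, ∑ y ∈ nb x, |K x y| ≤ D) {B : ℕ → Finset X} (hBm : Monotone B)
    (hBe : ∀ x, ∃ N, x ∈ B N) {c : ℝ} (hc : 0 < c) {W : X → ℝ} (hS : SmallG K c W) :
    ∀ᵐ ω ∂(Measure.infinitePi fun _ : X => unif c), ∀ g : X → ℂ, SqS g → ∀ μ : Measure ℝ,
      IsSpec (HK K nb fun x => W x + ω x) g μ → μ ⟂ₘ volume := by
  have hP := unif_prob c hc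
  choose η0 hη0 hX using mean_XF hK hc hS B
  set ηs : ℕ → ℝ := fun k => min (η0 k) (1 / ((k : ℝ) + 1)) with hηs
  have hηpos : ∀ k, 0 < ηs k := fun k => lt_min (hη0 k) (by positivity)
  have hηlim : Tendsto ηs atTop (𝓝 0) := by
    refine squeeze_zero (fun k => (hηpos k).le) (fun k => min_le_right _ _)
      tendsto_one_div_add_atTop_nhds_zero_nat
  have hmX : ∀ N k, Measurable fun ω : X → ℝ => XF K (fun x => W x + ω x) (B k) (B N) k (ηs k) := by
    intro N k
    unfold XF
    have hm : Measurable fun p : (X → ℝ) × ℝ =>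
        ∑ a ∈ B k, ENNReal.ofReal (min (gF K (fun x => W x + p.1 x) (B N) p.2 (ηs k) a) 1) :=
      Finset.measurable_sum _ fun a _ => ((meas_gFz K W (B N) _ a).min measurable_const).ennreal_ofReal
    exact hm.lintegral_prod_right'
  have hev : ∀ᵐ ω ∂(Measure.infinitePi fun _ : X => unif c), ∀ᶠ k in atTop,
      ω ∉ {ω : X → ℝ | ENNReal.ofReal ((1 / 2) ^ k) ≤
        liminf (fun N => XF K (fun x => W x + ω x) (B k) (B N) k (ηs k)) atTop} := by
    refine ae_eventually_notMem ?_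
    have h1 : ∀ k : ℕ, (Measure.infinitePi fun _ : X => unif c)
        {ω : X → ℝ | ENNReal.ofReal ((1 / 2) ^ k) ≤
          liminf (fun N => XF K (fun x => W x + ω x) (B k) (B N) k (ηs k)) atTop} ≤
        ENNReal.ofReal ((1 / 2) ^ k) := by
      intro k
      have hpos : ENNReal.ofReal ((1 / 2 : ℝ) ^ k) ≠ 0 := by
        rw [ne_eq, ENNReal.ofReal_eq_zero, not_le]; positivity
      refine (meas_ge_le_lintegral_div (Measurable.liminf fun N => hmX N k).aemeasurable hpos
        ENNReal.ofReal_ne_top).trans ?_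
      rw [ENNReal.div_le_iff hpos ENNReal.ofReal_ne_top, ← ENNReal.ofReal_mul (by positivity)]
      refine (lintegral_liminf_le fun N => hmX N k).trans ?_
      have h2 : ((1 / 2 : ℝ) ^ k * (1 / 2) ^ k) = (1 / 4) ^ k := by
        rw [← mul_pow]; norm_num
      rw [h2]
      refine (liminf_le_limsup).trans (limsup_le_of_le (h := Eventually.of_forall fun N => ?_))
      exact hX k (ηs k) (hηpos k) (min_le_left _ _) (B N)
    refine ne_top_of_le_ne_top ?_ (ENNReal.tsum_le_tsum h1)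
    rw [← ENNReal.ofReal_tsum_of_nonneg (fun k => by positivity)
      (summable_geometric_of_lt_one (by norm_num) (by norm_num))]
    exact ENNReal.ofReal_ne_top
  filter_upwards [hev] with ω hω g hg μ hμ
  refine sing_ofF hK hnb hD0 hD hBm hBe hηpos hηlim ?_ hg hμ
  filter_upwards [hω] with k hk
  have hk' : liminf (fun N => XF K (fun x => W x + ω x) (B k) (B N) k (ηs k)) atTop <
      ENNReal.ofReal ((1 / 2) ^ k) := not_le.1 hk
  exact frequently_lt_of_liminf_lt (h := hk')

end Prob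

/-- **M9.** -/
theorem stSing : StSing := by
  intro X _ _ K nb hK hnb D hD c hc W hS
  obtain ⟨B, hBm, hBe⟩ := exists_exh X
  exact as_singF hK hnb (le_max_right D 0) (fun x => (hD x).trans (le_max_left _ _)) hBm hBe hc hS

end Pool.Agent.L0h56.SL
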