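import Pool.Agent.L0h56.SL.InfB
import Pool.Agent.L0h56.SL.InfC

/-!
`stEx` (in `InfB`) and `stSing` (in `InfC`).
-/
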