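import Pool.Agent.L0h56.SL.Def

/-!
Level functions exist with high probability (StPerc).
-/

set_option autoImplicit false
set_option linter.unusedSectionVars false
set_option linter.unusedVariables false

open scoped BigOperators
open Complex MeasureTheory Pool.Agent.L0h56.CS

namespace Pool.Agent.L0h56.SL

section Perc

variable {ι : Type} [Fintype ι] [DecidableEq ι]

open Classical in
/-- lists of vertices forming walks that end in `S` -/
noncomputable def wlk (K : ι → ι → ℝ) (S : Finset ι) : ℕ → Finset (List ι)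
  | 0 => S.image fun x => [x]
  | k + 1 => (wlk K S k).biUnion fun L =>
      (Finset.univ.filter fun y => ∃ x L', L = x :: L' ∧ K x y ≠ 0).image fun y => y :: L

theorem wlk_card (K : ι → ι → ℝ) (S : Finset ι) (D : ℕ)
    (hD : ∀ x, (Finset.univ.filter fun y => K x y ≠ 0).card ≤ D) (k : ℕ) :
    (wlk K S k).card ≤ S.card * D ^ k := by
  induction k with
  | zero => simpa [wlk] using Finset.card_image_le
  | succ k ih =>
    rw [wlk]
    refine Finset.card_biUnion_le.trans ?_
    refine (Finset.sum_le_card_nsmul _ _ D ?_).trans ?_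
    · intro L _
      refine Finset.card_image_le.trans ?_
      rcases L with _ | ⟨x, L'⟩
      · simp
      · refine le_trans (Finset.card_le_card ?_) (hD x)
        intro y hy
        simp only [Finset.mem_filter, Finset.mem_univ, true_and] at hy ⊢
        obtain ⟨x', L'', h1, h2⟩ := hy
        rw [List.cons.injEq] at h1
        rw [h1.1]
        exact h2
    · rw [smul_eq_mul, pow_succ, ← mul_assoc]
      exact Nat.mul_le_mul_right _ ih

theorem wlk_len (K : ι → ι → ℝ) (S : Finset ι) (k : ℕ) : ∀ L ∈ wlk K S k, L.length = k + 1 := by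
  induction k with
  | zero =>
    intro L hL
    rw [wlk, Finset.mem_image] at hL
    obtain ⟨x, _, rfl⟩ := hL
    rfl
  | succ k ih =>
    intro L hL
    rw [wlk, Finset.mem_biUnion] at hL
    obtain ⟨L', h1, h2⟩ := hL
    rw [Finset.mem_image] at h2
    obtain ⟨y, _, rfl⟩ := h2
    rw [List.length_cons, ih L' h1]

theorem mem_wlk (K : ι → ι → ℝ) (hK : ∀ x y, K x y = K y x) (S : Finset ι) (k : ℕ) :
    ∀ L : List ι, L.length = k + 1 → L.IsChain (fun x y => K x y ≠ 0) → (∀ x ∈ L, x ∈ S) →
      L ∈ wlk K S k := by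
  induction k with
  | zero =>
    intro L h1 h2 h3
    obtain ⟨x, rfl⟩ := List.length_eq_one_iff.1 h1
    rw [wlk, Finset.mem_image]
    exact ⟨x, h3 x (by simp), rfl⟩
  | succ k ih =>
    intro L h1 h2 h3
    rcases L with _ | ⟨y, _ | ⟨x, L'⟩⟩
    · simp at h1
    · simp at h1
    · have h4 := (List.isChain_cons_cons.1 h2)
      have h5 := ih (x :: L') (by simpa using h1) h4.2 fun z hz => h3 z (List.mem_cons_of_mem _ hz)
      rw [wlk, Finset.mem_biUnion]
      refine ⟨_, h5, ?_⟩
      rw [Finset.mem_image]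
      refine ⟨y, ?_, rfl⟩
      simp only [Finset.mem_filter, Finset.mem_univ, true_and]
      refine ⟨x, L', rfl, ?_⟩
      rw [hK]
      exact h4.1

/-- a chain along edges with a marked end contains many marked vertices -/
theorem many_marked (P : ι → Prop) [DecidablePred P] :
    ∀ (n : ℕ) (L : List ι), L.length = n → L.IsChain (fun x y => P x ∨ P y) →
      n / 2 ≤ (L.filter fun x => decide (P x)).length := by
  intro n
  induction n using Nat.strong_induction_on with
  | _ n ih =>
    intro L h1 h2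
    rcases L with _ | ⟨y, _ | ⟨x, L'⟩⟩
    · simp at h1; subst h1; simp
    · simp at h1; subst h1; simp
    · have h4 := (List.isChain_cons_cons.1 h2)
      have h6 : L'.IsChain (fun x y => P x ∨ P y) := h4.2.tail
      have h5 := ih L'.length (by simp at h1; omega) L' rfl h6
      have h7 : n / 2 = L'.length / 2 + 1 := by simp at h1; omega
      rw [h7]
      rcases h4.1 with h | h
      · rw [List.filter_cons_of_pos (by simpa using h), List.length_cons]
        have : (L'.filter fun x => decide (P x)).length ≤ ((x :: L').filter fun x => decide (P x)).length :=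
          (List.Sublist.filter _ (List.sublist_cons_self x L')).length_le
        omega
      · have h8 : ((x :: L').filter fun x => decide (P x)).length ≤
            ((y :: x :: L').filter fun x => decide (P x)).length :=
          (List.Sublist.filter _ (List.sublist_cons_self y (x :: L'))).length_le
        rw [List.filter_cons_of_pos (by simpa using h), List.length_cons] at h8
        omega

theorem vf_meas (c : ℝ) : Measurable (vf c) := by
  unfold vf
  fun_prop

/-- the probability that the speed is small -/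
theorem prob_small (c : ℝ) (hc : 0 < c) (v : ℝ) (hv : 0 ≤ v) :
    unif c {s | vf c s < v} ≤ ENNReal.ofReal v := by
  have h1 : {s | vf c s < v} ∩ Set.Icc (-c) c ⊆ Set.Icc (-c) (-(c * (1 - v))) ∪ Set.Icc (c * (1 - v)) c := by
    rintro s ⟨hs, h2, h3⟩
    simp only [Set.mem_ofPred_eq, vf, max_lt_iff] at hs
    have h4 : (s / c) ^ 2 ≤ |s / c| := by
      have h5 : |s / c| ≤ 1 := by
        rw [abs_div, abs_of_pos hc, div_le_one hc, abs_le]
        exact ⟨h2, h3⟩
      rw [← sq_abs]
      nlinarith [abs_nonneg (s / c)]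
    have h6 : 1 - v < |s| / c := by
      rw [abs_div, abs_of_pos hc] at h4
      linarith [hs.2]
    rw [lt_div_iff₀ hc] at h6
    rcases abs_cases s with h | h
    · right
      exact ⟨by nlinarith, h3⟩
    · left
      exact ⟨h2, by nlinarith⟩
  unfold unif
  rw [Measure.smul_apply, Measure.restrict_apply (measurableSet_lt (vf_meas c) measurable_const),
    smul_eq_mul]
  calc ENNReal.ofReal (1 / (2 * c)) * volume ({s | vf c s < v} ∩ Set.Icc (-c) c)
      ≤ ENNReal.ofReal (1 / (2 * c)) * (ENNReal.ofReal (c * v) + ENNReal.ofReal (c * v)) := by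
        refine mul_le_mul' le_rfl ((measure_mono h1).trans ((measure_union_le _ _).trans ?_))
        rw [Real.volume_Icc, Real.volume_Icc]
        refine add_le_add (ENNReal.ofReal_le_ofReal (by nlinarith)) (ENNReal.ofReal_le_ofReal (by nlinarith))
    _ = ENNReal.ofReal v := by
        rw [← ENNReal.ofReal_add (by positivity) (by positivity), ← ENNReal.ofReal_mul (by positivity)]
        congr 1
        field_simp
        ring

theorem prob_all (c : ℝ) (hc : 0 < c) (v : ℝ) (hv : 0 ≤ v) (T : Finset ι) :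
    PI c ι {ω | ∀ x ∈ T, vf c (ω x) < v} ≤ ENNReal.ofReal v ^ T.card := by
  have hprob := unif_prob c hc
  have h1 : {ω : ι → ℝ | ∀ x ∈ T, vf c (ω x) < v} =
      Set.pi Set.univ fun x => if x ∈ T then {s | vf c s < v} else Set.univ := by
    ext ω
    simp only [Set.mem_ofPred_eq, Set.mem_pi, Set.mem_univ, true_imp_iff]
    refine forall_congr' fun x => ?_
    by_cases hx : x ∈ T <;> simp [hx]
  rw [h1, Measure.pi_pi]
  calc ∏ x, unif c (if x ∈ T then {s | vf c s < v} else Set.univ)
      ≤ ∏ x, (if x ∈ T then ENNReal.ofReal v else 1) := by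
        refine Finset.prod_le_prod' fun x _ => ?_
        by_cases hx : x ∈ T
        · rw [if_pos hx, if_pos hx]
          exact prob_small c hc v hv
        · rw [if_neg hx, if_neg hx, measure_univ]
    _ = ENNReal.ofReal v ^ T.card := by
        rw [Finset.prod_ite_mem, Finset.univ_inter, Finset.prod_const]

/-- the exceptional set -/
def BadS (K : ι → ι → ℝ) (S : Finset ι) (c v : ℝ) (k : ℕ) : Set (ι → ℝ) :=
  ⋃ L ∈ (wlk K S k).filter (fun L => L.Nodup), ⋃ T ∈ L.toFinset.powersetCard ((k + 1) / 2),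
    {ω | ∀ x ∈ T, vf c (ω x) < v}

theorem badS_meas (K : ι → ι → ℝ) (S : Finset ι) (c v : ℝ) (k : ℕ) :
    MeasurableSet (BadS K S c v k) := by
  unfold BadS
  refine Finset.measurableSet_biUnion _ fun L _ => Finset.measurableSet_biUnion _ fun T _ => ?_
  have : {ω : ι → ℝ | ∀ x ∈ T, vf c (ω x) < v} = ⋂ x ∈ T, {ω | vf c (ω x) < v} := by
    ext ω; simp
  rw [this]
  refine Finset.measurableSet_biInter _ fun x _ => ?_
  exact measurableSet_lt ((vf_meas c).comp (measurable_pi_apply x)) measurable_const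

theorem badS_prob (K : ι → ι → ℝ) (S : Finset ι) (D : ℕ) (hD1 : 1 ≤ D)
    (hD : ∀ x, (Finset.univ.filter fun y => K x y ≠ 0).card ≤ D) (c : ℝ) (hc : 0 < c) (k : ℕ) :
    (PI c ι).real (BadS K S c (1 / (32 * (D : ℝ) ^ 2)) k) ≤ (S.card : ℝ) * (1 / 2) ^ k := by
  have hprob := unif_prob c hc
  set v : ℝ := 1 / (32 * (D : ℝ) ^ 2) with hv
  have hD0 : (1 : ℝ) ≤ D := by exact_mod_cast hD1
  have hv0 : 0 < v := by positivity
  have h1 : ∀ T : Finset ι, (PI c ι).real {ω | ∀ x ∈ T, vf c (ω x) < v} ≤ v ^ T.card := by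
    intro T
    have := prob_all c hc v hv0.le T
    rw [← ENNReal.ofReal_pow hv0.le] at this
    exact ENNReal.toReal_le_of_le_ofReal (by positivity) this
  unfold BadS
  refine (measureReal_biUnion_finset_le _ _).trans ?_
  have h2 : ∀ L ∈ (wlk K S k).filter (fun L => L.Nodup), (PI c ι).real (⋃ T ∈ L.toFinset.powersetCard ((k + 1) / 2),
      {ω | ∀ x ∈ T, vf c (ω x) < v}) ≤ (8 * v) ^ ((k + 1) / 2) := by
    intro L hL
    rw [Finset.mem_filter] at hL
    have h3 := wlk_len K S k L hL.1
    refine (measureReal_biUnion_finset_le _ _).trans ?_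
    have h4 : ∀ T ∈ L.toFinset.powersetCard ((k + 1) / 2),
        (PI c ι).real {ω | ∀ x ∈ T, vf c (ω x) < v} ≤ v ^ ((k + 1) / 2) := by
      intro T hT
      rw [Finset.mem_powersetCard] at hT
      rw [← hT.2]
      exact h1 T
    refine (Finset.sum_le_card_nsmul _ _ _ h4).trans ?_
    rw [Finset.card_powersetCard, nsmul_eq_mul, mul_pow]
    refine mul_le_mul_of_nonneg_right ?_ (by positivity)
    have h5 : L.toFinset.card ≤ k + 1 := by
      rw [← h3]; exact L.toFinset_card_le
    have h6 : L.toFinset.card.choose ((k + 1) / 2) ≤ (k + 1).choose ((k + 1) / 2) :=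
      Nat.choose_le_choose _ h5
    have h7 : (k + 1).choose ((k + 1) / 2) ≤ 8 ^ ((k + 1) / 2) := by
      rcases Nat.eq_zero_or_pos ((k + 1) / 2) with h | h
      · rw [h]; simp
      · refine (Nat.choose_le_two_pow _ _).trans ?_
        calc 2 ^ (k + 1) ≤ 2 ^ (3 * ((k + 1) / 2)) := Nat.pow_le_pow_right (by norm_num) (by omega)
          _ = 8 ^ ((k + 1) / 2) := by rw [pow_mul]; norm_num
    exact_mod_cast h6.trans h7
  refine (Finset.sum_le_card_nsmul _ _ _ h2).trans ?_
  rw [nsmul_eq_mul]
  have h8 : (((wlk K S k).filter (fun L => L.Nodup)).card : ℝ) ≤ (S.card : ℝ) * D ^ k := by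
    exact_mod_cast (Finset.card_filter_le _ _).trans (wlk_card K S D hD k)
  have h9 : (8 * v) ^ ((k + 1) / 2) ≤ (1 / (2 * (D : ℝ))) ^ k := by
    have h10 : 8 * v = (1 / (2 * (D : ℝ))) ^ 2 := by
      rw [hv]; field_simp; ring
    rw [h10, ← pow_mul]
    refine pow_le_pow_of_le_one (by positivity) ?_ (by omega)
    rw [div_le_one (by positivity)]
    linarith
  calc _ ≤ (S.card : ℝ) * D ^ k * (1 / (2 * (D : ℝ))) ^ k :=
        mul_le_mul h8 h9 (by positivity) (by positivity)
    _ = (S.card : ℝ) * (1 / 2) ^ k := by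
        rw [mul_assoc, ← mul_pow]
        congr 2
        field_simp

/-- edges of the slab with a marked end -/
def HG (K : ι → ι → ℝ) (hK : ∀ x y, K x y = K y x) (S : Finset ι) (P : ι → Prop) : SimpleGraph ι where
  Adj x y := x ≠ y ∧ x ∈ S ∧ y ∈ S ∧ K x y ≠ 0 ∧ (P x ∨ P y)
  symm := ⟨fun x y h => ⟨h.1.symm, h.2.2.1, h.2.1, by rw [hK]; exact h.2.2.2.1, h.2.2.2.2.symm⟩⟩
  loopless := ⟨fun x h => h.1 rfl⟩

theorem walk_mem {K : ι → ι → ℝ} {hK : ∀ x y, K x y = K y x} {S : Finset ι} {P : ι → Prop}
    {x y : ι} (p : (HG K hK S P).Walk x y) : x ∈ S → ∀ z ∈ p.support, z ∈ S := by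
  induction p with
  | nil =>
    intro h z hz
    rw [SimpleGraph.Walk.support_nil, List.mem_singleton] at hz
    rw [hz]; exact h
  | cons h p ih =>
    intro hx z hz
    rw [SimpleGraph.Walk.support_cons, List.mem_cons] at hz
    rcases hz with rfl | hz
    · exact hx
    · exact ih h.2.2.1 z hz

theorem walk_lay {K : ι → ι → ℝ} {hK : ∀ x y, K x y = K y x} {S : Finset ι} {P : ι → Prop}
    (lay : ι → ℕ) (hl : ∀ x y, K x y ≠ 0 → lay y ≤ lay x + 1)
    {x y : ι} (p : (HG K hK S P).Walk x y) : lay y ≤ lay x + p.length := by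
  induction p with
  | nil => simp
  | cons h p ih =>
    have := hl _ _ h.2.2.2.1
    rw [SimpleGraph.Walk.length_cons]
    omega

theorem path_short {K : ι → ι → ℝ} {hK : ∀ x y, K x y = K y x} {S : Finset ι} {c v : ℝ} {k : ℕ}
    {ω : ι → ℝ} (hω : ω ∉ BadS K S c v k) {x y : ι} (hx : x ∈ S)
    (p : (HG K hK S fun x => vf c (ω x) < v).Walk x y) (hp : p.IsPath) : p.length < k := by
  classical
  by_contra hcon
  push Not at hcon
  apply hω
  have hlen : (p.support.take (k + 1)).length = k + 1 := by
    rw [List.length_take, SimpleGraph.Walk.length_support]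
    omega
  have hch : (p.support.take (k + 1)).IsChain (HG K hK S fun x => vf c (ω x) < v).Adj :=
    p.isChain_adj_support.take _
  have hnd : (p.support.take (k + 1)).Nodup :=
    (List.take_sublist _ _).nodup (SimpleGraph.Walk.isPath_def p |>.1 hp)
  have hmem : p.support.take (k + 1) ∈ wlk K S k := by
    refine mem_wlk K hK S k _ hlen (hch.imp fun a b h => h.2.2.2.1) fun z hz => ?_
    exact walk_mem p hx z (List.mem_of_mem_take hz)
  have hmany := many_marked (fun x => vf c (ω x) < v) (k + 1) _ hlen (hch.imp fun a b h => h.2.2.2.2)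
  unfold BadS
  simp only [Set.mem_iUnion, Finset.mem_filter, exists_prop]
  refine ⟨p.support.take (k + 1), ⟨hmem, hnd⟩, ?_⟩
  have hcard : (k + 1) / 2 ≤ ((p.support.take (k + 1)).filter fun x => decide (vf c (ω x) < v)).toFinset.card := by
    rw [List.toFinset_card_of_nodup (hnd.filter _)]
    exact hmany
  obtain ⟨T, hT1, hT2⟩ := Finset.exists_subset_card_eq hcard
  refine ⟨T, ?_, ?_⟩
  · rw [Finset.mem_powersetCard]
    refine ⟨fun z hz => ?_, hT2⟩
    have := hT1 hz
    rw [List.mem_toFinset, List.mem_filter] at this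
    rw [List.mem_toFinset]
    exact this.1
  · intro z hz
    have := hT1 hz
    rw [List.mem_toFinset, List.mem_filter] at this
    simpa using this.2

open Classical in
theorem lev_exists (K : ι → ι → ℝ) (hK : ∀ x y, K x y = K y x) (lay : ι → ℕ)
    (hl : ∀ x y, K x y ≠ 0 → lay y ≤ lay x + 1) (c v : ℝ) (r l k m : ℕ) (hm : (m + 2) * (k + 1) ≤ l)
    (B S : Finset ι) (hB : ∀ x, x ∈ B ↔ lay x ≤ r) (hS : ∀ x, x ∈ S ↔ r < lay x ∧ lay x ≤ r + l)
    (ω : ι → ℝ) (hω : ω ∉ BadS K S c v k) : ∃ d : ι → ℕ, IsLev K B S c v ω m d := by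
  set H := HG K hK S fun x => vf c (ω x) < v with hH
  obtain ⟨M, hMdef⟩ : ∃ M : ι → ℕ, ∀ x, M x = (Finset.univ.filter fun y => H.Reachable x y).sup lay :=
    ⟨_, fun x => rfl⟩
  have hM1 : ∀ x, lay x ≤ M x := by
    intro x
    rw [hMdef]
    exact Finset.le_sup (f := lay) (by simp)
  have hM2 : ∀ x ∈ S, M x + 1 ≤ lay x + k := by
    intro x hx
    have h1 : M x ≤ lay x + (k - 1) := by
      rw [hMdef]
      refine Finset.sup_le fun y hy => ?_
      rw [Finset.mem_filter] at hy
      obtain ⟨w⟩ := hy.2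
      have h2 := path_short hω hx w.toPath.1 w.toPath.2
      have h3 := walk_lay lay hl w.toPath.1
      omega
    have h2 := path_short hω hx (SimpleGraph.Walk.nil : H.Walk x x) SimpleGraph.Walk.IsPath.nil
    rw [SimpleGraph.Walk.length_nil] at h2
    omega
  have hM3 : ∀ x y, H.Adj x y → M x = M y := by
    intro x y h
    rw [hMdef, hMdef]
    congr 1
    ext z
    simp only [Finset.mem_filter, Finset.mem_univ, true_and]
    exact ⟨fun h' => h.symm.reachable.trans h', fun h' => h.reachable.trans h'⟩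
  have hl' : ∀ x y, K x y ≠ 0 → lay x ≤ lay y + 1 := by
    intro x y h
    apply hl
    rw [hK]; exact h
  have hm2 : 2 ≤ l := le_trans (by nlinarith) hm
  obtain ⟨d, hd⟩ : ∃ d : ι → ℕ, ∀ x, d x = if lay x ≤ r then 0 else if lay x ≤ r + l then
      min ((M x - r) / (k + 1)) (m + 1) else m + 1 := ⟨_, fun x => rfl⟩
  have hd0 : ∀ x, lay x ≤ r → d x = 0 := by
    intro x hx
    rw [hd, if_pos hx]
  have hd1 : ∀ x, r < lay x → lay x ≤ r + l → d x = min ((M x - r) / (k + 1)) (m + 1) := by
    intro x hx hx'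
    rw [hd, if_neg (by omega), if_pos hx']
  have hd2 : ∀ x, r + l < lay x → d x = m + 1 := by
    intro x hx
    rw [hd, if_neg (by omega), if_neg (by omega)]
  have hlow : ∀ x, lay x = r + 1 → d x = 0 := by
    intro x hx
    have hxS : x ∈ S := (hS x).2 ⟨by omega, by omega⟩
    rw [hd1 x (by omega) (by omega)]
    have h1 := hM2 x hxS
    have h2 : (M x - r) / (k + 1) = 0 := Nat.div_eq_of_lt (by omega)
    rw [h2]
    simp
  have hhigh : ∀ x, lay x = r + l → d x = m + 1 := by
    intro x hx
    rw [hd1 x (by omega) (by omega)]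
    have h1 := hM1 x
    have h2 : m + 2 ≤ (M x - r) / (k + 1) := by
      rw [Nat.le_div_iff_mul_le (by omega)]
      omega
    omega
  refine ⟨d, ?_, ?_, ?_⟩
  · intro x hx
    exact hd0 x ((hB x).1 hx)
  · intro x hx hx'
    rw [hB] at hx
    rw [hS] at hx'
    exact hd2 x (by omega)
  · intro x y hxy hne
    have h1 := hl x y hxy
    have h2 := hl' x y hxy
    -- both ends lie in the slab
    have hx1 : r < lay x := by
      by_contra hc
      push Not at hc
      apply hne
      rw [hd0 x hc]
      rcases Nat.lt_or_ge r (lay y) with h | h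
      · rw [hlow y (by omega)]
      · rw [hd0 y h]
    have hy1 : r < lay y := by
      by_contra hc
      push Not at hc
      apply hne
      rw [hd0 y hc, hlow x (by omega)]
    have hx2 : lay x ≤ r + l := by
      by_contra hc
      push Not at hc
      apply hne
      rw [hd2 x hc]
      rcases Nat.lt_or_ge (r + l) (lay y) with h | h
      · rw [hd2 y h]
      · rw [hhigh y (by omega)]
    have hy2 : lay y ≤ r + l := by
      by_contra hc
      push Not at hc
      apply hne
      rw [hd2 y hc, hhigh x (by omega)]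
    have hxS : x ∈ S := (hS x).2 ⟨hx1, hx2⟩
    have hyS : y ∈ S := (hS y).2 ⟨hy1, hy2⟩
    have hnm : ¬ (vf c (ω x) < v ∨ vf c (ω y) < v) := by
      intro hcl
      apply hne
      have hadj : H.Adj x y := ⟨fun h => hne (by rw [h]), hxS, hyS, hxy, hcl⟩
      rw [hd1 x hx1 hx2, hd1 y hy1 hy2, hM3 x y hadj]
    push Not at hnm
    refine ⟨?_, hxS, hnm.1⟩
    rw [hd1 x hx1 hx2, hd1 y hy1 hy2]
    have h3 := hM2 y hyS
    have h4 := hM1 x
    have h5 : (M y - r) / (k + 1) ≤ (M x - r) / (k + 1) + 1 := by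
      rw [← Nat.add_div_right _ (by omega : 0 < k + 1)]
      exact Nat.div_le_div_right (by omega)
    omega

end Perc

/-- **M4.** -/
theorem stPerc : StPerc := by
  intro c hc D hD
  have hD0 : (1 : ℝ) ≤ D := by exact_mod_cast hD
  refine ⟨1 / (32 * (D : ℝ) ^ 2), by positivity, ?_⟩
  intro ι _ _ K hK hdeg lay hl r l k m hm
  refine ⟨BadS K (Finset.univ.filter fun x => r < lay x ∧ lay x ≤ r + l) c (1 / (32 * (D : ℝ) ^ 2)) k,
    badS_meas _ _ _ _ _, badS_prob K _ D hD hdeg c hc k, ?_⟩
  intro ω hω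
  exact lev_exists K hK lay hl c _ r l k m hm _ _ (by simp) (by simp) ω hω

end Pool.Agent.L0h56.SL

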