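import Pool.Agent.L0h56.SL.Def

/-!
Orthogonality of martingale increments.
-/

set_option autoImplicit false
set_option linter.unusedSectionVars false
set_option linter.unusedVariables false

open scoped BigOperators Topology
open Complex MeasureTheory Pool.Agent.L0h56.CS

namespace Pool.Agent.L0h56.SL

variable {ι : Type} [Fintype ι] [DecidableEq ι]

theorem mix_meas (B : Finset ι) :
    Measurable (fun p : (ι → ℝ) × (ι → ℝ) => mix B p.1 p.2) := by
  refine measurable_pi_lambda _ fun x => ?_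
  unfold mix
  by_cases hx : x ∈ B
  · simp only [hx, if_true]
    exact (measurable_pi_apply x).comp measurable_fst
  · simp only [hx, if_false]
    exact (measurable_pi_apply x).comp measurable_snd

theorem mix_mp {c : ℝ} (hc : 0 < c) (B : Finset ι) :
    MeasurePreserving (fun p : (ι → ℝ) × (ι → ℝ) => mix B p.1 p.2)
      ((PI c ι).prod (PI c ι)) (PI c ι) := by
  have := unif_prob c hc
  refine ⟨mix_meas B, ?_⟩
  symm
  refine Measure.pi_eq fun s hs => ?_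
  rw [Measure.map_apply (mix_meas B) (MeasurableSet.univ_pi hs)]
  have hpre : (fun p : (ι → ℝ) × (ι → ℝ) => mix B p.1 p.2) ⁻¹' (Set.univ.pi s) =
      (Set.univ.pi fun x => if x ∈ B then s x else Set.univ) ×ˢ
        (Set.univ.pi fun x => if x ∈ B then Set.univ else s x) := by
    ext p
    simp only [Set.mem_preimage, Set.mem_pi, Set.mem_univ, forall_true_left, Set.mem_prod, mix]
    constructor
    · intro h
      refine ⟨fun x => ?_, fun x => ?_⟩
      · by_cases hx : x ∈ B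
        · have := h x
          simp only [hx, if_true] at this ⊢
          exact this
        · simp [hx]
      · by_cases hx : x ∈ B
        · simp [hx]
        · have := h x
          simp only [hx, if_false] at this ⊢
          exact this
    · rintro ⟨h1, h2⟩ x
      by_cases hx : x ∈ B
      · have := h1 x
        simp only [hx, if_true] at this ⊢
        exact this
      · have := h2 x
        simp only [hx, if_false] at this ⊢
        exact this
  rw [hpre, Measure.prod_prod, Measure.pi_pi, Measure.pi_pi, ← Finset.prod_mul_distrib]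
  refine Finset.prod_congr rfl fun x _ => ?_
  by_cases hx : x ∈ B
  · simp only [hx, if_true, measure_univ, mul_one]
  · simp only [hx, if_false, measure_univ, one_mul]

theorem mix_mix {B B' : Finset ι} (h : B ⊆ B') (a b d : ι → ℝ) :
    mix B a (mix B' b d) = mix B' (mix B a b) d := by
  funext x
  unfold mix
  by_cases hx : x ∈ B
  · simp [hx, h hx]
  · by_cases hx' : x ∈ B' <;> simp [hx, hx']

theorem mix_self (B : Finset ι) (a b d : ι → ℝ) : mix B (mix B a b) d = mix B a d := by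
  funext x
  unfold mix
  by_cases hx : x ∈ B <;> simp [hx]

/-- conditional expectation -/
noncomputable def EB (c : ℝ) (f : (ι → ℝ) → ℂ) (B : Finset ι) (ω : ι → ℝ) : ℂ :=
  ∫ ω', f (mix B ω ω') ∂(PI c ι)

theorem mix_meas_left (B : Finset ι) (a : ι → ℝ) : Measurable (fun b : ι → ℝ => mix B a b) :=
  (mix_meas B).comp measurable_prodMk_left

theorem EB_meas {c : ℝ} (hc : 0 < c) {f : (ι → ℝ) → ℂ} (hf : Measurable f) (B : Finset ι) :
    Measurable (EB c f B) := by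
  have := unif_prob c hc
  unfold EB
  have h1 : Measurable (fun p : (ι → ℝ) × (ι → ℝ) => f (mix B p.1 p.2)) := hf.comp (mix_meas B)
  exact (h1.stronglyMeasurable.integral_prod_right (ν := PI c ι)).measurable

theorem EB_le {c : ℝ} (hc : 0 < c) {f : (ι → ℝ) → ℂ} (hf1 : ∀ ω, ‖f ω‖ ≤ 1) (B : Finset ι)
    (ω : ι → ℝ) : ‖EB c f B ω‖ ≤ 1 := by
  have := unif_prob c hc
  unfold EB
  refine (norm_integral_le_integral_norm _).trans ?_
  have h7 : ∫ ω', ‖f (mix B ω ω')‖ ∂(PI c ι) ≤ ∫ ω', (1 : ℝ) ∂(PI c ι) :=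
    integral_mono_of_nonneg (ae_of_all _ fun t => norm_nonneg _) (integrable_const _)
      (ae_of_all _ fun t => hf1 _)
  simpa using h7

/-- the variance of a bounded complex function -/
theorem var_eq {Ω : Type*} [MeasurableSpace Ω] (P : Measure Ω) [IsProbabilityMeasure P] {h : Ω → ℂ}
    (hh : Measurable h) (h1 : ∀ ω, ‖h ω‖ ≤ 1) :
    ∫ ω, ‖h ω - ∫ ω', h ω' ∂P‖ ^ 2 ∂P = ∫ ω, ‖h ω‖ ^ 2 ∂P - ‖∫ ω', h ω' ∂P‖ ^ 2 := by
  set m := ∫ ω', h ω' ∂P with hm
  have hi : Integrable h P := Integrable.of_bound (C := 1) hh.aestronglyMeasurable (ae_of_all _ h1)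
  have hi2 : Integrable (fun ω => ‖h ω‖ ^ 2) P :=
    Integrable.of_bound (C := 1) (hh.norm.pow_const 2).aestronglyMeasurable (ae_of_all _ fun ω => by
      rw [Real.norm_eq_abs, abs_of_nonneg (by positivity)]
      exact pow_le_one₀ (norm_nonneg _) (h1 ω))
  have hi3 : Integrable (fun ω => (starRingEnd ℂ) m * h ω) P := hi.const_mul _
  have e : ∀ ω, ‖h ω - m‖ ^ 2 = ‖h ω‖ ^ 2 - (2 * ((starRingEnd ℂ) m * h ω).re - ‖m‖ ^ 2) := by
    intro ω
    rw [← Complex.normSq_eq_norm_sq, ← Complex.normSq_eq_norm_sq, ← Complex.normSq_eq_norm_sq,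
      Complex.normSq_apply, Complex.normSq_apply, Complex.normSq_apply]
    simp only [sub_re, sub_im, mul_re, conj_re, conj_im]
    ring
  have hi5 : Integrable (fun ω => ((starRingEnd ℂ) m * h ω).re) P := hi3.re
  have hi4 : Integrable (fun ω => 2 * ((starRingEnd ℂ) m * h ω).re - ‖m‖ ^ 2) P :=
    (hi5.const_mul 2).sub (integrable_const _)
  simp only [e]
  rw [integral_sub hi2 hi4, integral_sub (hi5.const_mul 2) (integrable_const _),
    integral_const_mul, integral_const]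
  have h2 : ∫ ω, ((starRingEnd ℂ) m * h ω).re ∂P = ‖m‖ ^ 2 := by
    have h3 : ∫ ω, RCLike.re ((starRingEnd ℂ) m * h ω) ∂P =
        RCLike.re (∫ ω, (starRingEnd ℂ) m * h ω ∂P) := integral_re hi3
    have h4 : ∫ ω, ((starRingEnd ℂ) m * h ω).re ∂P = (∫ ω, (starRingEnd ℂ) m * h ω ∂P).re := h3
    rw [h4, integral_const_mul, ← hm, ← Complex.normSq_eq_norm_sq, Complex.normSq_apply]
    simp only [mul_re, conj_re, conj_im]
    ring
  rw [h2]
  simp
  ring

theorem int_mix {c : ℝ} (hc : 0 < c) (B : Finset ι) {g : (ι → ℝ) → ℂ} (hg : Measurable g)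
    (h1 : ∀ ω, ‖g ω‖ ≤ 1) :
    ∫ ω₁, ∫ ω₂, g (mix B ω₁ ω₂) ∂(PI c ι) ∂(PI c ι) = ∫ ω, g ω ∂(PI c ι) := by
  have := unif_prob c hc
  have hm := mix_mp hc B
  have hi : Integrable (fun p : (ι → ℝ) × (ι → ℝ) => g (mix B p.1 p.2))
      ((PI c ι).prod (PI c ι)) :=
    Integrable.of_bound (C := 1) (hg.comp (mix_meas B)).aestronglyMeasurable (ae_of_all _ fun p => h1 _)
  rw [← integral_prod (fun p : (ι → ℝ) × (ι → ℝ) => g (mix B p.1 p.2)) hi]
  have h2 : ∫ ω, g ω ∂(PI c ι) = ∫ ω, g ω ∂(Measure.map (fun p : (ι → ℝ) × (ι → ℝ) =>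
      mix B p.1 p.2) ((PI c ι).prod (PI c ι))) := by rw [hm.map_eq]
  rw [h2, integral_map hm.measurable.aemeasurable hg.aestronglyMeasurable]

theorem int_mixR {c : ℝ} (hc : 0 < c) (B : Finset ι) {g : (ι → ℝ) → ℝ} (hg : Measurable g)
    (h1 : ∀ ω, |g ω| ≤ 1) :
    ∫ ω₁, ∫ ω₂, g (mix B ω₁ ω₂) ∂(PI c ι) ∂(PI c ι) = ∫ ω, g ω ∂(PI c ι) := by
  have := unif_prob c hc
  have hm := mix_mp hc B
  have hi : Integrable (fun p : (ι → ℝ) × (ι → ℝ) => g (mix B p.1 p.2))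
      ((PI c ι).prod (PI c ι)) :=
    Integrable.of_bound (C := 1) (hg.comp (mix_meas B)).aestronglyMeasurable (ae_of_all _ fun p => h1 _)
  rw [← integral_prod (fun p : (ι → ℝ) × (ι → ℝ) => g (mix B p.1 p.2)) hi]
  have h2 : ∫ ω, g ω ∂(PI c ι) = ∫ ω, g ω ∂(Measure.map (fun p : (ι → ℝ) × (ι → ℝ) =>
      mix B p.1 p.2) ((PI c ι).prod (PI c ι))) := by rw [hm.map_eq]
  rw [h2, integral_map hm.measurable.aemeasurable hg.aestronglyMeasurable]

theorem step_eq {c : ℝ} (hc : 0 < c) {f : (ι → ℝ) → ℂ} (hf : Measurable f) (hf1 : ∀ ω, ‖f ω‖ ≤ 1)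
    {B B' : Finset ι} (h : B ⊆ B') :
    ∫ ω₁, ∫ ω₂, ‖∫ ω₃, f (mix B ω₁ (mix B' ω₂ ω₃)) ∂(PI c ι) -
      ∫ ω', f (mix B ω₁ ω') ∂(PI c ι)‖ ^ 2 ∂(PI c ι) ∂(PI c ι) =
    ∫ ω, ‖EB c f B' ω‖ ^ 2 ∂(PI c ι) - ∫ ω, ‖EB c f B ω‖ ^ 2 ∂(PI c ι) := by
  have := unif_prob c hc
  have h1 : ∀ ω₁ : ι → ℝ, ∫ ω₂, ‖∫ ω₃, f (mix B ω₁ (mix B' ω₂ ω₃)) ∂(PI c ι) -
      ∫ ω', f (mix B ω₁ ω') ∂(PI c ι)‖ ^ 2 ∂(PI c ι) =
      ∫ ω₂, ‖EB c f B' (mix B ω₁ ω₂)‖ ^ 2 ∂(PI c ι) - ‖EB c f B ω₁‖ ^ 2 := by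
    intro ω₁
    have e1 : ∀ ω₂ : ι → ℝ, ∫ ω₃, f (mix B ω₁ (mix B' ω₂ ω₃)) ∂(PI c ι) =
        EB c f B' (mix B ω₁ ω₂) := by
      intro ω₂
      unfold EB
      simp only [mix_mix h]
    have e2 : ∫ ω₂, EB c f B' (mix B ω₁ ω₂) ∂(PI c ι) = ∫ ω', f (mix B ω₁ ω') ∂(PI c ι) := by
      rw [← int_mix hc B' (g := fun ω => f (mix B ω₁ ω)) (hf.comp (mix_meas_left B ω₁))
        (fun ω => hf1 _)]
      refine integral_congr_ae (ae_of_all _ fun ω₂ => ?_)
      exact (e1 ω₂).symm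
    simp only [e1]
    rw [← e2]
    rw [var_eq (PI c ι) (h := fun ω₂ => EB c f B' (mix B ω₁ ω₂))
      ((EB_meas hc hf B').comp (mix_meas_left B ω₁)) (fun ω => EB_le hc hf1 B' _), e2]
    rfl
  simp only [h1]
  have hsq : ∀ (C : Finset ι) (ω : ι → ℝ), |‖EB c f C ω‖ ^ 2| ≤ 1 := by
    intro C ω
    rw [abs_of_nonneg (by positivity)]
    exact pow_le_one₀ (norm_nonneg _) (EB_le hc hf1 C ω)
  have hmsq : ∀ C : Finset ι, Measurable fun ω => ‖EB c f C ω‖ ^ 2 := fun C =>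
    (EB_meas hc hf C).norm.pow_const 2
  rw [integral_sub, int_mixR hc B (hmsq B') (hsq B')]
  · have h2 : Measurable (fun p : (ι → ℝ) × (ι → ℝ) => ‖EB c f B' (mix B p.1 p.2)‖ ^ 2) :=
      (hmsq B').comp (mix_meas B)
    have h3 := (h2.stronglyMeasurable.integral_prod_right' (ν := PI c ι))
    refine Integrable.of_bound (C := 1) h3.aestronglyMeasurable (ae_of_all _ fun ω => ?_)
    rw [Real.norm_eq_abs, abs_of_nonneg (integral_nonneg fun _ => by positivity)]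
    have h4 : ∫ ω₂, ‖EB c f B' (mix B ω ω₂)‖ ^ 2 ∂(PI c ι) ≤ ∫ ω₂, (1:ℝ) ∂(PI c ι) :=
      integral_mono_of_nonneg (ae_of_all _ fun t => by positivity) (integrable_const _)
        (ae_of_all _ fun t => (le_abs_self _).trans (hsq _ _))
    simpa using h4
  · exact Integrable.of_bound (C := 1) (hmsq B).aestronglyMeasurable (ae_of_all _ fun ω => hsq B ω)

theorem stSum : StSum := by
  intro c hc ι _ _ f hf hf1 B hB n
  have := unif_prob c hc
  have h1 : ∀ j, B j ⊆ B (j + 1) := fun j => hB (Nat.le_succ j)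
  simp only [fun j => step_eq hc hf hf1 (h1 j)]
  rw [Finset.sum_range_sub (fun j => ∫ ω, ‖EB c f (B j) ω‖ ^ 2 ∂(PI c ι))]
  have h2 : 0 ≤ ∫ ω, ‖EB c f (B 0) ω‖ ^ 2 ∂(PI c ι) := integral_nonneg fun _ => by positivity
  have h3 : ∫ ω, ‖EB c f (B n) ω‖ ^ 2 ∂(PI c ι) ≤ ∫ ω, (1:ℝ) ∂(PI c ι) :=
    integral_mono_of_nonneg (ae_of_all _ fun t => by positivity) (integrable_const _)
      (ae_of_all _ fun t => pow_le_one₀ (norm_nonneg _) (EB_le hc hf1 (B n) t))
  have h4 : ∫ ω, (1:ℝ) ∂(PI c ι) = 1 := by simp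
  linarith

end Pool.Agent.L0h56.SL
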