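import Pool.Agent.L0h56.SL.Def

/-!
The two constants theorem.
-/

set_option autoImplicit false
set_option linter.unusedSectionVars false
set_option linter.unusedVariables false

open scoped BigOperators Topology
open Complex MeasureTheory Pool.Agent.L0h56.CS

namespace Pool.Agent.L0h56.SL

theorem norm_Wk_real (k Λ t : ℝ) (hk : 0 < k) :
    ‖Wk k Λ t‖ = Real.exp (Λ * (k ^ 2 / (k ^ 2 + t ^ 2))) := by
  unfold Wk
  rw [Complex.norm_exp]
  congr 1
  have h1 : (0:ℝ) < k ^ 2 + t ^ 2 := by positivity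
  have h2 : (k : ℂ) - I * t ≠ 0 := by
    intro h
    have := congrArg Complex.re h
    simp at this
    exact hk.ne' this
  have h3 : (((Λ * k : ℝ) : ℂ) / ((k : ℂ) - I * t)) =
      ((Λ * (k ^ 2 / (k ^ 2 + t ^ 2)) : ℝ) : ℂ) + ((Λ * (k * t / (k ^ 2 + t ^ 2)) : ℝ) : ℂ) * I := by
    have h4 : ((k : ℂ) ^ 2 + (t : ℂ) ^ 2) ≠ 0 := by exact_mod_cast h1.ne'
    rw [div_eq_iff h2]
    push_cast
    field_simp
    linear_combination (-(t : ℂ) ^ 2 * k) * Complex.I_sq * 0 + ((Λ : ℂ) * k * t ^ 2) * Complex.I_sq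
  rw [h3, Complex.add_re, Complex.ofReal_re, Complex.re_ofReal_mul, Complex.I_re, mul_zero,
    add_zero]

theorem norm_Wk_I (k Λ : ℝ) (hk : 0 < k) :
    ‖Wk k Λ I‖ = Real.exp (Λ * (k / (k + 1))) := by
  unfold Wk
  rw [Complex.norm_exp]
  congr 1
  have h1 : (k : ℂ) - I * I = ((k + 1 : ℝ) : ℂ) := by
    push_cast
    linear_combination -Complex.I_sq
  rw [h1, ← Complex.ofReal_div, Complex.ofReal_re]
  ring

theorem norm_Wk_le (k Λ t : ℝ) (hk : 0 < k) (hΛ : 0 ≤ Λ) : ‖Wk k Λ t‖ ≤ Real.exp Λ := by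
  rw [norm_Wk_real k Λ t hk]
  refine Real.exp_le_exp.2 ?_
  have h1 : (0:ℝ) < k ^ 2 + t ^ 2 := by positivity
  have : k ^ 2 / (k ^ 2 + t ^ 2) ≤ 1 := by
    rw [div_le_one h1]
    nlinarith [sq_nonneg t]
  nlinarith

theorem norm_Wk_le2 (k Λ t : ℝ) (hk : 0 < k) (hΛ : 0 ≤ Λ) (ht : k < |t|) :
    ‖Wk k Λ t‖ ≤ Real.exp (Λ / 2) := by
  rw [norm_Wk_real k Λ t hk]
  refine Real.exp_le_exp.2 ?_
  have h1 : (0:ℝ) < k ^ 2 + t ^ 2 := by positivity
  have h2 : k ^ 2 ≤ t ^ 2 := by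
    rw [← sq_abs t]
    exact pow_le_pow_left₀ hk.le ht.le 2
  have : k ^ 2 / (k ^ 2 + t ^ 2) ≤ 1 / 2 := by
    rw [div_le_div_iff₀ h1 (by norm_num)]
    linarith
  nlinarith

theorem cont_Wk (k Λ : ℝ) (hk : 0 < k) : Continuous fun t : ℝ => Wk k Λ t := by
  unfold Wk
  refine Complex.continuous_exp.comp ?_
  refine continuous_const.div (by fun_prop) ?_
  intro t h
  have := congrArg Complex.re h
  simp at this
  exact hk.ne' this

/-- Jensen's inequality for squares of norms -/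
theorem sq_int_le {Ω : Type} [MeasurableSpace Ω] (P : Measure Ω) [IsProbabilityMeasure P]
    (f : Ω → ℂ) (hf : AEStronglyMeasurable f P) (C : ℝ) (hC : ∀ ω, ‖f ω‖ ≤ C) :
    ‖∫ ω, f ω ∂P‖ ^ 2 ≤ ∫ ω, ‖f ω‖ ^ 2 ∂P := by
  have h1 : ‖∫ ω, f ω ∂P‖ ≤ ∫ ω, ‖f ω‖ ∂P := norm_integral_le_integral_norm f
  have h2 : (∫ ω, ‖f ω‖ ∂P) ^ 2 ≤ ∫ ω, ‖f ω‖ ^ 2 ∂P := by
    have hi1 : Integrable (fun ω => ‖f ω‖) P :=
      Integrable.of_bound (C := C) hf.norm (ae_of_all _ fun ω => by rw [norm_norm]; exact hC ω)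
    have hi2 : Integrable (fun ω => ‖f ω‖ ^ 2) P :=
      Integrable.of_bound (C := C ^ 2) (hf.norm.pow 2) (ae_of_all _ fun ω => by
        rw [Real.norm_eq_abs, abs_of_nonneg (by positivity)]
        exact pow_le_pow_left₀ (norm_nonneg _) (hC ω) 2)
    set m := ∫ ω, ‖f ω‖ ∂P with hm
    have h3 : 0 ≤ ∫ ω, (‖f ω‖ - m) ^ 2 ∂P := integral_nonneg fun ω => sq_nonneg _
    have h4 : ∫ ω, (‖f ω‖ - m) ^ 2 ∂P = ∫ ω, ‖f ω‖ ^ 2 ∂P - m ^ 2 := by
      have e : ∀ ω, (‖f ω‖ - m) ^ 2 = ‖f ω‖ ^ 2 - (2 * m * ‖f ω‖ - m ^ 2) := fun ω => by ring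
      simp only [e]
      have hi3 : Integrable (fun ω => 2 * m * ‖f ω‖ - m ^ 2) P :=
        (hi1.const_mul _).sub (integrable_const _)
      rw [integral_sub hi2 hi3,
        integral_sub (hi1.const_mul _) (integrable_const _), integral_const_mul, integral_const]
      simp
      rw [← hm]
      ring
    linarith
  calc ‖∫ ω, f ω ∂P‖ ^ 2 ≤ (∫ ω, ‖f ω‖ ∂P) ^ 2 := pow_le_pow_left₀ (norm_nonneg _) h1 2
    _ ≤ _ := h2

theorem two_main (k : ℝ) (hk : 0 < k) (Ω : Type) [MeasurableSpace Ω] (P : Measure Ω)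
    [IsProbabilityMeasure P] (f : Ω → ℝ → ℂ)
    (f0 : Ω → ℂ) (hf : Measurable (Function.uncurry f)) (hf0 : Measurable f0)
    (hb : ∀ ω t, ‖f ω t‖ ≤ 2)
    (Λ : ℝ) (hΛ : 0 ≤ Λ) (hm : ∀ ω, ∫ t : ℝ, Wk k Λ t * f ω t ∂cauchy = Wk k Λ I * f0 ω)
    (A : ℝ) (hA : 0 ≤ A) (hfA : ∀ t : ℝ, |t| ≤ k → ∫ ω, ‖f ω t‖ ^ 2 ∂P ≤ A) :
    Real.exp (2 * Λ * (k / (k + 1))) * ∫ ω, ‖f0 ω‖ ^ 2 ∂P ≤
      Real.exp (2 * Λ) * A + 4 * Real.exp Λ := by
  have hW := cont_Wk k Λ hk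
  have hmeas : Measurable (fun p : Ω × ℝ => Wk k Λ p.2 * f p.1 p.2) :=
    (hW.measurable.comp measurable_snd).mul hf
  have hbd : ∀ ω (t : ℝ), ‖Wk k Λ t * f ω t‖ ≤ Real.exp Λ * 2 := by
    intro ω t
    rw [norm_mul]
    exact mul_le_mul (norm_Wk_le k Λ t hk hΛ) (hb ω t) (norm_nonneg _) (Real.exp_nonneg _)
  have hb0 : ∀ ω, ‖Wk k Λ I * f0 ω‖ ≤ Real.exp Λ * 2 := by
    intro ω
    rw [← hm ω]
    refine (norm_integral_le_integral_norm _).trans ?_
    have h1 : ∫ t : ℝ, ‖Wk k Λ t * f ω t‖ ∂cauchy ≤ ∫ t : ℝ, Real.exp Λ * 2 ∂cauchy := by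
      refine integral_mono_of_nonneg (ae_of_all _ fun t => norm_nonneg _) (integrable_const _)
        (ae_of_all _ fun t => hbd ω t)
    refine h1.trans ?_
    simp
  -- pointwise
  have h1 : ∀ ω, ‖Wk k Λ I * f0 ω‖ ^ 2 ≤ ∫ t : ℝ, ‖Wk k Λ t * f ω t‖ ^ 2 ∂cauchy := by
    intro ω
    rw [← hm ω]
    refine sq_int_le cauchy (fun t : ℝ => Wk k Λ t * f ω t) ?_ (Real.exp Λ * 2) (hbd ω)
    exact (hmeas.comp measurable_prodMk_left).aestronglyMeasurable
  have hi : Integrable (fun p : Ω × ℝ => ‖Wk k Λ p.2 * f p.1 p.2‖ ^ 2) (P.prod cauchy) := by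
    refine Integrable.of_bound (C := (Real.exp Λ * 2) ^ 2) (hmeas.norm.pow_const 2).aestronglyMeasurable
      (ae_of_all _ fun p => ?_)
    rw [Real.norm_eq_abs, abs_of_nonneg (by positivity)]
    exact pow_le_pow_left₀ (norm_nonneg _) (hbd _ _) 2
  have h2 : ∫ ω, ‖Wk k Λ I * f0 ω‖ ^ 2 ∂P ≤ ∫ ω, ∫ t : ℝ, ‖Wk k Λ t * f ω t‖ ^ 2 ∂cauchy ∂P := by
    refine integral_mono ?_ hi.integral_prod_left h1
    refine Integrable.of_bound (C := (Real.exp Λ * 2) ^ 2)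
      ((hf0.const_mul _).norm.pow_const 2).aestronglyMeasurable (ae_of_all _ fun ω => ?_)
    rw [Real.norm_eq_abs, abs_of_nonneg (by positivity)]
    exact pow_le_pow_left₀ (norm_nonneg _) (hb0 ω) 2
  have h3 : ∫ ω, ∫ t : ℝ, ‖Wk k Λ t * f ω t‖ ^ 2 ∂cauchy ∂P =
      ∫ t : ℝ, ∫ ω, ‖Wk k Λ t * f ω t‖ ^ 2 ∂P ∂cauchy := integral_integral_swap hi
  have h4 : ∀ t : ℝ, ∫ ω, ‖Wk k Λ t * f ω t‖ ^ 2 ∂P ≤
      Real.exp (2 * Λ) * A + 4 * Real.exp Λ := by
    intro t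
    have e : ∀ ω, ‖Wk k Λ t * f ω t‖ ^ 2 = ‖Wk k Λ t‖ ^ 2 * ‖f ω t‖ ^ 2 := fun ω => by
      rw [norm_mul, mul_pow]
    simp only [e]
    rw [integral_const_mul]
    have hn : 0 ≤ ∫ ω, ‖f ω t‖ ^ 2 ∂P := integral_nonneg fun ω => by positivity
    by_cases ht : |t| ≤ k
    · have e1 : ‖Wk k Λ t‖ ^ 2 ≤ Real.exp (2 * Λ) := by
        have := pow_le_pow_left₀ (norm_nonneg _) (norm_Wk_le k Λ t hk hΛ) 2
        rwa [← Real.exp_nat_mul] at this
      have e2 := mul_le_mul e1 (hfA t ht) hn (Real.exp_nonneg _)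
      have e3 := Real.exp_pos Λ
      linarith
    · rw [not_le] at ht
      have e1 : ‖Wk k Λ t‖ ^ 2 ≤ Real.exp Λ := by
        have := pow_le_pow_left₀ (norm_nonneg _) (norm_Wk_le2 k Λ t hk hΛ ht) 2
        rw [← Real.exp_nat_mul] at this
        have e4 : ((2 : ℕ) : ℝ) * (Λ / 2) = Λ := by push_cast; ring
        rwa [e4] at this
      have e2 : ∫ ω, ‖f ω t‖ ^ 2 ∂P ≤ 4 := by
        have : ∫ ω, ‖f ω t‖ ^ 2 ∂P ≤ ∫ ω, (4 : ℝ) ∂P := by
          refine integral_mono_of_nonneg (ae_of_all _ fun ω => by positivity) (integrable_const _)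
            (ae_of_all _ fun ω => ?_)
          have := pow_le_pow_left₀ (norm_nonneg _) (hb ω t) 2
          simp only
          linarith
        simpa using this
      have e3 := mul_le_mul e1 e2 hn (Real.exp_nonneg _)
      have e5 := mul_nonneg (Real.exp_nonneg (2 * Λ)) hA
      linarith
  have h5 : ∫ t : ℝ, ∫ ω, ‖Wk k Λ t * f ω t‖ ^ 2 ∂P ∂cauchy ≤
      Real.exp (2 * Λ) * A + 4 * Real.exp Λ := by
    have : ∫ t : ℝ, ∫ ω, ‖Wk k Λ t * f ω t‖ ^ 2 ∂P ∂cauchy ≤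
        ∫ t : ℝ, (Real.exp (2 * Λ) * A + 4 * Real.exp Λ) ∂cauchy :=
      integral_mono_of_nonneg (ae_of_all _ fun t => integral_nonneg fun ω => by positivity)
        (integrable_const _) (ae_of_all _ h4)
    simpa using this
  have h6 : ∫ ω, ‖Wk k Λ I * f0 ω‖ ^ 2 ∂P =
      Real.exp (2 * Λ * (k / (k + 1))) * ∫ ω, ‖f0 ω‖ ^ 2 ∂P := by
    have e : ∀ ω, ‖Wk k Λ I * f0 ω‖ ^ 2 = Real.exp (2 * Λ * (k / (k + 1))) * ‖f0 ω‖ ^ 2 := by
      intro ω
      rw [norm_mul, mul_pow, norm_Wk_I k Λ hk, ← Real.exp_nat_mul]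
      congr 2
      push_cast
      ring
    simp only [e]
    rw [integral_const_mul]
  rw [← h6]
  linarith

theorem stTwo : StTwo := by
  intro γ hγ0 hγ1
  set k : ℝ := 2 / (1 - γ) with hkdef
  have hg : 0 < 1 - γ := by linarith
  have hk : 0 < k := by positivity
  have hk2 : 2 < k := by
    rw [hkdef, lt_div_iff₀ hg]
    linarith
  refine ⟨k, k, hk, hk, ?_⟩
  intro Ω _ P _ f f0 hf hf0 hb hm A hA hfA
  have main := fun Λ hΛ => two_main k hk Ω P f f0 hf hf0 hb Λ hΛ (hm Λ hΛ) A hA hfA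
  set Z := ∫ ω, ‖f0 ω‖ ^ 2 ∂P with hZ
  have hZ0 : 0 ≤ Z := integral_nonneg fun ω => by positivity
  -- the exponent
  have ha : (1 + γ) / 2 ≤ k / (k + 1) := by
    rw [le_div_iff₀ (by linarith)]
    have : k * (1 - γ) = 2 := by rw [hkdef]; field_simp
    nlinarith
  have main2 : ∀ Λ : ℝ, 0 ≤ Λ → Z ≤ Real.exp (Λ * (1 - γ)) * A + 4 * Real.exp (-(Λ * γ)) := by
    intro Λ hΛ
    have h1 := main Λ hΛ
    have h2 : Real.exp (Λ * (1 + γ)) ≤ Real.exp (2 * Λ * (k / (k + 1))) := by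
      refine Real.exp_le_exp.2 ?_
      nlinarith
    have h3 : Real.exp (Λ * (1 + γ)) * Z ≤ Real.exp (2 * Λ) * A + 4 * Real.exp Λ :=
      (mul_le_mul_of_nonneg_right h2 hZ0).trans h1
    have h4 : Real.exp (-(Λ * (1 + γ))) * (Real.exp (Λ * (1 + γ)) * Z) = Z := by
      rw [← mul_assoc, ← Real.exp_add]
      simp
    have h5 := mul_le_mul_of_nonneg_left h3 (Real.exp_nonneg (-(Λ * (1 + γ))))
    rw [h4] at h5
    have h6 : Real.exp (-(Λ * (1 + γ))) * (Real.exp (2 * Λ) * A + 4 * Real.exp Λ) =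
        Real.exp (Λ * (1 - γ)) * A + 4 * Real.exp (-(Λ * γ)) := by
      have e1 : Real.exp (Λ * (1 - γ)) = Real.exp (-(Λ * (1 + γ))) * Real.exp (2 * Λ) := by
        rw [← Real.exp_add]
        congr 1
        ring
      have e2 : Real.exp (-(Λ * γ)) = Real.exp (-(Λ * (1 + γ))) * Real.exp Λ := by
        rw [← Real.exp_add]
        congr 1
        ring
      rw [e1, e2]
      ring
    linarith
  rcases hA.eq_or_lt with hA0 | hApos
  · -- A = 0
    have hlim : Filter.Tendsto (fun Λ : ℝ => 4 * Real.exp (-(Λ * γ))) Filter.atTop (𝓝 (4 * 0)) := by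
      refine Filter.Tendsto.const_mul 4 ?_
      refine Real.tendsto_exp_neg_atTop_nhds_zero.comp ?_
      exact Filter.tendsto_id.atTop_mul_const hγ0
    have h1 : Z ≤ 4 * 0 := by
      refine ge_of_tendsto hlim ?_
      filter_upwards [Filter.eventually_ge_atTop 0] with Λ hΛ
      have := main2 Λ hΛ
      rw [← hA0] at this
      linarith
    have h2 : 0 ≤ 5 * A ^ γ := by positivity
    linarith
  · rcases le_or_gt 1 A with h1 | h1
    · have e := main2 0 le_rfl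
      have h4 : Z ≤ 4 := by
        -- from the trivial bound
        have hm0 := hm 0 le_rfl
        have hb0 : ∀ ω, ‖f0 ω‖ ≤ 2 := by
          intro ω
          have h5 := hm0 ω
          have h6 : ∀ z : ℂ, Wk k 0 z = 1 := by
            intro z
            simp [Wk]
          simp only [h6, one_mul] at h5
          rw [← h5]
          refine (norm_integral_le_integral_norm _).trans ?_
          have h7 : ∫ t : ℝ, ‖f ω t‖ ∂cauchy ≤ ∫ t : ℝ, (2 : ℝ) ∂cauchy :=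
            integral_mono_of_nonneg (ae_of_all _ fun t => norm_nonneg _) (integrable_const _)
              (ae_of_all _ fun t => hb ω t)
          simpa using h7
        have : Z ≤ ∫ ω, (4 : ℝ) ∂P := by
          refine integral_mono_of_nonneg (ae_of_all _ fun ω => by positivity) (integrable_const _)
            (ae_of_all _ fun ω => ?_)
          have := pow_le_pow_left₀ (norm_nonneg _) (hb0 ω) 2
          simp only
          linarith
        simpa using this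
      have h5 : 1 ≤ A ^ γ := Real.one_le_rpow h1 hγ0.le
      linarith
    · -- 0 < A < 1: choose Λ = - log A
      have hlog : Real.log A < 0 := Real.log_neg hApos h1
      have h2 := main2 (-Real.log A) (by linarith)
      have e1 : Real.exp (-Real.log A * (1 - γ)) * A = A ^ γ := by
        rw [Real.rpow_def_of_pos hApos]
        nth_rewrite 2 [← Real.exp_log hApos]
        rw [← Real.exp_add]
        congr 1
        ring
      have e2 : Real.exp (-(-Real.log A * γ)) = A ^ γ := by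
        rw [Real.rpow_def_of_pos hApos]
        congr 1
        ring
      rw [e1, e2] at h2
      linarith

end Pool.Agent.L0h56.SL
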