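import Pool.Agent.L0h56.SL.Fin
import Pool.Agent.L0h56.SL.HP
import Pool.Agent.L0h56.SL.Two
import Pool.Agent.L0h56.SL.Sum
import Pool.Agent.L0h56.SL.CV
import Pool.Agent.L0h56.SL.Inf
import Pool.Agent.L0h56.SL.Perc
import Pool.Agent.L0h56.SL.Slab
import Pool.Agent.L0h56.CS.Ave

/-!
Assembly: purely singular spectrum for graphs of growth `< 4/3`.
-/

set_option autoImplicit false
set_option linter.unusedSectionVars false
set_option linter.unusedVariables false

open scoped BigOperators Topology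
open Complex MeasureTheory Pool.Agent.L0h56.CS

namespace Pool.Agent.L0h56.SL.A

theorem fin_all : StFin := stFin (M.stSlab stHP stTwo stCV) stPerc stSum

section

variable {ι : Type} [Fintype ι] [DecidableEq ι] {K : ι → ι → ℝ} (hK : ∀ x y, K x y = K y x)
  {V : ι → ℝ} {c η : ℝ} (hη : 0 < η) (hc : 0 < c) (a : ι)

/-- the diagonal without lead -/
noncomputable def pq (V : ι → ℝ) (η : ℝ) (ω : ι → ℝ) (x : ι) : ℂ := ((V x + ω x : ℝ) : ℂ) - η * I

theorem pq_neg {η : ℝ} (hη : 0 < η) (V ω : ι → ℝ) (x : ι) : (pq V η ω x).im < 0 := by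
  unfold pq
  simp
  exact hη

include hK hη

/-- removing the lead -/
theorem lead' (ω : ι → ℝ) :
    (Gr K (pq V η ω) a a).im ≤ (1 + ‖Gr K (pq V η ω) a a‖) ^ 2 *
      ((1 - ‖Rc K V c η a ω 0‖ ^ 2) / 4) := by
  have hd : dd V c η a ω 0 = Function.update (pq V η ω) a (pq V η ω a + -I) := by
    funext x
    unfold dd pq
    by_cases hx : x = a
    · subst hx
      rw [Function.update_self, if_pos rfl, Pi.zero_apply]
      push_cast
      ring
    · rw [Function.update_of_ne hx, if_neg hx, Pi.zero_apply]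
      push_cast
      ring
  have hn := pq_neg hη V ω
  have ht : (pq V η ω a + -I).im < 0 := by
    have := hn a
    simp only [add_im, neg_im, I_im]
    linarith
  have hne := one_add_ne hK hn a (-I) ht
  set F := Gr K (pq V η ω) a a with hF
  have hg : Gc K V c η a ω 0 a * (1 + -I * F) = F := by
    unfold Gc
    rw [hd, Gr_update hK hn a (-I) ht, sub_mul, div_mul_cancel₀ _ hne]
    ring
  have hR : Rc K V c η a ω 0 * (1 - I * F) = 1 + I * F := by
    unfold Rc
    linear_combination (2 * I) * hg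
  have h1 : ‖Rc K V c η a ω 0‖ ^ 2 * ‖1 - I * F‖ ^ 2 = ‖1 + I * F‖ ^ 2 := by
    rw [← mul_pow, ← norm_mul, hR]
  have h2 : ‖1 - I * F‖ ^ 2 - ‖1 + I * F‖ ^ 2 = 4 * F.im := by
    rw [← Complex.normSq_eq_norm_sq, ← Complex.normSq_eq_norm_sq, Complex.normSq_apply,
      Complex.normSq_apply]
    simp only [add_re, one_re, mul_re, I_re, I_im, add_im, one_im, mul_im, sub_re, sub_im]
    ring
  have h3 : F.im = ‖1 - I * F‖ ^ 2 * ((1 - ‖Rc K V c η a ω 0‖ ^ 2) / 4) := by linarith
  rw [h3]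
  refine mul_le_mul_of_nonneg_right ?_ ?_
  · refine pow_le_pow_left₀ (norm_nonneg _) ?_ 2
    refine (norm_sub_le _ _).trans ?_
    rw [norm_one, norm_mul, Complex.norm_I, one_mul]
  · have := M.Rc_le hK (V := V) (c := c) hη a (τ := 0) (fun x => by simp) ω
    have : ‖Rc K V c η a ω 0‖ ^ 2 ≤ 1 := pow_le_one₀ (norm_nonneg _) this
    linarith

theorem meas_pq : Measurable fun ω : ι → ℝ => Gr K (pq V η ω) a a := by
  refine measurable_Gr K (fun z => ?_) a a
  unfold pq
  exact (Complex.measurable_ofReal.comp (measurable_const.add (measurable_pi_apply z))).sub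
    measurable_const

include hc

/-- the Green function is rarely large -/
theorem tail' {κ : ℝ} (hκ : 0 < κ) :
    ∫ ω, (if κ < ‖Gr K (pq V η ω) a a‖ then (1 : ℝ) else 0) ∂(PI c ι) ≤ 1 / (c * κ) := by
  have hP := unif_prob c hc
  have h := tail_Frω hK (e := fun x : ι => x) (fun _ _ h => h) (V0 := V) (γ := fun _ => 0)
    (fun _ => le_rfl) hη a hc hκ (fun _ => 0)
  have e : ∀ ω : ι → ℝ, Fr K (fun x : ι => x) (Vw (fun x : ι => x) V ω) (fun _ => 0) η (fun _ => 0) a =
      Gr K (pq V η ω) a a := by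
    intro ω
    unfold Fr
    congr 1
    funext x
    unfold q0 Vw pq
    simp
  simp only [e] at h
  rw [PU, Measure.infinitePi_eq_pi] at h
  exact h

theorem min_le' {κ : ℝ} (hκ : 0 < κ) :
    ∫ ω, min (Gr K (pq V η ω) a a).im 1 ∂(PI c ι) ≤ 1 / (c * κ) + (1 + κ) ^ 2 *
      ((∫ ω, (1 - ‖Rc K V c η a ω 0‖ ^ 2) ∂(PI c ι)) / 4) := by
  have hP := M.PI_prob (ι := ι) hc
  have h2 := tail' hK (V := V) hη hc a hκ
  have hm := meas_pq hK (V := V) hη a
  have him : ∀ ω : ι → ℝ, 0 ≤ (Gr K (pq V η ω) a a).im := fun ω => by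
    rw [im_Gr hK (pq_neg hη V ω) a]
    refine Finset.sum_nonneg fun x _ => mul_nonneg ?_ (sq_nonneg _)
    have := pq_neg hη V ω x
    linarith
  have hR1 : ∀ ω : ι → ℝ, ‖Rc K V c η a ω 0‖ ^ 2 ≤ 1 := fun ω =>
    pow_le_one₀ (norm_nonneg _) (M.Rc_le hK (V := V) (c := c) hη a (τ := 0) (fun x => by simp) ω)
  have hpt : ∀ ω : ι → ℝ, min (Gr K (pq V η ω) a a).im 1 ≤
      (if κ < ‖Gr K (pq V η ω) a a‖ then (1 : ℝ) else 0) +
        (1 + κ) ^ 2 * ((1 - ‖Rc K V c η a ω 0‖ ^ 2) / 4) := by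
    intro ω
    have h3 := lead' hK (V := V) (c := c) hη a ω
    have h6 : 0 ≤ (1 - ‖Rc K V c η a ω 0‖ ^ 2) / 4 := by linarith [hR1 ω]
    split_ifs with hc1
    · have : 0 ≤ (1 + κ) ^ 2 * ((1 - ‖Rc K V c η a ω 0‖ ^ 2) / 4) := by positivity
      have := min_le_right (Gr K (pq V η ω) a a).im 1
      linarith
    · rw [zero_add]
      refine (min_le_left _ _).trans (h3.trans ?_)
      refine mul_le_mul_of_nonneg_right ?_ h6
      refine pow_le_pow_left₀ (by positivity) ?_ 2
      have := not_lt.1 hc1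
      linarith
  have hi1 : Integrable (fun ω : ι → ℝ =>
      (if κ < ‖Gr K (pq V η ω) a a‖ then (1 : ℝ) else 0)) (PI c ι) :=
    Integrable.of_bound (C := 1) (Measurable.ite (measurableSet_lt measurable_const
      hm.norm) measurable_const measurable_const).aestronglyMeasurable
      (Filter.Eventually.of_forall fun z => by split_ifs <;> simp)
  have hi2 : Integrable (fun ω : ι → ℝ => (1 - ‖Rc K V c η a ω 0‖ ^ 2)) (PI c ι) :=
    (integrable_const _).sub (M.bdi (M := 1) ((M.meas_Rc1 K V c η a 0).norm.pow_const 2)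
      (fun _ => sq_nonneg _) hR1)
  have hi3 : Integrable (fun ω : ι → ℝ => min (Gr K (pq V η ω) a a).im 1) (PI c ι) :=
    M.bdi (M := 1) ((Complex.measurable_im.comp hm).min measurable_const)
      (fun ω => le_min (him ω) zero_le_one) fun ω => min_le_right _ _
  have h7 := integral_mono hi3 (hi1.add ((hi2.div_const 4).const_mul ((1 + κ) ^ 2))) hpt
  refine h7.trans ?_
  simp only [Pi.add_apply]
  rw [integral_add hi1 ((hi2.div_const 4).const_mul _), integral_const_mul, integral_div]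
  linarith

end

/-- the truncated imaginary part of the Green function is small -/
theorem fin_min (c : ℝ) (hc : 0 < c) (D : ℕ) (hD : 1 ≤ D) (α : ℝ) (hα : α < 4 / 3) (C : ℝ)
    (hC : 0 < C) (ε : ℝ) (hε : 0 < ε) : ∃ η0 : ℝ, 0 < η0 ∧ ∀ η : ℝ, 0 < η → η ≤ η0 →
    ∀ (ι : Type) [Fintype ι] [DecidableEq ι] (K : ι → ι → ℝ), (∀ x y, K x y = K y x) →
    (∀ x y, |K x y| ≤ 1) → (∀ x, (Finset.univ.filter fun y => K x y ≠ 0).card ≤ D) →
    ∀ (V : ι → ℝ) (a : ι) (lay : ι → ℕ), lay a = 0 → (∀ x y, K x y ≠ 0 → lay y ≤ lay x + 1) →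
    (∀ r : ℕ, ((Finset.univ.filter fun x => lay x ≤ r).card : ℝ) ≤ C * ((r : ℝ) + 1) ^ α) →
    ∫ ω, min (Gr K (fun x => ((V x + ω x : ℝ) : ℂ) - η * I) a a).im 1 ∂(PI c ι) ≤ ε := by
  set κ : ℝ := 2 / (c * ε) with hκdef
  have hκ : 0 < κ := by positivity
  obtain ⟨η0, hη0, h⟩ := fin_all c hc D hD α hα C hC (2 * ε / (1 + κ) ^ 2) (by positivity)
  refine ⟨η0, hη0, ?_⟩
  intro η hη hη1 ι _ _ K hK hK1 hKD V a lay ha hlay hcard
  have h1 := h η hη hη1 ι K hK hK1 hKD V a lay ha hlay hcard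
  have h2 := min_le' hK (V := V) hη hc a hκ
  have e1 : 1 / (c * κ) = ε / 2 := by
    rw [hκdef]
    field_simp
  have h3 : (1 + κ) ^ 2 * ((∫ ω, (1 - ‖Rc K V c η a ω 0‖ ^ 2) ∂(PI c ι)) / 4) ≤ ε / 2 := by
    have hp : 0 < (1 + κ) ^ 2 := by positivity
    calc _ ≤ (1 + κ) ^ 2 * (2 * ε / (1 + κ) ^ 2 / 4) := by gcongr
      _ = ε / 2 := by field_simp; ring
  have h4 : ∫ ω, min (Gr K (pq V η ω) a a).im 1 ∂(PI c ι) ≤ ε := by linarith
  exact h4

section

variable {X : Type} [DecidableEq X] [Countable X]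

/-- **The main theorem on graphs.** -/
theorem graph_main (G : SimpleGraph X) (K : X → X → ℝ) (nb : X → Finset X)
    (hK : ∀ x y, K x y = K y x) (hK1 : ∀ x y, |K x y| ≤ 1)
    (hnb : ∀ x y, K x y ≠ 0 → y ∈ nb x) (hG : ∀ x y, K x y ≠ 0 → x = y ∨ G.Adj x y)
    (D : ℕ) (hD : ∀ x, (nb x).card ≤ D) (α : ℝ) (hα : α < 4 / 3)
    (hgr : ∀ a : X, ∃ C : ℝ, ∀ (r : ℕ) (F : Finset X),
      (∀ x ∈ F, G.Reachable a x ∧ G.dist a x ≤ r) → (F.card : ℝ) ≤ C * ((r : ℝ) + 1) ^ α)
    (c : ℝ) (hc : 0 < c) (W : X → ℝ) :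
    ∀ᵐ ω ∂(Measure.infinitePi fun _ : X => unif c), ∀ g : X → ℂ, SqS g →
      (∃ m : Measure ℝ, IsSpec (HK K nb fun x => W x + ω x) g m) ∧
      ∀ m : Measure ℝ, IsSpec (HK K nb fun x => W x + ω x) g m → m ⟂ₘ volume := by
  have hDs : ∀ x, ∑ y ∈ nb x, |K x y| ≤ (D : ℝ) := by
    intro x
    calc ∑ y ∈ nb x, |K x y| ≤ ∑ y ∈ nb x, (1 : ℝ) := Finset.sum_le_sum fun y _ => hK1 x y
      _ = (nb x).card := by simp
      _ ≤ D := by exact_mod_cast hD x
  -- the criterion
  have hcrit : ∀ (A : Finset X) (ε : ℝ), 0 < ε → ∃ η0 : ℝ, 0 < η0 ∧ ∀ η : ℝ, 0 < η → η ≤ η0 →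
    ∀ (F : Finset X) (E : ℝ) (a : X) (ha : a ∈ F), a ∈ A →
      ∫ ω, min (Gr (fun x y : F => K x y) (fun x : F => ((W x + ω x - E : ℝ) : ℂ) - η * I)
        ⟨a, ha⟩ ⟨a, ha⟩).im 1 ∂(PI c F) ≤ ε := by
    intro A ε hε
    choose Cf hCf using hgr
    set C : ℝ := 1 + ∑ a ∈ A, |Cf a| with hC
    have hC0 : 0 < C := by
      have : 0 ≤ ∑ a ∈ A, |Cf a| := Finset.sum_nonneg fun _ _ => abs_nonneg _
      linarith
    have hCa : ∀ a ∈ A, Cf a ≤ C := by
      intro a ha
      have h1 : |Cf a| ≤ ∑ a ∈ A, |Cf a| :=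
        Finset.single_le_sum (f := fun a => |Cf a|) (fun _ _ => abs_nonneg _) ha
      have := le_abs_self (Cf a)
      linarith
    set α' : ℝ := max α 1 with hα'
    have hα1 : 1 ≤ α' := le_max_right _ _
    obtain ⟨η0, hη0, h⟩ := fin_min c hc (max D 1) (le_max_right _ _) α'
      (max_lt hα (by norm_num)) C hC0 ε hε
    refine ⟨η0, hη0, ?_⟩
    intro η hη hη1 F E a ha haA
    -- a far layer
    obtain ⟨N, hN⟩ : ∃ N : ℕ, (F.card : ℝ) ≤ C * ((N : ℝ) + 1) := by
      obtain ⟨N, hN⟩ := exists_nat_ge ((F.card : ℝ) / C)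
      refine ⟨N, ?_⟩
      rw [div_le_iff₀ hC0] at hN
      nlinarith
    classical
    set lay : F → ℕ := fun x => if G.Reachable a x then G.dist a x else N with hlay
    have hpow : ∀ r : ℕ, (1 : ℝ) ≤ (r : ℝ) + 1 := fun r => by
      have : (0 : ℝ) ≤ r := Nat.cast_nonneg r
      linarith
    have h1 := h η hη hη1 F (fun x y : F => K x y) (fun x y => hK x y) (fun x y => hK1 x y)
      (fun x => ?_) (fun x => W x - E) ⟨a, ha⟩ lay ?_ ?_ ?_
    · have e : ∀ (ω : F → ℝ) (x : F), (W x - E + ω x : ℝ) = W x + ω x - E := fun ω x => by ring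
      simp only [e] at h1
      exact h1
    · refine le_trans ?_ ((hD x).trans (le_max_left D 1))
      refine Finset.card_le_card_of_injOn (fun y : F => (y : X)) (fun y hy => ?_)
        (Subtype.val_injective.injOn)
      exact hnb x y (Finset.mem_filter.1 hy).2
    · rw [hlay]
      dsimp only
      rw [if_pos (SimpleGraph.Reachable.refl a), SimpleGraph.dist_self]
    · intro x y hxy
      rw [hlay]
      dsimp only
      rcases hG x y hxy with h2 | h2
      · rw [h2]
        exact Nat.le_succ _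
      · by_cases hx : G.Reachable a x
        · have hy : G.Reachable a y := hx.trans h2.reachable
          rw [if_pos hx, if_pos hy]
          obtain ⟨w, hw⟩ := hx.exists_walk_length_eq_dist
          have h3 := SimpleGraph.dist_le (w.concat h2)
          rw [SimpleGraph.Walk.length_concat, hw] at h3
          exact h3
        · have hy : ¬ G.Reachable a y := fun hy => hx (hy.trans h2.symm.reachable)
          rw [if_neg hx, if_neg hy]
          exact Nat.le_succ _
    · intro r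
      by_cases hr : N ≤ r
      · calc ((Finset.univ.filter fun x : F => lay x ≤ r).card : ℝ) ≤ F.card := by
              have : (Finset.univ.filter fun x : F => lay x ≤ r).card ≤ F.card := by
                refine (Finset.card_le_univ _).trans ?_
                rw [Fintype.card_coe]
              exact_mod_cast this
          _ ≤ C * ((N : ℝ) + 1) := hN
          _ ≤ C * ((r : ℝ) + 1) := by
              have : (N : ℝ) ≤ r := by exact_mod_cast hr
              nlinarith
          _ = C * ((r : ℝ) + 1) ^ (1 : ℝ) := by rw [Real.rpow_one]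
          _ ≤ C * ((r : ℝ) + 1) ^ α' :=
              mul_le_mul_of_nonneg_left (Real.rpow_le_rpow_of_exponent_le (hpow r) hα1) hC0.le
      · have h2 := hCf a r ((Finset.univ.filter fun x : F => lay x ≤ r).map
          (Function.Embedding.subtype _)) (fun x hx => by
            rw [Finset.mem_map] at hx
            obtain ⟨y, hy, rfl⟩ := hx
            have h3 := (Finset.mem_filter.1 hy).2
            rw [hlay] at h3
            dsimp only at h3
            by_cases hy2 : G.Reachable a y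
            · rw [if_pos hy2] at h3
              exact ⟨hy2, h3⟩
            · rw [if_neg hy2] at h3
              exact absurd h3 hr)
        rw [Finset.card_map] at h2
        calc _ ≤ Cf a * ((r : ℝ) + 1) ^ α := h2
          _ ≤ C * ((r : ℝ) + 1) ^ α := mul_le_mul_of_nonneg_right (hCa a haA)
              (Real.rpow_nonneg (by have := hpow r; linarith) _)
          _ ≤ C * ((r : ℝ) + 1) ^ α' :=
              mul_le_mul_of_nonneg_left (Real.rpow_le_rpow_of_exponent_le (hpow r) (le_max_left _ _)) hC0.le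
  have hs := stSing X K nb hK hnb D hDs c hc W hcrit
  filter_upwards [hs] with ω hω g hg
  exact ⟨stEx X K nb hK hnb D hDs (fun x => W x + ω x) g hg, hω g hg⟩

end

end Pool.Agent.L0h56.SL.A
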