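import Pool.Agent.L0h56.SL.Env

/-!
Attenuation by an absorbing slab.
-/

set_option autoImplicit false
set_option linter.unusedSectionVars false
set_option linter.unusedVariables false

open scoped BigOperators
open Complex MeasureTheory Pool.Agent.L0h56.CS

namespace Pool.Agent.L0h56.SL.M

/-- decay of tails -/
theorem rec_out {t : ℕ → ℝ} {ρ D : ℝ} (hD : 0 < D) (hρ : 0 < ρ) (h0 : ∀ k, 0 ≤ t k)
    (hm : ∀ k, t (k + 1) ≤ t k) (h : ∀ k, ρ * t (k + 1) ≤ D / 2 * (t k - t (k + 2))) (j : ℕ) :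
    t (2 * j) ≤ ((1 + 2 * ρ / D) ^ j)⁻¹ * t 0 := by
  have hb : 0 < 1 + 2 * ρ / D := by positivity
  induction j with
  | zero => simp
  | succ j ih =>
    have h1 := h (2 * j)
    have h2 : t (2 * j + 2) ≤ t (2 * j + 1) := hm _
    have h3 : (1 + 2 * ρ / D) * t (2 * j + 2) ≤ t (2 * j) := by
      have h4 : ρ * t (2 * j + 2) ≤ D / 2 * (t (2 * j) - t (2 * j + 2)) :=
        (mul_le_mul_of_nonneg_left h2 hρ.le).trans h1
      have h5 : 2 * ρ / D * t (2 * j + 2) ≤ t (2 * j) - t (2 * j + 2) := by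
        rw [div_mul_eq_mul_div, div_le_iff₀ hD]
        linarith
      linarith
    have e : 2 * (j + 1) = 2 * j + 2 := by ring
    rw [e, pow_succ, mul_inv, mul_right_comm]
    rw [← div_eq_mul_inv, le_div_iff₀ hb, mul_comm]
    exact h3.trans ih

/-- growth of sums -/
theorem rec_in {s : ℕ → ℝ} {ρ D : ℝ} (hD : 0 < D) (hρ : 0 < ρ) (h0 : ∀ k, 0 ≤ s k)
    (hm : ∀ k, s k ≤ s (k + 1)) {m : ℕ}
    (h : ∀ k, k + 1 ≤ m → ρ * s (k + 1) ≤ D / 2 * (s (k + 2) - s k)) (i j : ℕ) (hij : i + 2 * j ≤ m + 1) :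
    s i ≤ ((1 + 2 * ρ / D) ^ j)⁻¹ * s (i + 2 * j) := by
  have hb : 0 < 1 + 2 * ρ / D := by positivity
  induction j with
  | zero => simp
  | succ j ih =>
    have ih' := ih (by omega)
    have h1 := h (i + 2 * j) (by omega)
    have h2 : s (i + 2 * j) ≤ s (i + 2 * j + 1) := hm _
    have h3 : (1 + 2 * ρ / D) * s (i + 2 * j) ≤ s (i + 2 * j + 2) := by
      have h4 : ρ * s (i + 2 * j) ≤ D / 2 * (s (i + 2 * j + 2) - s (i + 2 * j)) :=
        (mul_le_mul_of_nonneg_left h2 hρ.le).trans h1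
      have h5 : 2 * ρ / D * s (i + 2 * j) ≤ s (i + 2 * j + 2) - s (i + 2 * j) := by
        rw [div_mul_eq_mul_div, div_le_iff₀ hD]
        linarith
      linarith
    have e : i + 2 * (j + 1) = i + 2 * j + 2 := by ring
    rw [e, pow_succ, mul_inv]
    have hpow : 0 < ((1 + 2 * ρ / D) ^ j)⁻¹ := by positivity
    calc s i ≤ ((1 + 2 * ρ / D) ^ j)⁻¹ * s (i + 2 * j) := ih'
      _ ≤ ((1 + 2 * ρ / D) ^ j)⁻¹ * ((1 + 2 * ρ / D)⁻¹ * s (i + 2 * j + 2)) := by
          refine mul_le_mul_of_nonneg_left ?_ hpow.le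
          rw [← div_eq_inv_mul, le_div_iff₀ hb, mul_comm]
          exact h3
      _ = _ := by ring

variable {ι : Type} [Fintype ι] [DecidableEq ι]

/-- the flux through a cut -/
theorem cut_le {K : ι → ι → ℝ} (hK : ∀ x y, K x y = K y x) {D : ℝ} (hD : ∀ x, ∑ y, |K x y| ≤ D)
    (v : ι → ℂ) (U A A' : Finset ι) (h : ∀ x ∈ U, ∀ y, y ∉ U → K x y ≠ 0 → x ∈ A ∧ y ∈ A') :
    ∑ x ∈ U, ∑ y ∈ Uᶜ, ((starRingEnd ℂ) (v x) * ((K x y : ℂ) * v y)).im ≤
      D / 2 * (∑ x ∈ A, ‖v x‖ ^ 2 + ∑ y ∈ A', ‖v y‖ ^ 2) := by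
  set w : ι → ℝ := fun x => if x ∈ A then ‖v x‖ ^ 2 else 0 with hw
  set w' : ι → ℝ := fun x => if x ∈ A' then ‖v x‖ ^ 2 else 0 with hw'
  have hw0 : ∀ x, 0 ≤ w x := fun x => by simp only [hw]; split_ifs <;> positivity
  have hw0' : ∀ x, 0 ≤ w' x := fun x => by simp only [hw']; split_ifs <;> positivity
  have hpt : ∀ x ∈ U, ∀ y ∈ Uᶜ, ((starRingEnd ℂ) (v x) * ((K x y : ℂ) * v y)).im ≤
      |K x y| * ((w x + w' y) / 2) := by
    intro x hx y hy
    by_cases hk : K x y = 0
    · simp [hk]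
    · obtain ⟨h1, h2⟩ := h x hx y (Finset.mem_compl.1 hy) hk
      have e1 : w x = ‖v x‖ ^ 2 := if_pos h1
      have e2 : w' y = ‖v y‖ ^ 2 := if_pos h2
      rw [e1, e2]
      have h3 := Complex.abs_im_le_norm ((starRingEnd ℂ) (v x) * ((K x y : ℂ) * v y))
      rw [norm_mul, norm_mul, Complex.norm_conj, Complex.norm_real, Real.norm_eq_abs] at h3
      have h4 : ‖v x‖ * (|K x y| * ‖v y‖) ≤ |K x y| * ((‖v x‖ ^ 2 + ‖v y‖ ^ 2) / 2) := by
        have := mul_nonneg (abs_nonneg (K x y)) (sq_nonneg (‖v x‖ - ‖v y‖))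
        nlinarith
      exact (le_abs_self _).trans (h3.trans h4)
  have hD' : ∀ y, ∑ x, |K x y| ≤ D := fun y => by
    refine le_trans (le_of_eq (Finset.sum_congr rfl fun x _ => by rw [hK x y])) (hD y)
  calc ∑ x ∈ U, ∑ y ∈ Uᶜ, ((starRingEnd ℂ) (v x) * ((K x y : ℂ) * v y)).im
      ≤ ∑ x ∈ U, ∑ y ∈ Uᶜ, |K x y| * ((w x + w' y) / 2) :=
        Finset.sum_le_sum fun x hx => Finset.sum_le_sum fun y hy => hpt x hx y hy
    _ ≤ ∑ x, ∑ y, |K x y| * ((w x + w' y) / 2) := by
        have hnn : ∀ x y, 0 ≤ |K x y| * ((w x + w' y) / 2) := fun x y =>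
          mul_nonneg (abs_nonneg _) (by have := hw0 x; have := hw0' y; linarith)
        refine (Finset.sum_le_sum fun x _ => Finset.sum_le_sum_of_subset_of_nonneg
          (Finset.subset_univ _) fun y _ _ => hnn x y).trans ?_
        exact Finset.sum_le_sum_of_subset_of_nonneg (Finset.subset_univ _) fun x _ _ =>
          Finset.sum_nonneg fun y _ => hnn x y
    _ = (∑ x, (∑ y, |K x y|) * w x + ∑ y, (∑ x, |K x y|) * w' y) / 2 := by
        have e1 : ∀ x y, |K x y| * ((w x + w' y) / 2) = |K x y| * w x / 2 + |K x y| * w' y / 2 := by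
          intro x y; ring
        simp only [e1, Finset.sum_add_distrib, Finset.sum_mul]
        rw [Finset.sum_comm (f := fun x y => |K x y| * w' y / 2), add_div, Finset.sum_div,
          Finset.sum_div]
        simp only [Finset.sum_div]
    _ ≤ (∑ x, D * w x + ∑ y, D * w' y) / 2 := by
        have h1 : ∑ x, (∑ y, |K x y|) * w x ≤ ∑ x, D * w x :=
          Finset.sum_le_sum fun x _ => mul_le_mul_of_nonneg_right (hD x) (hw0 x)
        have h2 : ∑ y, (∑ x, |K x y|) * w' y ≤ ∑ y, D * w' y :=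
          Finset.sum_le_sum fun y _ => mul_le_mul_of_nonneg_right (hD' y) (hw0' y)
        linarith
    _ = _ := by
        rw [← Finset.mul_sum, ← Finset.mul_sum]
        simp only [hw, hw', Finset.sum_ite_mem, Finset.univ_inter]
        ring

section

variable {K : ι → ι → ℝ} (hK : ∀ x y, K x y = K y x) {D : ℝ} (hD0 : 0 < D)
  (hD : ∀ x, ∑ y, |K x y| ≤ D) {gd : Finset ι} {d : ι → ℕ}
  (hd : ∀ x y, K x y ≠ 0 → d x ≠ d y → d y ≤ d x + 1 ∧ x ∈ gd) {p : ι → ℂ}
  (hp : ∀ x, (p x).im < 0) {ρ : ℝ} (hρ : 0 < ρ) (hgd : ∀ x ∈ gd, ρ ≤ -(p x).im)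

include hK hD0 hD hd hp hρ hgd

/-- decay of a wave emitted at level `0` -/
theorem att_out {v f : ι → ℂ} (h : (MM K p).mulVec v = f) (hf : ∀ x, 0 < d x → f x = 0) {T : ℝ}
    (hT : ∑ x ∈ gd, ρ * ‖v x‖ ^ 2 ≤ T) (k : ℕ) :
    ∑ x ∈ Finset.univ.filter (fun x => k < d x), (-(p x).im) * ‖v x‖ ^ 2 ≤
      D / (2 * ρ) * ((1 + 2 * ρ / D) ^ (k / 2))⁻¹ * T := by
  set t : ℕ → ℝ := fun k => ∑ x ∈ gd.filter (fun x => k ≤ d x), ‖v x‖ ^ 2 with ht
  have ht0 : ∀ k, 0 ≤ t k := fun k => Finset.sum_nonneg fun _ _ => sq_nonneg _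
  have htm : ∀ k, t (k + 1) ≤ t k := fun k => by
    refine Finset.sum_le_sum_of_subset_of_nonneg (fun x hx => ?_) fun _ _ _ => sq_nonneg _
    rw [Finset.mem_filter] at hx ⊢
    exact ⟨hx.1, by omega⟩
  have htm' : ∀ i j, i ≤ j → t j ≤ t i := fun i j hij => antitone_nat_of_succ_le htm hij
  -- flux
  have hflux : ∀ k, ∑ x ∈ Finset.univ.filter (fun x => k < d x), (-(p x).im) * ‖v x‖ ^ 2 ≤
      D / 2 * (t k - t (k + 2)) := by
    intro k
    have h1 := flux hK p v f h (Finset.univ.filter (fun x => k < d x))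
    have h2 : ∑ x ∈ Finset.univ.filter (fun x => k < d x), ((starRingEnd ℂ) (v x) * f x).im = 0 := by
      refine Finset.sum_eq_zero fun x hx => ?_
      rw [hf x (by have := (Finset.mem_filter.1 hx).2; omega)]
      simp
    rw [h2, sub_zero] at h1
    rw [h1]
    refine (cut_le hK hD v _ (gd.filter fun x => d x = k + 1) (gd.filter fun x => d x = k)
      (fun x hx y hy hk => ?_)).trans (le_of_eq ?_)
    · rw [Finset.mem_filter] at hx hy
      simp only [Finset.mem_univ, true_and, not_lt] at hx hy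
      have hne : d x ≠ d y := by omega
      have h3 := hd x y hk hne
      have h4 := hd y x (by rw [hK y x]; exact hk) (Ne.symm hne)
      rw [Finset.mem_filter, Finset.mem_filter]
      exact ⟨⟨h3.2, by omega⟩, h4.2, by omega⟩
    · congr 1
      have e1 : t k = t (k + 2) + (∑ x ∈ gd.filter (fun x => d x = k + 1), ‖v x‖ ^ 2 +
          ∑ x ∈ gd.filter (fun x => d x = k), ‖v x‖ ^ 2) := by
        simp only [ht]
        rw [← Finset.sum_union, ← Finset.sum_union]
        · refine Finset.sum_congr ?_ fun _ _ => rfl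
          ext x
          simp only [Finset.mem_filter, Finset.mem_union]
          constructor
          · rintro ⟨h1, h2⟩
            rcases Nat.lt_or_ge (d x) (k + 2) with h3 | h3
            · right
              rcases Nat.lt_or_ge (d x) (k + 1) with h4 | h4
              · right; exact ⟨h1, by omega⟩
              · left; exact ⟨h1, by omega⟩
            · left; exact ⟨h1, h3⟩
          · rintro (⟨h1, h2⟩ | ⟨h1, h2⟩ | ⟨h1, h2⟩)
            · exact ⟨h1, by omega⟩
            · exact ⟨h1, by omega⟩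
            · exact ⟨h1, by omega⟩
        · rw [Finset.disjoint_left]
          intro x hx hx'
          simp only [Finset.mem_filter, Finset.mem_union] at hx hx'
          omega
        · rw [Finset.disjoint_left]
          intro x hx hx'
          simp only [Finset.mem_filter] at hx hx'
          omega
      linarith
  have hlow : ∀ k, ρ * t (k + 1) ≤
      ∑ x ∈ Finset.univ.filter (fun x => k < d x), (-(p x).im) * ‖v x‖ ^ 2 := by
    intro k
    simp only [ht, Finset.mul_sum]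
    calc ∑ x ∈ gd.filter (fun x => k + 1 ≤ d x), ρ * ‖v x‖ ^ 2
        ≤ ∑ x ∈ gd.filter (fun x => k + 1 ≤ d x), (-(p x).im) * ‖v x‖ ^ 2 :=
          Finset.sum_le_sum fun x hx => mul_le_mul_of_nonneg_right
            (hgd x (Finset.mem_filter.1 hx).1) (sq_nonneg _)
      _ ≤ _ := by
          refine Finset.sum_le_sum_of_subset_of_nonneg (fun x hx => ?_) fun x _ _ =>
            mul_nonneg (neg_nonneg.2 (hp x).le) (sq_nonneg _)
          rw [Finset.mem_filter] at hx ⊢
          exact ⟨Finset.mem_univ _, by omega⟩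
  have hrec := rec_out hD0 hρ ht0 htm (fun k => (hlow k).trans (hflux k)) (k / 2)
  have hT' : ρ * t 0 ≤ T := by
    refine le_trans (le_of_eq ?_) hT
    simp only [ht, Finset.mul_sum]
    refine Finset.sum_congr ?_ fun _ _ => rfl
    ext x; simp
  have h1 : t k ≤ ((1 + 2 * ρ / D) ^ (k / 2))⁻¹ * t 0 := (htm' (2 * (k / 2)) k (by omega)).trans hrec
  have hpow : 0 < ((1 + 2 * ρ / D) ^ (k / 2))⁻¹ := by positivity
  calc ∑ x ∈ Finset.univ.filter (fun x => k < d x), (-(p x).im) * ‖v x‖ ^ 2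
      ≤ D / 2 * (t k - t (k + 2)) := hflux k
    _ ≤ D / 2 * t k := by
        have := ht0 (k + 2)
        have : 0 < D / 2 := by positivity
        nlinarith
    _ ≤ D / 2 * (((1 + 2 * ρ / D) ^ (k / 2))⁻¹ * (T / ρ)) := by
        refine mul_le_mul_of_nonneg_left (h1.trans (mul_le_mul_of_nonneg_left ?_ hpow.le)) (by positivity)
        rw [le_div_iff₀ hρ, mul_comm]
        exact hT'
    _ = _ := by field_simp

/-- a difference of two waves which solves the homogeneous equation up to level `m` is small inside -/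
theorem att_in {v f : ι → ℂ} (h : (MM K p).mulVec v = f) {m : ℕ} (hf : ∀ x, d x ≤ m → f x = 0) {T : ℝ}
    (hT : ∑ x ∈ gd, ρ * ‖v x‖ ^ 2 ≤ T) (k j : ℕ) (hkj : k + 1 + 2 * j ≤ m + 1) :
    ∑ x ∈ Finset.univ.filter (fun x => d x ≤ k), (-(p x).im) * ‖v x‖ ^ 2 ≤
      D / (2 * ρ) * ((1 + 2 * ρ / D) ^ j)⁻¹ * T := by
  set s : ℕ → ℝ := fun k => ∑ x ∈ gd.filter (fun x => d x ≤ k), ‖v x‖ ^ 2 with hs
  have hs0 : ∀ k, 0 ≤ s k := fun k => Finset.sum_nonneg fun _ _ => sq_nonneg _
  have hsm : ∀ k, s k ≤ s (k + 1) := fun k => by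
    refine Finset.sum_le_sum_of_subset_of_nonneg (fun x hx => ?_) fun _ _ _ => sq_nonneg _
    rw [Finset.mem_filter] at hx ⊢
    exact ⟨hx.1, by omega⟩
  have hflux0 : ∀ k, k ≤ m → ∑ x ∈ Finset.univ.filter (fun x => d x ≤ k), (-(p x).im) * ‖v x‖ ^ 2 ≤
      D / 2 * (∑ x ∈ gd.filter (fun x => d x = k), ‖v x‖ ^ 2 +
        ∑ x ∈ gd.filter (fun x => d x = k + 1), ‖v x‖ ^ 2) := by
    intro k hk
    have h1 := flux hK p v f h (Finset.univ.filter (fun x => d x ≤ k))
    have h2 : ∑ x ∈ Finset.univ.filter (fun x => d x ≤ k), ((starRingEnd ℂ) (v x) * f x).im = 0 := by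
      refine Finset.sum_eq_zero fun x hx => ?_
      rw [hf x (by have := (Finset.mem_filter.1 hx).2; omega)]
      simp
    rw [h2, sub_zero] at h1
    rw [h1]
    refine cut_le hK hD v _ _ _ (fun x hx y hy hk => ?_)
    rw [Finset.mem_filter] at hx hy
    simp only [Finset.mem_univ, true_and, not_le] at hx hy
    have hne : d x ≠ d y := by omega
    have h3 := hd x y hk hne
    have h4 := hd y x (by rw [hK y x]; exact hk) (Ne.symm hne)
    rw [Finset.mem_filter, Finset.mem_filter]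
    exact ⟨⟨h3.2, by omega⟩, h4.2, by omega⟩
  have hlow : ∀ k, ρ * s k ≤
      ∑ x ∈ Finset.univ.filter (fun x => d x ≤ k), (-(p x).im) * ‖v x‖ ^ 2 := by
    intro k
    simp only [hs, Finset.mul_sum]
    calc ∑ x ∈ gd.filter (fun x => d x ≤ k), ρ * ‖v x‖ ^ 2
        ≤ ∑ x ∈ gd.filter (fun x => d x ≤ k), (-(p x).im) * ‖v x‖ ^ 2 :=
          Finset.sum_le_sum fun x hx => mul_le_mul_of_nonneg_right
            (hgd x (Finset.mem_filter.1 hx).1) (sq_nonneg _)
      _ ≤ _ := by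
          refine Finset.sum_le_sum_of_subset_of_nonneg (fun x hx => ?_) fun x _ _ =>
            mul_nonneg (neg_nonneg.2 (hp x).le) (sq_nonneg _)
          rw [Finset.mem_filter] at hx ⊢
          exact ⟨Finset.mem_univ _, hx.2⟩
  have hsplit : ∀ k, s (k + 2) = s k + (∑ x ∈ gd.filter (fun x => d x = k + 1), ‖v x‖ ^ 2 +
          ∑ x ∈ gd.filter (fun x => d x = k + 2), ‖v x‖ ^ 2) := by
    intro k
    simp only [hs]
    rw [← Finset.sum_union, ← Finset.sum_union]
    · refine Finset.sum_congr ?_ fun _ _ => rfl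
      ext x
      simp only [Finset.mem_filter, Finset.mem_union]
      constructor
      · rintro ⟨h1, h2⟩
        rcases Nat.lt_or_ge k (d x) with h3 | h3
        · right
          rcases Nat.lt_or_ge (k + 1) (d x) with h4 | h4
          · right; exact ⟨h1, by omega⟩
          · left; exact ⟨h1, by omega⟩
        · left; exact ⟨h1, h3⟩
      · rintro (⟨h1, h2⟩ | ⟨h1, h2⟩ | ⟨h1, h2⟩)
        · exact ⟨h1, by omega⟩
        · exact ⟨h1, by omega⟩
        · exact ⟨h1, by omega⟩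
    · rw [Finset.disjoint_left]
      intro x hx hx'
      simp only [Finset.mem_filter, Finset.mem_union] at hx hx'
      omega
    · rw [Finset.disjoint_left]
      intro x hx hx'
      simp only [Finset.mem_filter] at hx hx'
      omega
  have hrec := rec_in hD0 hρ hs0 hsm (m := m) (fun k hk => by
    have h1 := hflux0 (k + 1) hk
    have h2 := hlow (k + 1)
    have h3 := hsplit k
    have h4 : s (k + 2) - s k = ∑ x ∈ gd.filter (fun x => d x = k + 1), ‖v x‖ ^ 2 +
          ∑ x ∈ gd.filter (fun x => d x = k + 1 + 1), ‖v x‖ ^ 2 := by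
      rw [h3]; ring
    rw [h4]
    exact h2.trans h1) (k + 1) j hkj
  have hle : ∀ i, s i ≤ T / ρ := by
    intro i
    rw [le_div_iff₀ hρ, mul_comm]
    refine le_trans ?_ hT
    simp only [hs, Finset.mul_sum]
    exact Finset.sum_le_sum_of_subset_of_nonneg (Finset.filter_subset _ _) fun _ _ _ => by positivity
  have hpow : 0 < ((1 + 2 * ρ / D) ^ j)⁻¹ := by positivity
  calc ∑ x ∈ Finset.univ.filter (fun x => d x ≤ k), (-(p x).im) * ‖v x‖ ^ 2
      ≤ D / 2 * (∑ x ∈ gd.filter (fun x => d x = k), ‖v x‖ ^ 2 +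
        ∑ x ∈ gd.filter (fun x => d x = k + 1), ‖v x‖ ^ 2) := hflux0 k (by omega)
    _ ≤ D / 2 * s (k + 1) := by
        refine mul_le_mul_of_nonneg_left ?_ (by positivity)
        simp only [hs]
        rw [← Finset.sum_union]
        · refine Finset.sum_le_sum_of_subset_of_nonneg (fun x hx => ?_) fun _ _ _ => sq_nonneg _
          simp only [Finset.mem_filter, Finset.mem_union] at hx ⊢
          rcases hx with hx | hx
          · exact ⟨hx.1, by omega⟩
          · exact ⟨hx.1, by omega⟩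
        · rw [Finset.disjoint_left]
          intro x hx hx'
          simp only [Finset.mem_filter] at hx hx'
          omega
    _ ≤ D / 2 * (((1 + 2 * ρ / D) ^ j)⁻¹ * (T / ρ)) := by
        refine mul_le_mul_of_nonneg_left (hrec.trans (mul_le_mul_of_nonneg_left (hle _) hpow.le))
          (by positivity)
    _ = _ := by field_simp

end

end Pool.Agent.L0h56.SL.M
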