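import Pool.Agent.L0h56.CS.Uni

/-!
Definitions for the Anderson model with uniformly distributed potentials on graphs of slow growth.
-/

set_option autoImplicit false
set_option linter.unusedSectionVars false
set_option linter.unusedVariables false

open scoped BigOperators
open Complex MeasureTheory Pool.Agent.L0h56.CS

namespace Pool.Agent.L0h56.SL

/-- the speed with which a potential value is moved -/
noncomputable def vf (c s : ℝ) : ℝ := max 0 (1 - (s / c) ^ 2)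

/-- independent uniform variables on `[-c, c]` -/
noncomputable abbrev PI (c : ℝ) (ι : Type) [Fintype ι] : Measure (ι → ℝ) :=
  Measure.pi fun _ : ι => unif c

/-- take `ω` on `B` and `ω'` outside -/
def mix {ι : Type} [DecidableEq ι] (B : Finset ι) (ω ω' : ι → ℝ) (x : ι) : ℝ :=
  if x ∈ B then ω x else ω' x

/-- the weight of the two constants theorem -/
noncomputable def Wk (k Λ : ℝ) (z : ℂ) : ℂ := Complex.exp (((Λ * k : ℝ) : ℂ) / ((k : ℂ) - I * z))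

section

variable {ι : Type} [Fintype ι] [DecidableEq ι]

/-- the diagonal: background `V`, potential `ω`, complex displacement `τ` (with speed `vf`), absorption
`η` and a lead at `a` -/
noncomputable def dd (V : ι → ℝ) (c η : ℝ) (a : ι) (ω : ι → ℝ) (τ : ι → ℂ) (x : ι) : ℂ :=
  ((V x + ω x : ℝ) : ℂ) + τ x * (vf c (ω x) : ℂ) - η * I - (if x = a then I else 0)

/-- the column of the Green function -/
noncomputable def Gc (K : ι → ι → ℝ) (V : ι → ℝ) (c η : ℝ) (a : ι) (ω : ι → ℝ) (τ : ι → ℂ) (x : ι) : ℂ :=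
  Gr K (dd V c η a ω τ) x a

/-- the reflection amplitude -/
noncomputable def Rc (K : ι → ι → ℝ) (V : ι → ℝ) (c η : ℝ) (a : ι) (ω : ι → ℝ) (τ : ι → ℂ) : ℂ :=
  1 + 2 * I * Gc K V c η a ω τ a

/-- a level function for the slab `S` around `B`: `0` on `B`, `m + 1` outside `B ∪ S`, and it changes
(by at most one) only along edges between good points of `S` -/
structure IsLev (K : ι → ι → ℝ) (B S : Finset ι) (c v0 : ℝ) (ω : ι → ℝ) (m : ℕ) (d : ι → ℕ) : Prop where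
  inner : ∀ x ∈ B, d x = 0
  outer : ∀ x, x ∉ B → x ∉ S → d x = m + 1
  step : ∀ x y, K x y ≠ 0 → d x ≠ d y → d y ≤ d x + 1 ∧ x ∈ S ∧ v0 ≤ vf c (ω x)

/-- the variance of the slab `S` around `B` -/
noncomputable def Vs (K : ι → ι → ℝ) (V : ι → ℝ) (c η : ℝ) (a : ι) (B S : Finset ι) : ℝ :=
  ∫ ω₁, ∫ ω₂, ‖∫ ω₃, Rc K V c η a (mix B ω₁ (mix (B ∪ S) ω₂ ω₃)) 0 ∂(PI c ι) -
    ∫ ω', Rc K V c η a (mix B ω₁ ω') 0 ∂(PI c ι)‖ ^ 2 ∂(PI c ι) ∂(PI c ι)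

/-- attenuation -/
noncomputable def att (D L v0 : ℝ) (m : ℕ) : ℝ := D / (L * v0) * ((1 + 2 * (L * v0) / D) ^ (m / 4))⁻¹

end

/-! ### The modules -/

/-- **M1.** Mean value property in the upper half plane. -/
def StHP : Prop := ∀ f : ℂ → ℂ, DifferentiableOn ℂ f {z | 0 < z.im} →
  ContinuousOn f {z | 0 ≤ z.im} → ∀ M : ℝ, (∀ z : ℂ, 0 ≤ z.im → ‖f z‖ ≤ M) →
  ∫ t : ℝ, f (t : ℂ) ∂cauchy = f I

/-- **M2.** Two constants theorem (abstract form: only the mean value property of `f W` is used). -/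
def StTwo : Prop := ∀ γ : ℝ, 0 < γ → γ < 1 → ∃ k t0 : ℝ, 0 < k ∧ 0 < t0 ∧
  ∀ (Ω : Type) [MeasurableSpace Ω] (P : Measure Ω) [IsProbabilityMeasure P] (f : Ω → ℝ → ℂ)
    (f0 : Ω → ℂ), Measurable (Function.uncurry f) → Measurable f0 → (∀ ω t, ‖f ω t‖ ≤ 2) →
    (∀ Λ : ℝ, 0 ≤ Λ → ∀ ω, ∫ t : ℝ, Wk k Λ t * f ω t ∂cauchy = Wk k Λ I * f0 ω) →
    ∀ A : ℝ, 0 ≤ A → (∀ t : ℝ, |t| ≤ t0 → ∫ ω, ‖f ω t‖ ^ 2 ∂P ≤ A) →
    ∫ ω, ‖f0 ω‖ ^ 2 ∂P ≤ 5 * A ^ γ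

/-- **M3.** Moving uniform variables along the field `vf`. -/
def StCV : Prop := ∀ c : ℝ, 0 < c → ∀ q : ℕ, 2 ≤ q → ∃ C : ℝ, 0 < C ∧
  ∀ (ι : Type) [Fintype ι] (τ : ι → ℝ), (∀ x, |τ x| ≤ c / 4) → ∑ x, τ x ^ 2 ≤ 1 →
    ∀ g : (ι → ℝ) → ℝ, Measurable g → (∀ ω, 0 ≤ g ω) → (∀ ω, g ω ≤ 4) →
    ∫ ω, g (fun x => ω x + τ x * vf c (ω x)) ∂(PI c ι) ≤
      C * (∫ ω, g ω ∂(PI c ι)) ^ (1 - 1 / (q : ℝ))

/-- **M4.** Level functions exist with high probability. -/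
def StPerc : Prop := ∀ c : ℝ, 0 < c → ∀ D : ℕ, 1 ≤ D → ∃ v0 : ℝ, 0 < v0 ∧
  ∀ (ι : Type) [Fintype ι] [DecidableEq ι] (K : ι → ι → ℝ), (∀ x y, K x y = K y x) →
    (∀ x, (Finset.univ.filter fun y => K x y ≠ 0).card ≤ D) →
    ∀ lay : ι → ℕ, (∀ x y, K x y ≠ 0 → lay y ≤ lay x + 1) → ∀ r l k m : ℕ, (m + 2) * (k + 1) ≤ l →
    ∃ Bad : Set (ι → ℝ), MeasurableSet Bad ∧
      (PI c ι).real Bad ≤ ((Finset.univ.filter fun x => r < lay x ∧ lay x ≤ r + l).card : ℝ) *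
        (1 / 2) ^ k ∧
      ∀ ω, ω ∉ Bad → ∃ d : ι → ℕ, IsLev K (Finset.univ.filter fun x => lay x ≤ r)
        (Finset.univ.filter fun x => r < lay x ∧ lay x ≤ r + l) c v0 ω m d

/-- **M5.** Orthogonality of martingale increments. -/
def StSum : Prop := ∀ c : ℝ, 0 < c → ∀ (ι : Type) [Fintype ι] [DecidableEq ι] (f : (ι → ℝ) → ℂ),
  Measurable f → (∀ ω, ‖f ω‖ ≤ 1) → ∀ B : ℕ → Finset ι, Monotone B → ∀ n : ℕ,
    ∑ j ∈ Finset.range n, ∫ ω₁, ∫ ω₂, ‖∫ ω₃, f (mix (B j) ω₁ (mix (B (j + 1)) ω₂ ω₃)) ∂(PI c ι) -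
      ∫ ω', f (mix (B j) ω₁ ω') ∂(PI c ι)‖ ^ 2 ∂(PI c ι) ∂(PI c ι) ≤ 1

/-- **M6.** The slab inequality. -/
def StSlab : Prop := ∀ κ : ℝ, 0 < κ → κ < 1 → ∀ c : ℝ, 0 < c → ∃ M0 C : ℝ, 0 < M0 ∧ 0 < C ∧
  ∀ (ι : Type) [Fintype ι] [DecidableEq ι] (K : ι → ι → ℝ), (∀ x y, K x y = K y x) →
    ∀ D : ℝ, 0 < D → (∀ x, ∑ y, |K x y| ≤ D) → ∀ (V : ι → ℝ) (η : ℝ), 0 < η → ∀ (a : ι)
    (B S : Finset ι), Disjoint B S → a ∈ B → ∀ (n : ℕ), 1 ≤ n → S.card ≤ n → ∀ L : ℝ, 0 < L →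
    L ^ 2 * n ≤ M0 ^ 2 → ∀ v0 : ℝ, 0 < v0 → ∀ (m : ℕ) (Bad : Set (ι → ℝ)), MeasurableSet Bad →
    (∀ ω, ω ∉ Bad → ∃ d : ι → ℕ, IsLev K B S c v0 ω m d) →
    ∫ ω, (1 - ‖Rc K V c η a ω 0‖ ^ 2) ∂(PI c ι) ≤ C * Real.sqrt n * (Vs K V c η a B S) ^ (κ / 2) +
      8 * Real.sqrt (att D L v0 m) + 4 * att D L v0 m + 5 * (PI c ι).real Bad +
      4 * η * (Real.pi / c + 1) * (B.card + S.card)

/-- **M7.** The transmission probability is small, uniformly in the volume, for growth `< 4/3`. -/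
def StFin : Prop := ∀ c : ℝ, 0 < c → ∀ D : ℕ, 1 ≤ D → ∀ α : ℝ, α < 4 / 3 → ∀ C : ℝ, 0 < C →
  ∀ ε : ℝ, 0 < ε → ∃ η0 : ℝ, 0 < η0 ∧ ∀ η : ℝ, 0 < η → η ≤ η0 →
  ∀ (ι : Type) [Fintype ι] [DecidableEq ι] (K : ι → ι → ℝ), (∀ x y, K x y = K y x) →
    (∀ x y, |K x y| ≤ 1) → (∀ x, (Finset.univ.filter fun y => K x y ≠ 0).card ≤ D) →
    ∀ (V : ι → ℝ) (a : ι) (lay : ι → ℕ), lay a = 0 → (∀ x y, K x y ≠ 0 → lay y ≤ lay x + 1) →
    (∀ r : ℕ, ((Finset.univ.filter fun x => lay x ≤ r).card : ℝ) ≤ C * ((r : ℝ) + 1) ^ α) →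
    ∫ ω, (1 - ‖Rc K V c η a ω 0‖ ^ 2) ∂(PI c ι) ≤ ε

/-! ### The infinite volume -/

section

variable {X : Type} [DecidableEq X]

/-- the operator with kernel `K` (neighbours `nb`) and potential `v` -/
noncomputable def HK (K : X → X → ℝ) (nb : X → Finset X) (v : X → ℝ) (u : X → ℂ) (x : X) : ℂ :=
  ∑ y ∈ nb x, (K x y : ℂ) * u y + (v x : ℂ) * u x

/-- square summable functions -/
def SqS (u : X → ℂ) : Prop := Summable fun x => ‖u x‖ ^ 2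

/-- `m` is the spectral measure of `A` with respect to the vector `g` -/
def IsSpec (A : (X → ℂ) → X → ℂ) (g : X → ℂ) (m : Measure ℝ) : Prop :=
  IsFiniteMeasure m ∧ ∀ z : ℂ, z.im ≠ 0 → ∃ u : X → ℂ, SqS u ∧
    (∀ x, A u x - z * u x = g x) ∧
    ∫ t : ℝ, ((t : ℂ) - z)⁻¹ ∂m = ∑' x, (starRingEnd ℂ) (g x) * u x

end

/-- **M8.** Existence of spectral measures. -/
def StEx : Prop := ∀ (X : Type) [DecidableEq X] [Countable X] (K : X → X → ℝ) (nb : X → Finset X),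
  (∀ x y, K x y = K y x) → (∀ x y, K x y ≠ 0 → y ∈ nb x) → ∀ D : ℝ,
  (∀ x, ∑ y ∈ nb x, |K x y| ≤ D) → ∀ (v : X → ℝ) (g : X → ℂ), SqS g →
  ∃ m : Measure ℝ, IsSpec (HK K nb v) g m

/-- **M9.** The criterion for almost surely purely singular spectrum. -/
def StSing : Prop := ∀ (X : Type) [DecidableEq X] [Countable X] (K : X → X → ℝ)
  (nb : X → Finset X), (∀ x y, K x y = K y x) → (∀ x y, K x y ≠ 0 → y ∈ nb x) → ∀ D : ℝ,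
  (∀ x, ∑ y ∈ nb x, |K x y| ≤ D) → ∀ c : ℝ, 0 < c → ∀ W : X → ℝ,
  (∀ (A : Finset X) (ε : ℝ), 0 < ε → ∃ η0 : ℝ, 0 < η0 ∧ ∀ η : ℝ, 0 < η → η ≤ η0 →
    ∀ (F : Finset X) (E : ℝ) (a : X) (ha : a ∈ F), a ∈ A →
      ∫ ω, min (Gr (fun x y : F => K x y) (fun x : F => ((W x + ω x - E : ℝ) : ℂ) - η * I)
        ⟨a, ha⟩ ⟨a, ha⟩).im 1 ∂(PI c F) ≤ ε) →
  ∀ᵐ ω ∂(Measure.infinitePi fun _ : X => unif c), ∀ g : X → ℂ, SqS g → ∀ m : Measure ℝ,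
    IsSpec (HK K nb fun x => W x + ω x) g m → m ⟂ₘ volume

end Pool.Agent.L0h56.SL
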