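import Pool.Agent.L0h56.SL.Def

/-!
One environment: conservation of probability, bounds of the Green function.
-/

set_option autoImplicit false
set_option linter.unusedSectionVars false
set_option linter.unusedVariables false

open scoped BigOperators
open Complex MeasureTheory Pool.Agent.L0h56.CS

namespace Pool.Agent.L0h56.SL.M

theorem vf_nonneg (c s : ℝ) : 0 ≤ vf c s := le_max_left _ _

theorem vf_le_one (c s : ℝ) : vf c s ≤ 1 := by
  unfold vf
  refine max_le zero_le_one ?_
  have := sq_nonneg (s / c)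
  linarith

theorem vf_cont (c : ℝ) : Continuous (vf c) := by
  unfold vf
  fun_prop

variable {ι : Type} [Fintype ι] [DecidableEq ι]

theorem im_dd (V : ι → ℝ) (c η : ℝ) (a : ι) (ω : ι → ℝ) (τ : ι → ℂ) (x : ι) :
    -(dd V c η a ω τ x).im = (-(τ x).im * vf c (ω x) + η) + (if x = a then 1 else 0) := by
  unfold dd
  split_ifs <;> simp <;> ring

theorem abs_pos' {c η : ℝ} (hη : 0 < η) {ω : ι → ℝ} {τ : ι → ℂ} (hτ : ∀ x, (τ x).im ≤ 0) (x : ι) :
    0 < -(τ x).im * vf c (ω x) + η := by
  have h1 := hτ x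
  have h2 := vf_nonneg c (ω x)
  have : 0 ≤ -(τ x).im * vf c (ω x) := mul_nonneg (by linarith) h2
  linarith

theorem dd_neg (V : ι → ℝ) {c η : ℝ} (hη : 0 < η) (a : ι) (ω : ι → ℝ) {τ : ι → ℂ}
    (hτ : ∀ x, (τ x).im ≤ 0) (x : ι) : (dd V c η a ω τ x).im < 0 := by
  have h1 := im_dd V c η a ω τ x
  have h2 := abs_pos' (c := c) hη (ω := ω) hτ x
  have h3 : (0 : ℝ) ≤ (if x = a then 1 else 0) := by split_ifs <;> norm_num
  linarith

section

variable {K : ι → ι → ℝ} (hK : ∀ x y, K x y = K y x) {V : ι → ℝ} {c η : ℝ} (hη : 0 < η) (a : ι)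
  {τ : ι → ℂ} (hτ : ∀ x, (τ x).im ≤ 0)

include hK hη hτ

/-- conservation of probability -/
theorem cons (ω : ι → ℝ) :
    1 - ‖Rc K V c η a ω τ‖ ^ 2 =
      4 * ∑ x, (-(τ x).im * vf c (ω x) + η) * ‖Gc K V c η a ω τ x‖ ^ 2 := by
  have h1 : ‖Rc K V c η a ω τ‖ ^ 2 = 1 - 4 * (Gc K V c η a ω τ a).im +
      4 * ‖Gc K V c η a ω τ a‖ ^ 2 := by
    unfold Rc
    rw [← Complex.normSq_eq_norm_sq, ← Complex.normSq_eq_norm_sq, Complex.normSq_apply,
      Complex.normSq_apply]
    simp only [add_re, one_re, mul_re, I_re, I_im, add_im, one_im, mul_im,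
      re_ofNat, im_ofNat]
    ring
  have h2 : (Gc K V c η a ω τ a).im =
      ∑ x, (-(τ x).im * vf c (ω x) + η) * ‖Gc K V c η a ω τ x‖ ^ 2 +
      ‖Gc K V c η a ω τ a‖ ^ 2 := by
    unfold Gc
    rw [im_Gr hK (dd_neg V hη a ω hτ) a]
    simp only [im_dd, add_mul, Finset.sum_add_distrib, ite_mul, one_mul, zero_mul,
      Finset.sum_ite_eq', Finset.mem_univ, if_true]
  rw [h1, h2]
  ring

theorem Rc_le (ω : ι → ℝ) : ‖Rc K V c η a ω τ‖ ≤ 1 := by
  have h1 := cons hK (V := V) (c := c) hη a hτ ω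
  have h2 : 0 ≤ ∑ x, (-(τ x).im * vf c (ω x) + η) * ‖Gc K V c η a ω τ x‖ ^ 2 :=
    Finset.sum_nonneg fun x _ => mul_nonneg (abs_pos' hη hτ x).le (sq_nonneg _)
  have h3 : ‖Rc K V c η a ω τ‖ ^ 2 ≤ 1 := by linarith
  nlinarith [norm_nonneg (Rc K V c η a ω τ)]

theorem sum_le (ω : ι → ℝ) :
    ∑ x, (-(τ x).im * vf c (ω x) + η) * ‖Gc K V c η a ω τ x‖ ^ 2 ≤ 1 / 4 := by
  have h1 := cons hK (V := V) (c := c) hη a hτ ω
  nlinarith [sq_nonneg ‖Rc K V c η a ω τ‖]

theorem eta_sq_le (ω : ι → ℝ) (x : ι) : ‖Gc K V c η a ω τ x‖ ^ 2 ≤ 1 / (4 * η) := by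
  have h1 := sum_le hK (V := V) (c := c) hη a hτ ω
  have h2 : (-(τ x).im * vf c (ω x) + η) * ‖Gc K V c η a ω τ x‖ ^ 2 ≤ 1 / 4 :=
    (Finset.single_le_sum (f := fun x => (-(τ x).im * vf c (ω x) + η) * ‖Gc K V c η a ω τ x‖ ^ 2)
      (fun x _ => mul_nonneg (abs_pos' hη hτ x).le (sq_nonneg _)) (Finset.mem_univ x)).trans h1
  have h3 : η * ‖Gc K V c η a ω τ x‖ ^ 2 ≤ 1 / 4 := by
    refine le_trans (mul_le_mul_of_nonneg_right ?_ (sq_nonneg _)) h2
    have : 0 ≤ -(τ x).im * vf c (ω x) := mul_nonneg (by have := hτ x; linarith) (vf_nonneg _ _)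
    linarith
  rw [le_div_iff₀ (by positivity)]
  linarith

end

/-- measurability -/
theorem meas_dd {Ω : Type*} [MeasurableSpace Ω] (V : ι → ℝ) (c η : ℝ) (a : ι) {w : Ω → ι → ℝ}
    (hw : ∀ x, Measurable fun s => w s x) {t : Ω → ι → ℂ} (ht : ∀ x, Measurable fun s => t s x)
    (x : ι) : Measurable fun s => dd V c η a (w s) (t s) x := by
  unfold dd
  refine Measurable.sub (Measurable.sub (Measurable.add ?_ ?_) measurable_const) measurable_const
  · exact Complex.measurable_ofReal.comp (measurable_const.add (hw x))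
  · exact (ht x).mul (Complex.measurable_ofReal.comp ((vf_cont c).measurable.comp (hw x)))

theorem meas_Gc {Ω : Type*} [MeasurableSpace Ω] (K : ι → ι → ℝ) (V : ι → ℝ) (c η : ℝ) (a : ι)
    {w : Ω → ι → ℝ} (hw : ∀ x, Measurable fun s => w s x) {t : Ω → ι → ℂ}
    (ht : ∀ x, Measurable fun s => t s x) (x : ι) :
    Measurable fun s => Gc K V c η a (w s) (t s) x := by
  unfold Gc
  exact measurable_Gr K (fun x => meas_dd V c η a hw ht x) x a

theorem meas_Rc {Ω : Type*} [MeasurableSpace Ω] (K : ι → ι → ℝ) (V : ι → ℝ) (c η : ℝ) (a : ι)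
    {w : Ω → ι → ℝ} (hw : ∀ x, Measurable fun s => w s x) {t : Ω → ι → ℂ}
    (ht : ∀ x, Measurable fun s => t s x) :
    Measurable fun s => Rc K V c η a (w s) (t s) := by
  unfold Rc
  exact measurable_const.add (measurable_const.mul (meas_Gc K V c η a hw ht a))

theorem meas_Gc1 (K : ι → ι → ℝ) (V : ι → ℝ) (c η : ℝ) (a : ι) (τ : ι → ℂ) (x : ι) :
    Measurable fun ω : ι → ℝ => Gc K V c η a ω τ x :=
  meas_Gc (Ω := ι → ℝ) K V c η a (w := fun ω => ω) (fun y => measurable_pi_apply y)
    (t := fun _ => τ) (fun y => measurable_const) x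

theorem meas_Rc1 (K : ι → ι → ℝ) (V : ι → ℝ) (c η : ℝ) (a : ι) (τ : ι → ℂ) :
    Measurable fun ω : ι → ℝ => Rc K V c η a ω τ :=
  meas_Rc (Ω := ι → ℝ) K V c η a (w := fun ω => ω) (fun y => measurable_pi_apply y)
    (t := fun _ => τ) (fun y => measurable_const)

/-- a change of one diagonal entry by a complex number in the lower half plane -/
theorem sh_colC {K : ι → ι → ℝ} (hK : ∀ x y, K x y = K y x) {p : ι → ℂ}
    (hp : ∀ x, (p x).im < 0) (x a : ι) {t : ℂ} (ht : (p x + t).im < 0) :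
    Gr K (Function.update p x (p x + t)) x a = Gr K p x a / (1 + t * Gr K p x x) := by
  have hne := one_add_ne hK hp x t ht
  rw [Gr_update hK hp x t ht x a, eq_div_iff hne, sub_mul, div_mul_cancel₀ _ hne]
  ring

theorem col_mono {K : ι → ι → ℝ} (hK : ∀ x y, K x y = K y x) {p : ι → ℂ}
    (hp : ∀ x, (p x).im < 0) (x a : ι) (s y : ℝ) (hy : 0 ≤ y) :
    ‖Gr K (Function.update p x (p x + ((s : ℂ) - y * I))) x a‖ ≤
      ‖Gr K (Function.update p x (p x + (s : ℂ))) x a‖ := by
  obtain ⟨u, v, hv, hs⟩ := pole hK hp x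
  have ht : (p x + ((s : ℂ) - y * I)).im < 0 := by
    have := hp x
    simp
    linarith
  have hg0 : Gr K p x x ≠ 0 := Gr_ne hK hp x
  have e1 : 1 + ((s : ℂ) - y * I) * Gr K p x x = Gr K p x x * (((s - u : ℝ) : ℂ) - ((v + y : ℝ) : ℂ) * I) := by
    have := hs s
    push_cast at this ⊢
    linear_combination this
  rw [sh_colC hK hp x a ht, sh_colC hK hp x a (sh_neg hp x s), norm_div, norm_div, e1, hs s,
    norm_mul, norm_mul]
  have h1 : ‖((s - u : ℝ) : ℂ) - (v : ℝ) * I‖ ≤ ‖((s - u : ℝ) : ℂ) - ((v + y : ℝ) : ℂ) * I‖ := by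
    have n1 := norm_den u v s
    have n2 := norm_den u (v + y) s
    refine le_of_sq_le_sq ?_ (norm_nonneg _)
    rw [n1, n2]
    nlinarith
  have h2 : 0 < ‖((s - u : ℝ) : ℂ) - (v : ℝ) * I‖ := by
    rw [norm_pos_iff]
    intro h0
    have := congrArg Complex.im h0
    simp at this
    exact hv.ne' this
  have h3 : 0 < ‖Gr K p x x‖ := norm_pos_iff.2 hg0
  exact div_le_div_of_nonneg_left (norm_nonneg _) (by positivity) (mul_le_mul_of_nonneg_left h1 h3.le)

theorem resampleI {E : Type*} [NormedAddCommGroup E] [NormedSpace ℝ E] [MeasurableSpace E]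
    [BorelSpace E] [SecondCountableTopology E] {c : ℝ} (hc : 0 < c) {f : (ι → ℝ) → E}
    (hf : Measurable f) {M : ℝ} (hM : ∀ ξ, ‖f ξ‖ ≤ M) (j : ι) :
    ∫ ξ, f ξ ∂(PI c ι) = ∫ ξ, ∫ s, f (Function.update ξ j s) ∂(unif c) ∂(PI c ι) := by
  have := unif_prob c hc
  have h := resample (unif c) hf hM j
  rw [Measure.infinitePi_eq_pi] at h
  exact h

/-- mean of the square of the Green function for purely imaginary displacements -/
theorem mean_G {K : ι → ι → ℝ} (hK : ∀ x y, K x y = K y x) (V : ι → ℝ) {c η : ℝ} (hc : 0 < c)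
    (hη : 0 < η) (a : ι) {τ : ι → ℂ} (hτ : ∀ x, (τ x).im ≤ 0) (hτr : ∀ x, (τ x).re = 0) (x : ι)
    : ∫ ω, ‖Gc K V c η a ω τ x‖ ^ 2 ∂(PI c ι) ≤ Real.pi / c := by
  have hP := unif_prob c hc
  have hm : Measurable fun ω : ι → ℝ => ‖Gc K V c η a ω τ x‖ ^ 2 :=
    (meas_Gc1 K V c η a τ x).norm.pow_const 2
  rw [resampleI hc hm (M := 1 / (4 * η)) (fun ξ => by
    rw [Real.norm_of_nonneg (sq_nonneg _)]
    exact eta_sq_le hK hη a hτ ξ x) x]
  have hin : ∀ ω : ι → ℝ, ∫ s, ‖Gc K V c η a (Function.update ω x s) τ x‖ ^ 2 ∂(unif c) ≤ Real.pi / c := by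
    intro ω
    set p : ι → ℂ := dd V c η a (Function.update ω x 0) (Function.update τ x 0) with hp
    have hτ0 : ∀ y, (Function.update τ x 0 y).im ≤ 0 := by
      intro y
      by_cases hy : y = x
      · subst hy; simp
      · rw [Function.update_of_ne hy]; exact hτ y
    have hpn : ∀ y, (p y).im < 0 := dd_neg V hη a _ hτ0
    have e : ∀ s, dd V c η a (Function.update ω x s) τ =
        Function.update p x (p x + ((s : ℂ) - (-(τ x).im * vf c s : ℝ) * I)) := by
      intro s
      funext y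
      by_cases hy : y = x
      · subst hy
        rw [Function.update_self, hp]
        unfold dd
        rw [Function.update_self, Function.update_self, Function.update_self]
        have h1 : τ y = ((τ y).im : ℂ) * I := by
          apply Complex.ext <;> simp [hτr y]
        rw [h1]
        simp only [mul_im, ofReal_re, ofReal_im, I_re, I_im, zero_mul, mul_one, add_zero, mul_zero,
          zero_add]
        push_cast
        ring
      · rw [Function.update_of_ne hy, hp]
        unfold dd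
        rw [Function.update_of_ne hy, Function.update_of_ne hy, Function.update_of_ne hy]
    have h1 : ∀ s : ℝ, ‖Gr K (Function.update p x (p x + (s : ℂ))) a a‖ ≤ 1 := by
      intro s
      have hq : ∀ y, (Function.update p x (p x + (s : ℂ)) y).im < 0 := by
        intro y
        by_cases hy : y = x
        · subst hy; rw [Function.update_self]; exact sh_neg hpn _ s
        · rw [Function.update_of_ne hy]; exact hpn y
      have h2 := norm_Gr_le hK hq a
      have h3 : 1 ≤ -(Function.update p x (p x + (s : ℂ)) a).im := by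
        have h4 : (Function.update p x (p x + (s : ℂ)) a).im = (p a).im := by
          by_cases hy : a = x
          · subst hy; rw [Function.update_self]; simp
          · rw [Function.update_of_ne hy]
        rw [h4, hp, im_dd, if_pos rfl]
        have := abs_pos' (c := c) hη (ω := Function.update ω x 0) hτ0 a
        linarith
      nlinarith [norm_nonneg (Gr K (Function.update p x (p x + (s : ℂ))) a a)]
    obtain ⟨u, v, hv, hb⟩ := col_bound hK hpn x a h1
    calc ∫ s, ‖Gc K V c η a (Function.update ω x s) τ x‖ ^ 2 ∂(unif c)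
        ≤ ∫ s, 2 * v / ((s - u) ^ 2 + v ^ 2) ∂(unif c) := by
          refine integral_mono_of_nonneg (Filter.Eventually.of_forall fun s => sq_nonneg _) ?_
            (Filter.Eventually.of_forall fun s => ?_)
          · have hle := unif_le c
            have hi := (lor_integrable (u := u) hv).smul_measure (c := ENNReal.ofReal (1 / (2 * c)))
              ENNReal.ofReal_ne_top
            exact hi.mono_measure hle
          · refine le_trans ?_ (hb s)
            refine pow_le_pow_left₀ (norm_nonneg _) ?_ 2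
            unfold Gc
            rw [e s]
            refine col_mono hK hpn x a s _ ?_
            exact mul_nonneg (by have := hτ x; linarith) (vf_nonneg _ _)
      _ ≤ 1 / (2 * c) * ∫ s, 2 * v / ((s - u) ^ 2 + v ^ 2) :=
          unif_int_le hc (lor_integrable hv) fun s => by positivity
      _ = Real.pi / c := by
          rw [lor_integral hv]
          field_simp
  calc ∫ ω, ∫ s, ‖Gc K V c η a (Function.update ω x s) τ x‖ ^ 2 ∂(unif c) ∂(PI c ι)
      ≤ ∫ ω : ι → ℝ, Real.pi / c ∂(PI c ι) := by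
        refine integral_mono_of_nonneg (Filter.Eventually.of_forall fun ω =>
          integral_nonneg fun s => sq_nonneg _) (integrable_const _)
          (Filter.Eventually.of_forall hin)
    _ = Real.pi / c := by simp

end Pool.Agent.L0h56.SL.M
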