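import Pool.Agent.L0h56.SL.Def

/-!
The transmission probability is small, uniformly in the volume, for growth `< 4/3` (StFin).
-/

set_option autoImplicit false
set_option linter.unusedSectionVars false
set_option linter.unusedVariables false

open scoped BigOperators Topology
open Complex MeasureTheory Filter Pool.Agent.L0h56.CS

namespace Pool.Agent.L0h56.SL

section Basic

variable {ι : Type} [Fintype ι] [DecidableEq ι]

theorem dd_zero_im (V : ι → ℝ) (c η : ℝ) (a : ι) (ω : ι → ℝ) (x : ι) :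
    (dd V c η a ω 0 x).im = -η - (if x = a then 1 else 0) := by
  unfold dd
  by_cases hx : x = a <;> simp [hx]

theorem Rc_meas0 (K : ι → ι → ℝ) (V : ι → ℝ) (c η : ℝ) (a : ι) :
    Measurable fun ω => Rc K V c η a ω 0 := by
  unfold Rc Gc
  refine measurable_const.add (measurable_const.mul (measurable_Gr K (fun x => ?_) a a))
  unfold dd
  simp only [Pi.zero_apply, zero_mul, add_zero]
  fun_prop

theorem Rc_le0 {K : ι → ι → ℝ} (hK : ∀ x y, K x y = K y x) (V : ι → ℝ) (c : ℝ) {η : ℝ} (hη : 0 < η)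
    (a : ι) (ω : ι → ℝ) : ‖Rc K V c η a ω 0‖ ≤ 1 := by
  have hp : ∀ x, (dd V c η a ω 0 x).im < 0 := by
    intro x
    rw [dd_zero_im]
    split_ifs <;> linarith
  have h1 := im_Gr_ge hK hp a a
  rw [dd_zero_im, if_pos rfl] at h1
  have h2 : ‖Rc K V c η a ω 0‖ ^ 2 = 1 - 4 * (Gr K (dd V c η a ω 0) a a).im +
      4 * ‖Gr K (dd V c η a ω 0) a a‖ ^ 2 := by
    unfold Rc Gc
    rw [← Complex.normSq_eq_norm_sq, ← Complex.normSq_eq_norm_sq, Complex.normSq_apply,
      Complex.normSq_apply]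
    simp only [add_re, one_re, mul_re, I_re, I_im, add_im, one_im, mul_im,
      re_ofNat, im_ofNat]
    ring
  have h3 : ‖Rc K V c η a ω 0‖ ^ 2 ≤ 1 := by
    rw [h2]
    nlinarith [sq_nonneg ‖Gr K (dd V c η a ω 0) a a‖]
  nlinarith [norm_nonneg (Rc K V c η a ω 0)]

end Basic

section Asym

/-- `(1 + x)^n ≥ exp (n x / 2)` for `0 ≤ x ≤ 1` -/
theorem one_add_pow_ge {x : ℝ} (h0 : 0 ≤ x) (h1 : x ≤ 1) (n : ℕ) :
    Real.exp (n * (x / 2)) ≤ (1 + x) ^ n := by
  have h2 : Real.exp (x / 2) ≤ 1 + x := by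
    have h3 : 1 - x / 2 ≤ Real.exp (-(x / 2)) := by
      have := Real.add_one_le_exp (-(x / 2)); linarith
    have h4 : Real.exp (x / 2) * Real.exp (-(x / 2)) = 1 := by
      rw [← Real.exp_add]; simp
    have h5 : 0 < Real.exp (x / 2) := Real.exp_pos _
    have h6 : Real.exp (x / 2) * (1 - x / 2) ≤ 1 :=
      (mul_le_mul_of_nonneg_left h3 h5.le).trans h4.le
    have h7 : 1 ≤ (1 + x) * (1 - x / 2) := by nlinarith
    by_contra h8
    push Not at h8
    nlinarith
  rw [Real.exp_nat_mul]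
  exact pow_le_pow_left₀ (Real.exp_pos _).le h2 n

theorem exp_dec {b : ℝ} (hb : 0 < b) (p : ℕ) :
    Tendsto (fun s : ℕ => (s : ℝ) ^ p * Real.exp (-(b * s))) atTop (𝓝 0) := by
  have h1 : |Real.exp (-b)| < 1 := by
    rw [abs_of_pos (Real.exp_pos _), Real.exp_lt_one_iff]
    linarith
  have h2 := tendsto_pow_const_mul_const_pow_of_abs_lt_one p h1
  refine h2.congr fun s => ?_
  rw [← Real.exp_nat_mul]
  congr 2
  ring

theorem att_tendsto {D M v0 : ℝ} (hD : 0 < D) (hM : 0 < M) (hv0 : 0 < v0) (p : ℕ) :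
    Tendsto (fun s : ℕ => att D (M / (s : ℝ) ^ (p + 1)) v0 (s ^ (p + 2) - 2)) atTop (𝓝 0) := by
  set c' : ℝ := 2 * M * v0 / D with hc'
  have hc0 : 0 < c' := by positivity
  have h1 : Tendsto (fun s : ℕ => 2 / c' * ((s : ℝ) ^ (p + 1) * Real.exp (-(c' / 16 * s)))) atTop (𝓝 0) := by
    have := (exp_dec (b := c' / 16) (by positivity) (p + 1)).const_mul (2 / c')
    simpa using this
  refine squeeze_zero' ?_ ?_ h1
  · refine Eventually.of_forall fun s => ?_
    unfold att
    positivity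
  · obtain ⟨s0, hs0⟩ : ∃ s0 : ℕ, c' ≤ s0 := exists_nat_ge c'
    filter_upwards [eventually_ge_atTop (max s0 12)] with s hs
    have hs1 : s0 ≤ s := (le_max_left _ _).trans hs
    have hs2 : 12 ≤ s := (le_max_right _ _).trans hs
    have hs3 : (12 : ℝ) ≤ s := by exact_mod_cast hs2
    have hs4 : c' ≤ s := hs0.trans (by exact_mod_cast hs1)
    have hsp : (0 : ℝ) < (s : ℝ) ^ (p + 1) := by positivity
    set x : ℝ := c' / (s : ℝ) ^ (p + 1) with hx
    have hx0 : 0 < x := by positivity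
    have hx1 : x ≤ 1 := by
      rw [hx, div_le_one hsp]
      refine hs4.trans ?_
      exact le_self_pow₀ (by linarith) (by omega)
    have e1 : 2 * (M / (s : ℝ) ^ (p + 1) * v0) / D = x := by
      rw [hx, hc']; field_simp
    have e2 : D / (M / (s : ℝ) ^ (p + 1) * v0) = 2 / x := by
      rw [hx, hc']; field_simp
    unfold att
    rw [e1, e2]
    have h2 := one_add_pow_ge hx0.le hx1 ((s ^ (p + 2) - 2) / 4)
    have h3 : c' / 16 * s ≤ (((s ^ (p + 2) - 2) / 4 : ℕ) : ℝ) * (x / 2) := by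
      have h4 : s ^ (p + 2) ≤ 8 * ((s ^ (p + 2) - 2) / 4) := by
        have : 12 ≤ s ^ (p + 2) := hs2.trans (Nat.le_self_pow (by omega) s)
        omega
      have h5 : ((s : ℝ)) ^ (p + 2) ≤ 8 * (((s ^ (p + 2) - 2) / 4 : ℕ) : ℝ) := by exact_mod_cast h4
      have h6 : c' / 16 * s = (s : ℝ) ^ (p + 2) / 8 * (x / 2) := by
        rw [hx]; field_simp; ring
      rw [h6]
      exact mul_le_mul_of_nonneg_right (by linarith) (by positivity)
    calc 2 / x * ((1 + x) ^ ((s ^ (p + 2) - 2) / 4))⁻¹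
        ≤ 2 / x * Real.exp (-(c' / 16 * s)) := by
          refine mul_le_mul_of_nonneg_left ?_ (by positivity)
          rw [Real.exp_neg]
          refine inv_anti₀ (Real.exp_pos _) ((Real.exp_le_exp.2 h3).trans h2)
      _ = 2 / c' * ((s : ℝ) ^ (p + 1) * Real.exp (-(c' / 16 * s))) := by
          rw [hx]; field_simp

/-- the sum of the error terms -/
theorem err_tendsto {D M v0 Cs C1 : ℝ} (hD : 0 < D) (hM : 0 < M) (hv0 : 0 < v0) (p : ℕ) :
    Tendsto (fun k : ℕ => Cs * (Real.sqrt C1 * ((k + 1 : ℕ) : ℝ) ^ (p + 1)) * (2 / ((k + 1 : ℕ) : ℝ) ^ (p + 2)) +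
      8 * Real.sqrt (att D (M / ((k + 1 : ℕ) : ℝ) ^ (p + 1)) v0 ((k + 1) ^ (p + 2) - 2)) +
      4 * att D (M / ((k + 1 : ℕ) : ℝ) ^ (p + 1)) v0 ((k + 1) ^ (p + 2) - 2) +
      5 * (C1 * ((k + 1 : ℕ) : ℝ) ^ (2 * p + 2) * (1 / 2) ^ k)) atTop (𝓝 0) := by
  have hshift := tendsto_add_atTop_nat 1
  have h1 : Tendsto (fun k : ℕ => Cs * (Real.sqrt C1 * ((k + 1 : ℕ) : ℝ) ^ (p + 1)) *
      (2 / ((k + 1 : ℕ) : ℝ) ^ (p + 2))) atTop (𝓝 0) := by
    have h2 := (tendsto_one_div_add_atTop_nhds_zero_nat (𝕜 := ℝ)).const_mul (2 * Cs * Real.sqrt C1)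
    rw [mul_zero] at h2
    refine h2.congr fun k => ?_
    push_cast
    have : (0 : ℝ) < (k : ℝ) + 1 := by positivity
    field_simp
    ring
  have h3 := (att_tendsto hD hM hv0 p).comp hshift
  have h4 : Tendsto (fun k : ℕ => Real.sqrt (att D (M / ((k + 1 : ℕ) : ℝ) ^ (p + 1)) v0 ((k + 1) ^ (p + 2) - 2)))
      atTop (𝓝 0) := by
    have := (Real.continuous_sqrt.tendsto 0).comp h3
    rw [Real.sqrt_zero] at this
    exact this
  have h5 : Tendsto (fun k : ℕ => C1 * ((k + 1 : ℕ) : ℝ) ^ (2 * p + 2) * (1 / 2) ^ k) atTop (𝓝 0) := by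
    have h6 := ((tendsto_pow_const_mul_const_pow_of_abs_lt_one (2 * p + 2)
      (show |(1 / 2 : ℝ)| < 1 by rw [abs_of_pos] <;> norm_num)).comp hshift).const_mul (2 * C1)
    rw [mul_zero] at h6
    refine h6.congr fun k => ?_
    simp only [Function.comp_apply, pow_succ (1 / 2 : ℝ)]
    ring
  have h7 := ((h1.add (h4.const_mul 8)).add (h3.const_mul 4)).add (h5.const_mul 5)
  simpa using h7

end Asym


section Pigeon

variable {ι : Type} [Fintype ι] [DecidableEq ι]

theorem card_slabs (lay : ι → ℕ) (t : ℕ) : ∀ n : ℕ,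
    ∑ j ∈ Finset.range n, (Finset.univ.filter fun x => j * t < lay x ∧ lay x ≤ j * t + t).card ≤
      (Finset.univ.filter fun x => lay x ≤ n * t).card := by
  intro n
  induction n with
  | zero => simp
  | succ n ih =>
    rw [Finset.sum_range_succ]
    refine (Nat.add_le_add_right ih _).trans ?_
    rw [← Finset.card_union_of_disjoint]
    · refine Finset.card_le_card fun x hx => ?_
      rw [Finset.mem_union, Finset.mem_filter, Finset.mem_filter] at hx
      rw [Finset.mem_filter]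
      refine ⟨Finset.mem_univ _, ?_⟩
      rw [Nat.succ_mul]
      rcases hx with h | h
      · exact h.2.trans (Nat.le_add_right _ _)
      · exact h.2.2
    · rw [Finset.disjoint_left]
      intro x hx hx'
      rw [Finset.mem_filter] at hx hx'
      omega

/-- one of the slabs has few points and a small variance -/
theorem pigeon {K : ι → ι → ℝ} (hK : ∀ x y, K x y = K y x) (V : ι → ℝ) {c : ℝ} (hc : 0 < c) {η : ℝ}
    (hη : 0 < η) (a : ι) (hM : StSum) (lay : ι → ℕ) (t J : ℕ) (hJ : 0 < J) {N : ℝ} (hN : 0 < N)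
    (hcard : ((Finset.univ.filter fun x => lay x ≤ J * t).card : ℝ) ≤ N) :
    ∃ j < J, ((Finset.univ.filter fun x => j * t < lay x ∧ lay x ≤ j * t + t).card : ℝ) ≤ 2 * N / J ∧
      Vs K V c η a (Finset.univ.filter fun x => lay x ≤ j * t)
        (Finset.univ.filter fun x => j * t < lay x ∧ lay x ≤ j * t + t) ≤ 2 / J := by
  set B : ℕ → Finset ι := fun j => Finset.univ.filter fun x => lay x ≤ j * t with hB
  set S : ℕ → Finset ι := fun j => Finset.univ.filter fun x => j * t < lay x ∧ lay x ≤ j * t + t with hS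
  have hmono : Monotone B := by
    intro i j hij x hx
    simp only [hB, Finset.mem_filter, Finset.mem_univ, true_and] at hx ⊢
    exact hx.trans (Nat.mul_le_mul_right _ hij)
  have hun : ∀ j, B j ∪ S j = B (j + 1) := by
    intro j
    ext x
    simp only [hB, hS, Finset.mem_union, Finset.mem_filter, Finset.mem_univ, true_and, Nat.succ_mul]
    omega
  have h1 := hM c hc ι (fun ω => Rc K V c η a ω 0) (Rc_meas0 K V c η a) (Rc_le0 hK V c hη a) B hmono J
  have h2 : ∑ j ∈ Finset.range J, Vs K V c η a (B j) (S j) ≤ 1 := by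
    refine le_trans (le_of_eq ?_) h1
    refine Finset.sum_congr rfl fun j _ => ?_
    unfold Vs
    rw [hun j]
  have h3 : ∑ j ∈ Finset.range J, ((S j).card : ℝ) / N ≤ 1 := by
    rw [← Finset.sum_div, div_le_one hN]
    refine le_trans ?_ hcard
    exact_mod_cast card_slabs lay t J
  have hV0 : ∀ j, 0 ≤ Vs K V c η a (B j) (S j) := fun j =>
    integral_nonneg fun ω₁ => integral_nonneg fun ω₂ => sq_nonneg _
  have hJ' : (0 : ℝ) < J := by exact_mod_cast hJ
  have h4 : ∑ j ∈ Finset.range J, (((S j).card : ℝ) / N + Vs K V c η a (B j) (S j)) ≤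
      ∑ j ∈ Finset.range J, (2 / J : ℝ) := by
    rw [Finset.sum_add_distrib, Finset.sum_const, Finset.card_range, nsmul_eq_mul,
      mul_div_cancel₀ _ hJ'.ne']
    linarith
  obtain ⟨j, hj, h5⟩ := Finset.exists_le_of_sum_le (Finset.nonempty_range_iff.2 hJ.ne') h4
  refine ⟨j, Finset.mem_range.1 hj, ?_, ?_⟩
  · have h6 : ((S j).card : ℝ) / N ≤ 2 / J := by
      have := hV0 j; linarith
    rw [div_le_iff₀ hN] at h6
    refine h6.trans (le_of_eq ?_)
    ring
  · have : 0 ≤ ((S j).card : ℝ) / N := by positivity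
    linarith

end Pigeon

/-- **M7.** -/
theorem stFin (hS : StSlab) (hP : StPerc) (hM : StSum) : StFin := by
  intro c hc D hD α hα C hC ε hε
  have hDr : (0 : ℝ) < D := by exact_mod_cast hD
  obtain ⟨p, hp⟩ : ∃ p : ℕ, α ≤ (4 * p + 8) / (3 * p + 9) := by
    obtain ⟨p, hp⟩ := exists_nat_ge (4 / (4 - 3 * α))
    refine ⟨p, ?_⟩
    have h1 : 0 < 4 - 3 * α := by linarith
    rw [div_le_iff₀ h1] at hp
    rw [le_div_iff₀ (by positivity)]
    nlinarith
  set q : ℝ := (p : ℝ) + 3 with hq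
  have hq0 : 3 ≤ q := by rw [hq]; have : (0:ℝ) ≤ p := Nat.cast_nonneg p; linarith
  set κ : ℝ := 1 - 1 / q with hκ
  have hκ0 : 0 < κ := by
    rw [hκ, sub_pos, div_lt_one (by linarith)]
    linarith
  have hκ1 : κ < 1 := by
    rw [hκ]
    have : 0 < 1 / q := by positivity
    linarith
  obtain ⟨M0, Cs, hM0, hCs, hslab⟩ := hS κ hκ0 hκ1 c hc
  obtain ⟨v0, hv0, hperc⟩ := hP c hc D hD
  set C1 : ℝ := 8 * C + 1 with hC1
  have hC1' : 1 ≤ C1 := by rw [hC1]; linarith
  have hsC1 : 0 < Real.sqrt C1 := Real.sqrt_pos.2 (by linarith)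
  have herr := err_tendsto (Cs := Cs) (C1 := C1) hDr (M := M0 / Real.sqrt C1) (by positivity) hv0 p
  obtain ⟨k, hk1, hk⟩ : ∃ k : ℕ, 1 ≤ k ∧ Cs * (Real.sqrt C1 * ((k + 1 : ℕ) : ℝ) ^ (p + 1)) *
        (2 / ((k + 1 : ℕ) : ℝ) ^ (p + 2)) +
      8 * Real.sqrt (att D (M0 / Real.sqrt C1 / ((k + 1 : ℕ) : ℝ) ^ (p + 1)) v0 ((k + 1) ^ (p + 2) - 2)) +
      4 * att D (M0 / Real.sqrt C1 / ((k + 1 : ℕ) : ℝ) ^ (p + 1)) v0 ((k + 1) ^ (p + 2) - 2) +
      5 * (C1 * ((k + 1 : ℕ) : ℝ) ^ (2 * p + 2) * (1 / 2) ^ k) < ε / 2 := by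
    have h1 := (herr.eventually (gt_mem_nhds (half_pos hε))).and (eventually_ge_atTop 1)
    obtain ⟨k, hk⟩ := h1.exists
    exact ⟨k, hk.2, hk.1⟩
  set s : ℕ := k + 1 with hs
  have hs2 : 2 ≤ s := by omega
  have hs1 : (1 : ℝ) ≤ s := by exact_mod_cast (show 1 ≤ s by omega)
  have hs0 : (0 : ℝ) < s := by linarith
  set t : ℕ := s ^ (p + 3) with ht
  set J : ℕ := s ^ (2 * p + 6) with hJdef
  set N : ℝ := 4 * C * (s : ℝ) ^ (4 * p + 8) with hN
  have hN0 : 0 < N := by positivity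
  have hJ0 : 0 < J := by positivity
  have hπ : 0 < Real.pi / c + 1 := by positivity
  refine ⟨ε / (8 * (Real.pi / c + 1) * N), by positivity, ?_⟩
  intro η hη hη1 ι _ _ K hK hK1 hdeg V a lay hlay0 hlay hgr
  -- the growth
  have hJt : ((Finset.univ.filter fun x => lay x ≤ J * t).card : ℝ) ≤ N := by
    refine (hgr (J * t)).trans ?_
    set α' : ℝ := (4 * p + 8) / (3 * p + 9) with hα'
    have hα0 : 0 ≤ α' := by positivity
    have hα2 : α' ≤ 2 := by
      rw [hα', div_le_iff₀ (by positivity)]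
      have : (0:ℝ) ≤ p := Nat.cast_nonneg p
      linarith
    have h1 : ((J * t : ℕ) : ℝ) = (s : ℝ) ^ (3 * p + 9) := by
      rw [hJdef, ht]; push_cast; ring
    rw [h1]
    have h2 : (1 : ℝ) ≤ (s : ℝ) ^ (3 * p + 9) := one_le_pow₀ hs1
    have h3 : ((s : ℝ) ^ (3 * p + 9) + 1) ^ α ≤ 4 * (s : ℝ) ^ (4 * p + 8) := by
      calc ((s : ℝ) ^ (3 * p + 9) + 1) ^ α ≤ ((s : ℝ) ^ (3 * p + 9) + 1) ^ α' :=
            Real.rpow_le_rpow_of_exponent_le (by linarith) hp
        _ ≤ (2 * (s : ℝ) ^ (3 * p + 9)) ^ α' :=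
            Real.rpow_le_rpow (by positivity) (by linarith) hα0
        _ = 2 ^ α' * (s : ℝ) ^ (4 * p + 8) := by
            rw [Real.mul_rpow (by norm_num) (by positivity)]
            congr 1
            rw [← Real.rpow_natCast, ← Real.rpow_mul hs0.le, ← Real.rpow_natCast]
            congr 1
            rw [hα']; push_cast; field_simp
        _ ≤ 4 * (s : ℝ) ^ (4 * p + 8) := by
            refine mul_le_mul_of_nonneg_right ?_ (by positivity)
            calc (2 : ℝ) ^ α' ≤ 2 ^ (2 : ℝ) := Real.rpow_le_rpow_of_exponent_le (by norm_num) hα2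
              _ = 4 := by norm_num
    rw [hN]
    nlinarith
  obtain ⟨j, hj, hj1, hj2⟩ := pigeon hK V hc hη a hM lay t J hJ0 hN0 hJt
  set B : Finset ι := Finset.univ.filter fun x => lay x ≤ j * t with hB
  set S : Finset ι := Finset.univ.filter fun x => j * t < lay x ∧ lay x ≤ j * t + t with hSdef
  have hst : ((s : ℝ)) ^ (4 * p + 8) / (s : ℝ) ^ (2 * p + 6) = (s : ℝ) ^ (2 * p + 2) := by
    rw [div_eq_iff (by positivity)]
    ring
  have hSν : (S.card : ℝ) ≤ C1 * (s : ℝ) ^ (2 * p + 2) := by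
    refine hj1.trans ?_
    have h1 : 2 * N / (J : ℝ) = 8 * C * (s : ℝ) ^ (2 * p + 2) := by
      rw [hN, hJdef]
      push_cast
      rw [← hst]
      ring
    rw [h1]
    have : (0 : ℝ) < (s : ℝ) ^ (2 * p + 2) := by positivity
    rw [hC1]; nlinarith
  obtain ⟨n, hn⟩ : ∃ n : ℕ, n = ⌊C1 * (s : ℝ) ^ (2 * p + 2)⌋₊ := ⟨_, rfl⟩
  have hν1 : 1 ≤ C1 * (s : ℝ) ^ (2 * p + 2) := by
    have : (1 : ℝ) ≤ (s : ℝ) ^ (2 * p + 2) := one_le_pow₀ hs1
    nlinarith
  have hn1 : 1 ≤ n := by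
    rw [hn]; exact Nat.le_floor (by exact_mod_cast hν1)
  have hnS : S.card ≤ n := by
    rw [hn]; exact Nat.le_floor hSν
  have hnν : (n : ℝ) ≤ C1 * (s : ℝ) ^ (2 * p + 2) := by
    rw [hn]; exact Nat.floor_le (by linarith)
  have hνsq : C1 * (s : ℝ) ^ (2 * p + 2) = (Real.sqrt C1 * (s : ℝ) ^ (p + 1)) ^ 2 := by
    rw [mul_pow, Real.sq_sqrt (by linarith), ← pow_mul]
    congr 2
    ring
  obtain ⟨L, hL⟩ : ∃ L : ℝ, L = M0 / Real.sqrt C1 / (s : ℝ) ^ (p + 1) := ⟨_, rfl⟩
  have hL0 : 0 < L := by rw [hL]; positivity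
  have hLn : L ^ 2 * n ≤ M0 ^ 2 := by
    calc L ^ 2 * n ≤ L ^ 2 * (C1 * (s : ℝ) ^ (2 * p + 2)) :=
          mul_le_mul_of_nonneg_left hnν (sq_nonneg _)
      _ = M0 ^ 2 := by
          rw [hνsq, hL]
          field_simp
  obtain ⟨Bad, hBm, hBp, hBlev⟩ := hperc ι K hK hdeg lay hlay (j * t) t k (s ^ (p + 2) - 2) (by
    have h1 : 2 ≤ s ^ (p + 2) := hs2.trans (Nat.le_self_pow (by omega) s)
    rw [Nat.sub_add_cancel h1, ht, ← hs]
    exact le_of_eq (by ring))
  have hmain := hslab ι K hK D hDr (fun x => ?_) V η hη a B S ?_ ?_ n hn1 hnS L hL0 hLn v0 hv0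
    (s ^ (p + 2) - 2) Bad hBm hBlev
  · refine hmain.trans ?_
    have hV0 : 0 ≤ Vs K V c η a B S :=
      integral_nonneg fun ω₁ => integral_nonneg fun ω₂ => sq_nonneg _
    -- first term
    have t1 : Cs * Real.sqrt n * (Vs K V c η a B S) ^ (κ / 2) ≤
        Cs * (Real.sqrt C1 * (s : ℝ) ^ (p + 1)) * (2 / (s : ℝ) ^ (p + 2)) := by
      have h1 : Real.sqrt n ≤ Real.sqrt C1 * (s : ℝ) ^ (p + 1) := by
        rw [← Real.sqrt_sq (show 0 ≤ Real.sqrt C1 * (s : ℝ) ^ (p + 1) by positivity), ← hνsq]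
        exact Real.sqrt_le_sqrt hnν
      have h2 : (Vs K V c η a B S) ^ (κ / 2) ≤ 2 / (s : ℝ) ^ (p + 2) := by
        calc (Vs K V c η a B S) ^ (κ / 2) ≤ (2 / (J : ℝ)) ^ (κ / 2) :=
              Real.rpow_le_rpow hV0 hj2 (by linarith)
          _ = 2 ^ (κ / 2) / (s : ℝ) ^ (p + 2) := by
              rw [Real.div_rpow (by norm_num) (by positivity)]
              congr 1
              rw [hJdef]
              push_cast
              rw [← Real.rpow_natCast, ← Real.rpow_mul hs0.le, ← Real.rpow_natCast]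
              congr 1
              rw [hκ, hq]; push_cast
              field_simp
              ring
          _ ≤ 2 / (s : ℝ) ^ (p + 2) := by
              refine div_le_div_of_nonneg_right ?_ (by positivity)
              calc (2 : ℝ) ^ (κ / 2) ≤ 2 ^ (1 : ℝ) :=
                    Real.rpow_le_rpow_of_exponent_le (by norm_num) (by linarith)
                _ = 2 := by norm_num
      exact mul_le_mul (mul_le_mul_of_nonneg_left h1 hCs.le) h2 (Real.rpow_nonneg hV0 _) (by positivity)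
    -- the exceptional set
    have t4 : 5 * (PI c ι).real Bad ≤ 5 * (C1 * (s : ℝ) ^ (2 * p + 2) * (1 / 2) ^ k) := by
      refine mul_le_mul_of_nonneg_left (hBp.trans ?_) (by norm_num)
      exact mul_le_mul_of_nonneg_right hSν (by positivity)
    -- absorption
    have t5 : 4 * η * (Real.pi / c + 1) * ((B.card : ℝ) + S.card) ≤ ε / 2 := by
      have h1 : (B.card : ℝ) + S.card ≤ N := by
        refine le_trans ?_ hJt
        rw [← Nat.cast_add, ← Finset.card_union_of_disjoint]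
        · refine Nat.cast_le.2 (Finset.card_le_card fun x hx => ?_)
          rw [Finset.mem_union, hB, hSdef, Finset.mem_filter, Finset.mem_filter] at hx
          rw [Finset.mem_filter]
          refine ⟨Finset.mem_univ _, ?_⟩
          have h2 : (j + 1) * t ≤ J * t := Nat.mul_le_mul_right _ hj
          rw [Nat.succ_mul] at h2
          rcases hx with h | h
          · exact h.2.trans (by omega)
          · exact h.2.2.trans h2
        · rw [Finset.disjoint_left]
          intro x hx hx'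
          rw [hB, Finset.mem_filter] at hx
          rw [hSdef, Finset.mem_filter] at hx'
          omega
      rw [le_div_iff₀ (by positivity)] at hη1
      have h2 : 4 * η * (Real.pi / c + 1) * ((B.card : ℝ) + S.card) ≤ 4 * η * (Real.pi / c + 1) * N :=
        mul_le_mul_of_nonneg_left h1 (by positivity)
      linarith
    rw [← hL] at hk
    linarith
  · -- row sums
    calc ∑ y, |K x y| = ∑ y ∈ Finset.univ.filter (fun y => K x y ≠ 0), |K x y| := by
          rw [Finset.sum_filter_of_ne]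
          intro y _ hy h0
          rw [h0] at hy; simp at hy
      _ ≤ ∑ y ∈ Finset.univ.filter (fun y => K x y ≠ 0), 1 := Finset.sum_le_sum fun y _ => hK1 x y
      _ ≤ D := by
          rw [Finset.sum_const, nsmul_eq_mul, mul_one]
          exact_mod_cast hdeg x
  · rw [Finset.disjoint_left]
    intro x hx hx'
    rw [hB, Finset.mem_filter] at hx
    rw [hSdef, Finset.mem_filter] at hx'
    omega
  · rw [hB, Finset.mem_filter, hlay0]
    exact ⟨Finset.mem_univ _, Nat.zero_le _⟩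

end Pool.Agent.L0h56.SL

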