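import Pool.Agent.L0h56.SL.Def
import Pool.Agent.L0h56.CS.Ex
import Pool.Agent.L0h56.CS.Sing

/-!
From finite volume to infinite volume, on a countable set.
-/

set_option autoImplicit false
set_option linter.unusedSectionVars false
set_option linter.unusedVariables false

open scoped BigOperators Topology ENNReal
open Complex MeasureTheory Filter Pool.Agent.L0h56.CS

namespace Pool.Agent.L0h56.SL

section Geo

variable {X : Type} [DecidableEq X]

/-- restriction of the kernel to a finite set -/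
def KF (K : X → X → ℝ) (F : Finset X) (x y : F) : ℝ := K x.1 y.1

/-- restriction of the potential to a finite set -/
def qF (v : X → ℝ) (F : Finset X) (x : F) : ℝ := v x.1

theorem KF_symm {K : X → X → ℝ} (hK : ∀ x y, K x y = K y x) (F : Finset X) (x y : F) :
    KF K F x y = KF K F y x := hK _ _

/-- the part of the hopping sum outside `F` -/
noncomputable def bdF (K : X → X → ℝ) (nb : X → Finset X) (F : Finset X) (u : X → ℂ) (x : X) : ℂ :=
  ∑ y ∈ nb x, if y ∈ F then 0 else (K x y : ℂ) * u y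

theorem split_sum {K : X → X → ℝ} {nb : X → Finset X} (hnb : ∀ x y, K x y ≠ 0 → y ∈ nb x)
    (F : Finset X) (u : X → ℂ) (x : X) :
    ∑ y ∈ nb x, (K x y : ℂ) * u y = ∑ y ∈ F, (K x y : ℂ) * u y + bdF K nb F u x := by
  have h1 : ∑ y ∈ nb x, (K x y : ℂ) * u y =
      ∑ y ∈ nb x, (if y ∈ F then (K x y : ℂ) * u y else 0) + bdF K nb F u x := by
    unfold bdF
    rw [← Finset.sum_add_distrib]
    refine Finset.sum_congr rfl fun y _ => ?_
    split_ifs <;> ring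
  rw [h1, Finset.sum_ite_mem]
  congr 1
  refine Finset.sum_subset Finset.inter_subset_right fun y hy hy' => ?_
  have : K x y = 0 := by
    by_contra h
    exact hy' (Finset.mem_inter.2 ⟨hnb x y h, hy⟩)
  rw [this]; simp

theorem row_le {K : X → X → ℝ} {nb : X → Finset X} (hnb : ∀ x y, K x y ≠ 0 → y ∈ nb x) {D : ℝ}
    (hD : ∀ x, ∑ y ∈ nb x, |K x y| ≤ D) (F : Finset X) (y : X) : ∑ x ∈ F, |K y x| ≤ D := by
  refine le_trans ?_ (hD y)
  have h1 : ∑ x ∈ F, |K y x| = ∑ x ∈ F ∩ nb y, |K y x| := by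
    symm
    refine Finset.sum_subset Finset.inter_subset_left fun x hx hx' => ?_
    have : K y x = 0 := by
      by_contra h
      exact hx' (Finset.mem_inter.2 ⟨hx, hnb y x h⟩)
    rw [this]; simp
  rw [h1]
  exact Finset.sum_le_sum_of_subset_of_nonneg Finset.inter_subset_right fun _ _ _ => abs_nonneg _

theorem sum_le_tailS {u : X → ℂ} (hu : SqS u) (B S : Finset X)
    (hd : Disjoint S B) : ∑ y ∈ S, ‖u y‖ ^ 2 ≤ ∑' y, ‖u y‖ ^ 2 - ∑ y ∈ B, ‖u y‖ ^ 2 := by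
  have h := hu.sum_le_tsum (S ∪ B) fun _ _ => sq_nonneg _
  rw [Finset.sum_union hd] at h
  linarith

theorem bdF_le {K : X → X → ℝ} (hK : ∀ x y, K x y = K y x) {nb : X → Finset X}
    (hnb : ∀ x y, K x y ≠ 0 → y ∈ nb x) {D : ℝ} (hD0 : 0 ≤ D)
    (hD : ∀ x, ∑ y ∈ nb x, |K x y| ≤ D) {u : X → ℂ} (hu : SqS u) (F : Finset X) :
    ∑ x ∈ F, ‖bdF K nb F u x‖ ^ 2 ≤ D ^ 2 * (∑' y, ‖u y‖ ^ 2 - ∑ y ∈ F, ‖u y‖ ^ 2) := by
  set T : Finset X := (F.biUnion nb) \ F with hT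
  have h1 : ∀ x ∈ F, ‖bdF K nb F u x‖ ^ 2 ≤ D * ∑ y ∈ T, |K x y| * ‖u y‖ ^ 2 := by
    intro x hx
    have e : bdF K nb F u x = ∑ y ∈ (nb x).filter (fun y => y ∉ F), (K x y : ℂ) * u y := by
      unfold bdF
      rw [Finset.sum_filter]
      refine Finset.sum_congr rfl fun y _ => ?_
      by_cases hy : y ∈ F <;> simp [hy]
    have h2 : ‖bdF K nb F u x‖ ≤ ∑ y ∈ (nb x).filter (fun y => y ∉ F), |K x y| * ‖u y‖ := by
      rw [e]
      refine (norm_sum_le _ _).trans (Finset.sum_le_sum fun y _ => ?_)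
      rw [norm_mul, Complex.norm_real, Real.norm_eq_abs]
    have h3 : (∑ y ∈ (nb x).filter (fun y => y ∉ F), |K x y| * ‖u y‖) ^ 2 ≤
        (∑ y ∈ (nb x).filter (fun y => y ∉ F), |K x y|) *
          ∑ y ∈ (nb x).filter (fun y => y ∉ F), |K x y| * ‖u y‖ ^ 2 :=
      Finset.sum_sq_le_sum_mul_sum_of_sq_le_mul _ (fun _ _ => abs_nonneg _)
        (fun _ _ => by positivity) (fun _ _ => le_of_eq (by ring))
    have h4 : ∑ y ∈ (nb x).filter (fun y => y ∉ F), |K x y| ≤ D :=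
      (Finset.sum_le_sum_of_subset_of_nonneg (Finset.filter_subset _ _)
        fun _ _ _ => abs_nonneg _).trans (hD x)
    have h5 : ∑ y ∈ (nb x).filter (fun y => y ∉ F), |K x y| * ‖u y‖ ^ 2 ≤
        ∑ y ∈ T, |K x y| * ‖u y‖ ^ 2 := by
      refine Finset.sum_le_sum_of_subset_of_nonneg (fun y hy => ?_) fun _ _ _ => by positivity
      rw [Finset.mem_filter] at hy
      rw [hT, Finset.mem_sdiff, Finset.mem_biUnion]
      exact ⟨⟨x, hx, hy.1⟩, hy.2⟩
    calc ‖bdF K nb F u x‖ ^ 2 ≤ (∑ y ∈ (nb x).filter (fun y => y ∉ F), |K x y| * ‖u y‖) ^ 2 :=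
          pow_le_pow_left₀ (norm_nonneg _) h2 2
      _ ≤ _ := h3
      _ ≤ _ := mul_le_mul h4 h5 (Finset.sum_nonneg fun _ _ => by positivity) hD0
  calc ∑ x ∈ F, ‖bdF K nb F u x‖ ^ 2 ≤ ∑ x ∈ F, D * ∑ y ∈ T, |K x y| * ‖u y‖ ^ 2 :=
        Finset.sum_le_sum h1
    _ = D * ∑ y ∈ T, (∑ x ∈ F, |K y x|) * ‖u y‖ ^ 2 := by
        rw [← Finset.mul_sum, Finset.sum_comm]
        congr 1
        refine Finset.sum_congr rfl fun y _ => ?_
        rw [Finset.sum_mul]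
        exact Finset.sum_congr rfl fun x _ => by rw [hK x y]
    _ ≤ D * ∑ y ∈ T, D * ‖u y‖ ^ 2 := by
        refine mul_le_mul_of_nonneg_left (Finset.sum_le_sum fun y _ => ?_) hD0
        exact mul_le_mul_of_nonneg_right (row_le hnb hD F y) (sq_nonneg _)
    _ = D ^ 2 * ∑ y ∈ T, ‖u y‖ ^ 2 := by
        rw [← Finset.mul_sum]; ring
    _ ≤ _ := mul_le_mul_of_nonneg_left (sum_le_tailS hu _ _ Finset.sdiff_disjoint) (sq_nonneg _)

/-- the operator on the finite set -/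
theorem MF_apply (K : X → X → ℝ) (F : Finset X) (p : F → ℂ) (U : X → ℂ) (x : F) :
    (MM (KF K F) p).mulVec (fun x => U x.1) x = ∑ y ∈ F, (K x.1 y : ℂ) * U y + p x * U x.1 := by
  rw [mulVec_eq]
  congr 1
  exact Finset.sum_coe_sort F (fun y => (K x.1 y : ℂ) * U y)

theorem restr_eqF {K : X → X → ℝ} {nb : X → Finset X} (hnb : ∀ x y, K x y ≠ 0 → y ∈ nb x)
    {v : X → ℝ} {E η : ℝ} {u g : X → ℂ}
    (h : ∀ x, HK K nb v u x - (E + η * I : ℂ) * u x = g x) (F : Finset X) :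
    (MM (KF K F) (pE (qF v F) E η)).mulVec (fun x => u x.1) =
      fun x => g x.1 - bdF K nb F u x.1 := by
  funext x
  rw [MF_apply, ← h x.1]
  unfold HK pE qF
  rw [split_sum hnb F u x.1]
  push_cast
  ring

/-- the quadratic form `Im ⟨f, (H_F - E - iη)⁻¹ f⟩` -/
noncomputable def QF (K : X → X → ℝ) (v : X → ℝ) (F : Finset X) (E η : ℝ) (f : X → ℂ) : ℝ :=
  η * ∑ x : F, ‖Ru (KF K F) (qF v F) E η (fun x => f x.1) x‖ ^ 2

theorem tail_tendstoS {B : ℕ → Finset X} (hB : Tendsto B atTop atTop) {u : X → ℂ} (hu : SqS u) :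
    Tendsto (fun N => ∑' y, ‖u y‖ ^ 2 - ∑ y ∈ B N, ‖u y‖ ^ 2) atTop (𝓝 0) := by
  have h : Tendsto (fun N => ∑ y ∈ B N, ‖u y‖ ^ 2) atTop (𝓝 (∑' y, ‖u y‖ ^ 2)) :=
    (Summable.hasSum hu).comp hB
  have := (tendsto_const_nhds (x := ∑' y, ‖u y‖ ^ 2)).sub h
  simpa using this

theorem QF_tendsto {K : X → X → ℝ} (hK : ∀ x y, K x y = K y x) {nb : X → Finset X}
    (hnb : ∀ x y, K x y ≠ 0 → y ∈ nb x) {D : ℝ} (hD0 : 0 ≤ D)
    (hD : ∀ x, ∑ y ∈ nb x, |K x y| ≤ D) {B : ℕ → Finset X} (hB : Tendsto B atTop atTop)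
    {v : X → ℝ} {E η : ℝ} (hη : 0 < η) {u g : X → ℂ}
    (hu : SqS u) (hg : SqS g) (h : ∀ x, HK K nb v u x - (E + η * I : ℂ) * u x = g x) :
    Tendsto (fun N => QF K v (B N) E η g) atTop (𝓝 (∑' x, (starRingEnd ℂ) (g x) * u x).im) := by
  have hsum : Summable fun x => (starRingEnd ℂ) (g x) * u x := by
    refine Summable.of_norm_bounded (g := fun x => (‖g x‖ ^ 2 + ‖u x‖ ^ 2)) (hg.add hu) fun x => ?_
    rw [norm_mul, Complex.norm_conj]
    nlinarith [sq_nonneg (‖g x‖ - ‖u x‖), norm_nonneg (g x), norm_nonneg (u x)]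
  have h1 : Tendsto (fun N => ∑ x ∈ B N, (starRingEnd ℂ) (g x) * u x) atTop
      (𝓝 (∑' x, (starRingEnd ℂ) (g x) * u x)) := hsum.hasSum.comp hB
  have h1' : Tendsto (fun N => (∑ x ∈ B N, (starRingEnd ℂ) (g x) * u x).im) atTop
      (𝓝 (∑' x, (starRingEnd ℂ) (g x) * u x).im) :=
    (Complex.continuous_im.tendsto _).comp h1
  set τ : ℕ → ℝ := fun N => ∑' y, ‖u y‖ ^ 2 - ∑ y ∈ B N, ‖u y‖ ^ 2 with hτ
  set G : ℝ := ∑' y, ‖g y‖ ^ 2 with hG
  have hG0 : 0 ≤ G := tsum_nonneg fun _ => sq_nonneg _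
  have h2 : ∀ N, |QF K v (B N) E η g - (∑ x ∈ B N, (starRingEnd ℂ) (g x) * u x).im| ≤
      Real.sqrt (G * (D ^ 2 * τ N / η ^ 2)) := by
    intro N
    set uN := Ru (KF K (B N)) (qF v (B N)) E η (fun x => g x.1) with huN
    have e1 : QF K v (B N) E η g = (∑ x : B N, (starRingEnd ℂ) (g x.1) * uN x).im := by
      unfold QF
      rw [Ru_im (KF_symm hK (B N)) (qF v (B N)) E hη]
    have e2 : ∑ x ∈ B N, (starRingEnd ℂ) (g x) * u x =
        ∑ x : B N, (starRingEnd ℂ) (g x.1) * u x.1 :=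
      (Finset.sum_coe_sort (B N) (fun x => (starRingEnd ℂ) (g x) * u x)).symm
    have e3 : (MM (KF K (B N)) (pE (qF v (B N)) E η)).mulVec (fun x => u x.1 - uN x) =
        fun x => -bdF K nb (B N) u x.1 := by
      have e4 : (fun x : B N => u x.1 - uN x) = (fun x => u x.1) - uN := rfl
      rw [e4, Matrix.mulVec_sub, restr_eqF hnb h (B N), Ru_eq (KF_symm hK (B N)) (qF v (B N)) E hη]
      funext x
      simp
    have e5 := norm_le_of (KF_symm hK (B N)) hη (fun x => by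
      have := pE_im (qF v (B N)) E η x; linarith) _ _ e3
    have e6 : ∑ x : B N, ‖-bdF K nb (B N) u x.1‖ ^ 2 ≤ D ^ 2 * τ N := by
      simp only [norm_neg]
      rw [Finset.sum_coe_sort (B N) (fun x => ‖bdF K nb (B N) u x‖ ^ 2)]
      exact bdF_le hK hnb hD0 hD hu (B N)
    have e7 : ∑ x : B N, ‖u x.1 - uN x‖ ^ 2 ≤ D ^ 2 * τ N / η ^ 2 := by
      rw [le_div_iff₀ (by positivity)]
      linarith
    have e8 : ∑ x : B N, ‖g x.1‖ ^ 2 ≤ G := by
      rw [Finset.sum_coe_sort (B N) (fun x => ‖g x‖ ^ 2)]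
      exact hg.sum_le_tsum _ fun _ _ => sq_nonneg _
    rw [e1, e2, ← Complex.sub_im]
    refine (Complex.abs_im_le_norm _).trans ?_
    rw [← Finset.sum_sub_distrib]
    refine Real.le_sqrt_of_sq_le ?_
    have e9 : ‖∑ x : B N, ((starRingEnd ℂ) (g x.1) * uN x - (starRingEnd ℂ) (g x.1) * u x.1)‖ ≤
        ∑ x : B N, ‖g x.1‖ * ‖u x.1 - uN x‖ := by
      refine (norm_sum_le _ _).trans (Finset.sum_le_sum fun x _ => ?_)
      rw [← mul_sub, norm_mul, Complex.norm_conj, norm_sub_rev]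
    refine (pow_le_pow_left₀ (norm_nonneg _) e9 2).trans ?_
    refine (Finset.sum_mul_sq_le_sq_mul_sq _ _ _).trans ?_
    exact mul_le_mul e8 e7 (Finset.sum_nonneg fun _ _ => sq_nonneg _) hG0
  have h3 : Tendsto (fun N => Real.sqrt (G * (D ^ 2 * τ N / η ^ 2))) atTop (𝓝 0) := by
    have h4 : Tendsto τ atTop (𝓝 0) := tail_tendstoS hB hu
    have h5 : Tendsto (fun N => G * (D ^ 2 * τ N / η ^ 2)) atTop (𝓝 (G * (D ^ 2 * 0 / η ^ 2))) :=
      ((h4.const_mul _).div_const _).const_mul _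
    rw [mul_zero, zero_div, mul_zero] at h5
    have := (Real.continuous_sqrt.tendsto 0).comp h5
    rwa [Real.sqrt_zero] at this
  have h6 : Tendsto (fun N => QF K v (B N) E η g - (∑ x ∈ B N, (starRingEnd ℂ) (g x) * u x).im) atTop
      (𝓝 0) := squeeze_zero_norm (fun N => by rw [Real.norm_eq_abs]; exact h2 N) h3
  have := h6.add h1'
  simpa using this

/-- a countable set is exhausted by finite sets -/
theorem exists_exh (X : Type) [Countable X] : ∃ B : ℕ → Finset X, Monotone B ∧ ∀ x, ∃ N, x ∈ B N := by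
  obtain ⟨f, hf⟩ := exists_injective_nat X
  refine ⟨fun N => ((Set.finite_Iic N).preimage hf.injOn).toFinset, ?_, fun x => ⟨f x, ?_⟩⟩
  · intro a b hab x hx
    simp only [Set.Finite.mem_toFinset, Set.mem_preimage, Set.mem_Iic] at hx ⊢
    exact hx.trans hab
  · simp

end Geo

end Pool.Agent.L0h56.SL
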