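import Pool.Agent.L0h56.SL.InfA

/-!
Existence of the spectral measures on a countable set (StEx).
-/

set_option autoImplicit false
set_option linter.unusedSectionVars false
set_option linter.unusedVariables false

open scoped BigOperators Topology ENNReal NNReal
open Complex MeasureTheory Filter Pool.Agent.L0h56.CS

namespace Pool.Agent.L0h56.SL

section Ex

variable {X : Type} [DecidableEq X]

/-- the finite volume operator -/
noncomputable def AF (K : X → X → ℝ) (v : X → ℝ) (F : Finset X) : Matrix F F ℂ :=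
  MM (KF K F) (fun x => (qF v F x : ℂ))

theorem AF_herm {K : X → X → ℝ} (hK : ∀ x y, K x y = K y x) (v : X → ℝ) (F : Finset X) :
    (AF K v F).IsHermitian := by
  ext x y
  unfold AF
  rw [Matrix.conjTranspose_apply, MM_apply, MM_apply, KF_symm hK F y x]
  by_cases h : x = y
  · subst h; simp
  · rw [if_neg h, if_neg (Ne.symm h)]; simp

theorem AF_apply (K : X → X → ℝ) (v : X → ℝ) (F : Finset X) (u : F → ℂ) (U : X → ℂ)
    (hU : ∀ x : F, U x.1 = u x) (x : F) :
    (AF K v F).mulVec u x = ∑ y ∈ F, (K x.1 y : ℂ) * U y + (v x.1 : ℂ) * u x := by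
  have h : u = fun x : F => U x.1 := by funext x; rw [hU]
  unfold AF
  rw [h, MF_apply]
  rfl

/-- existence of the resolvent -/
theorem exists_resF {K : X → X → ℝ} (hK : ∀ x y, K x y = K y x) {nb : X → Finset X}
    (hnb : ∀ x y, K x y ≠ 0 → y ∈ nb x) {B : ℕ → Finset X} (hBm : Monotone B)
    (hBe : ∀ x, ∃ N, x ∈ B N) (v : X → ℝ) {g : X → ℂ} (hg : SqS g) {z : ℂ}
    (hz : z.im ≠ 0) (uN : ∀ N, B N → ℂ)
    (hN : ∀ N x, (AF K v (B N)).mulVec (uN N) x - z * uN N x = g x.1) :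
    ∃ u : X → ℂ, SqS u ∧ ∀ x, HK K nb v u x - z * u x = g x := by
  classical
  set G : ℝ := ∑' y, ‖g y‖ ^ 2 with hG
  have hz2 : 0 < z.im ^ 2 := by positivity
  set UN : ℕ → X → ℂ := fun N x => if h : x ∈ B N then uN N ⟨x, h⟩ else 0 with hUN
  have hUx : ∀ N (x : B N), UN N x.1 = uN N x := by
    intro N x
    simp only [hUN]
    rw [dif_pos x.2]
  have hb : ∀ N, ∑ x : B N, ‖uN N x‖ ^ 2 ≤ G / z.im ^ 2 := by
    intro N
    rw [le_div_iff₀ hz2, mul_comm]
    refine (res_bound _ (AF_herm hK v (B N)) hz (hN N)).trans ?_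
    rw [Finset.sum_coe_sort (B N) (fun x => ‖g x‖ ^ 2)]
    exact hg.sum_le_tsum _ fun _ _ => sq_nonneg _
  have hbU : ∀ N (S : Finset X), ∑ x ∈ S, ‖UN N x‖ ^ 2 ≤ G / z.im ^ 2 := by
    intro N S
    refine le_trans ?_ (hb N)
    calc ∑ x ∈ S, ‖UN N x‖ ^ 2 ≤ ∑ x ∈ S ∪ B N, ‖UN N x‖ ^ 2 :=
          Finset.sum_le_sum_of_subset_of_nonneg Finset.subset_union_left fun _ _ _ => sq_nonneg _
      _ = ∑ x ∈ B N, ‖UN N x‖ ^ 2 := by
          symm
          refine Finset.sum_subset Finset.subset_union_right fun x _ hx => ?_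
          simp only [hUN]
          rw [dif_neg hx]; simp
      _ = ∑ x : B N, ‖uN N x‖ ^ 2 := by
          rw [← Finset.sum_coe_sort (B N) (fun x => ‖UN N x‖ ^ 2)]
          exact Finset.sum_congr rfl fun x _ => by rw [hUx]
  set 𝒰 : Filter ℕ := (Filter.hyperfilter ℕ : Filter ℕ) with h𝒰
  have hle : 𝒰 ≤ atTop := by
    rw [← Nat.cofinite_eq_atTop]
    exact Filter.hyperfilter_le_cofinite
  set C : ℝ := Real.sqrt (G / z.im ^ 2) with hC
  have hpt : ∀ x, ∃ l : ℂ, Tendsto (fun N => UN N x) 𝒰 (𝓝 l) := by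
    intro x
    have h1 : ∀ N, UN N x ∈ Metric.closedBall (0 : ℂ) C := by
      intro N
      rw [mem_closedBall_zero_iff]
      refine Real.le_sqrt_of_sq_le ?_
      have := hbU N {x}
      simpa using this
    have h2 := (isCompact_closedBall (0 : ℂ) C).ultrafilter_le_nhds
      ((Filter.hyperfilter ℕ).map fun N => UN N x) (Filter.tendsto_principal.2 (Filter.Eventually.of_forall h1))
    obtain ⟨l, _, hl⟩ := h2
    exact ⟨l, hl⟩
  choose u hu using hpt
  refine ⟨u, ?_, fun x => ?_⟩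
  · refine summable_of_sum_le (c := G / z.im ^ 2) (fun _ => sq_nonneg _) fun S => ?_
    refine le_of_tendsto (x := 𝒰) (tendsto_finsetSum _ fun x _ => ((hu x).norm.pow 2)) ?_
    exact Filter.Eventually.of_forall fun N => hbU N S
  · have hev : ∀ y, ∀ᶠ N in 𝒰, y ∈ B N := by
      intro y
      refine hle ?_
      obtain ⟨N0, hN0⟩ := hBe y
      filter_upwards [eventually_ge_atTop N0] with N hN
      exact hBm hN hN0
    have h1 : Tendsto (fun N => ∑ y ∈ nb x, (K x y : ℂ) * UN N y + (v x : ℂ) * UN N x - z * UN N x)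
        𝒰 (𝓝 (HK K nb v u x - z * u x)) := by
      unfold HK
      refine Tendsto.sub (Tendsto.add (tendsto_finsetSum _ fun y _ =>
        (hu _).const_mul _) ((hu x).const_mul _)) ((hu x).const_mul _)
    have h2 : ∀ᶠ N in 𝒰, ∑ y ∈ nb x, (K x y : ℂ) * UN N y + (v x : ℂ) * UN N x - z * UN N x = g x := by
      filter_upwards [hev x] with N hx
      have h4 := hN N ⟨x, hx⟩
      rw [AF_apply K v (B N) (uN N) (UN N) (hUx N) ⟨x, hx⟩] at h4
      rw [← h4, ← hUx N ⟨x, hx⟩, split_sum hnb (B N) (UN N) x]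
      have h5 : bdF K nb (B N) (UN N) x = 0 := by
        unfold bdF
        refine Finset.sum_eq_zero fun y _ => ?_
        split_ifs with hy
        · rfl
        · simp only [hUN]
          rw [dif_neg hy, mul_zero]
      rw [h5, add_zero]
    exact tendsto_nhds_unique h1 ((tendsto_congr' h2).2 tendsto_const_nhds)

/-- convergence of the finite volume matrix elements -/
theorem res_tendstoF {K : X → X → ℝ} (hK : ∀ x y, K x y = K y x) {nb : X → Finset X}
    (hnb : ∀ x y, K x y ≠ 0 → y ∈ nb x) {D : ℝ} (hD0 : 0 ≤ D)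
    (hD : ∀ x, ∑ y ∈ nb x, |K x y| ≤ D) {B : ℕ → Finset X} (hB : Tendsto B atTop atTop)
    (v : X → ℝ) {g u : X → ℂ} (hg : SqS g)
    (hu : SqS u) {z : ℂ} (hz : z.im ≠ 0) (h : ∀ x, HK K nb v u x - z * u x = g x)
    (uN : ∀ N, B N → ℂ)
    (hN : ∀ N x, (AF K v (B N)).mulVec (uN N) x - z * uN N x = g x.1) :
    Tendsto (fun N => ∑ x : B N, (starRingEnd ℂ) (g x.1) * uN N x) atTop
      (𝓝 (∑' x, (starRingEnd ℂ) (g x) * u x)) := by
  have hsum : Summable fun x => (starRingEnd ℂ) (g x) * u x := by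
    refine Summable.of_norm_bounded (g := fun x => (‖g x‖ ^ 2 + ‖u x‖ ^ 2)) (hg.add hu) fun x => ?_
    rw [norm_mul, Complex.norm_conj]
    nlinarith [sq_nonneg (‖g x‖ - ‖u x‖), norm_nonneg (g x), norm_nonneg (u x)]
  have h1 : Tendsto (fun N => ∑ x ∈ B N, (starRingEnd ℂ) (g x) * u x) atTop
      (𝓝 (∑' x, (starRingEnd ℂ) (g x) * u x)) := hsum.hasSum.comp hB
  have hz2 : 0 < z.im ^ 2 := by positivity
  set τ : ℕ → ℝ := fun N => ∑' y, ‖u y‖ ^ 2 - ∑ y ∈ B N, ‖u y‖ ^ 2 with hτ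
  set G : ℝ := ∑' y, ‖g y‖ ^ 2 with hG
  have hG0 : 0 ≤ G := tsum_nonneg fun _ => sq_nonneg _
  have h2 : ∀ N, ‖∑ x : B N, (starRingEnd ℂ) (g x.1) * uN N x -
      ∑ x ∈ B N, (starRingEnd ℂ) (g x) * u x‖ ≤ Real.sqrt (G * (D ^ 2 * τ N / z.im ^ 2)) := by
    intro N
    have e2 : ∑ x ∈ B N, (starRingEnd ℂ) (g x) * u x =
        ∑ x : B N, (starRingEnd ℂ) (g x.1) * u x.1 :=
      (Finset.sum_coe_sort (B N) (fun x => (starRingEnd ℂ) (g x) * u x)).symm
    have e3 : ∀ x, (AF K v (B N)).mulVec (fun x => u x.1 - uN N x) x - z * (u x.1 - uN N x) =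
        -bdF K nb (B N) u x.1 := by
      intro x
      have e4 : (fun x : B N => u x.1 - uN N x) = (fun x => u x.1) - uN N := rfl
      rw [e4, Matrix.mulVec_sub, Pi.sub_apply]
      have e5 := hN N x
      have e6 := h x.1
      rw [AF_apply K v (B N) (fun x => u x.1) u (fun _ => rfl) x]
      unfold HK at e6
      rw [split_sum hnb (B N) u x.1] at e6
      linear_combination e6 - e5
    have e5 := res_bound _ (AF_herm hK v (B N)) hz e3
    have e6 : ∑ x : B N, ‖-bdF K nb (B N) u x.1‖ ^ 2 ≤ D ^ 2 * τ N := by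
      simp only [norm_neg]
      rw [Finset.sum_coe_sort (B N) (fun x => ‖bdF K nb (B N) u x‖ ^ 2)]
      exact bdF_le hK hnb hD0 hD hu (B N)
    have e7 : ∑ x : B N, ‖u x.1 - uN N x‖ ^ 2 ≤ D ^ 2 * τ N / z.im ^ 2 := by
      rw [le_div_iff₀ hz2]
      linarith
    have e8 : ∑ x : B N, ‖g x.1‖ ^ 2 ≤ G := by
      rw [Finset.sum_coe_sort (B N) (fun x => ‖g x‖ ^ 2)]
      exact hg.sum_le_tsum _ fun _ _ => sq_nonneg _
    rw [e2, ← Finset.sum_sub_distrib]
    refine Real.le_sqrt_of_sq_le ?_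
    have e9 : ‖∑ x : B N, ((starRingEnd ℂ) (g x.1) * uN N x - (starRingEnd ℂ) (g x.1) * u x.1)‖ ≤
        ∑ x : B N, ‖g x.1‖ * ‖u x.1 - uN N x‖ := by
      refine (norm_sum_le _ _).trans (Finset.sum_le_sum fun x _ => ?_)
      rw [← mul_sub, norm_mul, Complex.norm_conj, norm_sub_rev]
    refine (pow_le_pow_left₀ (norm_nonneg _) e9 2).trans ?_
    refine (Finset.sum_mul_sq_le_sq_mul_sq _ _ _).trans ?_
    exact mul_le_mul e8 e7 (Finset.sum_nonneg fun _ _ => sq_nonneg _) hG0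
  have h3 : Tendsto (fun N => Real.sqrt (G * (D ^ 2 * τ N / z.im ^ 2))) atTop (𝓝 0) := by
    have h4 : Tendsto τ atTop (𝓝 0) := tail_tendstoS hB hu
    have h5 : Tendsto (fun N => G * (D ^ 2 * τ N / z.im ^ 2)) atTop
        (𝓝 (G * (D ^ 2 * 0 / z.im ^ 2))) := ((h4.const_mul _).div_const _).const_mul _
    rw [mul_zero, zero_div, mul_zero] at h5
    have := (Real.continuous_sqrt.tendsto 0).comp h5
    rwa [Real.sqrt_zero] at this
  have h6 : Tendsto (fun N => ∑ x : B N, (starRingEnd ℂ) (g x.1) * uN N x -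
      ∑ x ∈ B N, (starRingEnd ℂ) (g x) * u x) atTop (𝓝 0) := squeeze_zero_norm h2 h3
  have := h6.add h1
  simpa using this

/-- **Existence of spectral measures.** -/
theorem exists_spF {K : X → X → ℝ} (hK : ∀ x y, K x y = K y x) {nb : X → Finset X}
    (hnb : ∀ x y, K x y ≠ 0 → y ∈ nb x) {D : ℝ} (hD0 : 0 ≤ D)
    (hD : ∀ x, ∑ y ∈ nb x, |K x y| ≤ D) {B : ℕ → Finset X} (hBm : Monotone B)
    (hBe : ∀ x, ∃ N, x ∈ B N) (v : X → ℝ) {g : X → ℂ} (hg : SqS g) :
    ∃ m : Measure ℝ, IsSpec (HK K nb v) g m := by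
  have hB : Tendsto B atTop atTop := tendsto_atTop_finset_of_monotone hBm hBe
  set G : ℝ := ∑' y, ‖g y‖ ^ 2 with hG
  have hG0 : 0 ≤ G := tsum_nonneg fun _ => sq_nonneg _
  choose lam w hw0 hws hres using fun N =>
    spec_full (AF K v (B N)) (AF_herm hK v (B N)) (fun x : B N => g x.1)
  have hmass : ∀ N, dmE (lam N) (w N) Set.univ ≤ ENNReal.ofReal G := by
    intro N
    rw [dmE_univ _ _ (hw0 N), hws N]
    refine ENNReal.ofReal_le_ofReal ?_
    rw [Finset.sum_coe_sort (B N) (fun x => ‖g x‖ ^ 2)]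
    exact hg.sum_le_tsum _ fun _ _ => sq_nonneg _
  have hfin : ∀ N, IsFiniteMeasure (dmE (lam N) (w N)) := fun N =>
    ⟨(hmass N).trans_lt ENNReal.ofReal_lt_top⟩
  obtain ⟨μ, hμ⟩ : ∃ μ : ℕ → FiniteMeasure EE, ∀ N, (μ N : Measure EE) = dmE (lam N) (w N) :=
    ⟨fun N => ⟨dmE (lam N) (w N), hfin N⟩, fun N => rfl⟩
  set 𝒰 : Filter ℕ := (Filter.hyperfilter ℕ : Filter ℕ) with h𝒰
  have hle : 𝒰 ≤ atTop := by
    rw [← Nat.cofinite_eq_atTop]
    exact Filter.hyperfilter_le_cofinite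
  obtain ⟨μ0, _, hμ0⟩ := (isCompact_setOfPred_finiteMeasure_le_of_compactSpace EE
    (Real.toNNReal G)).ultrafilter_le_nhds ((Filter.hyperfilter ℕ).map μ)
    (Filter.tendsto_principal.2 (Filter.Eventually.of_forall fun N => by
      change (μ N).mass ≤ Real.toNNReal G
      rw [← ENNReal.coe_le_coe, FiniteMeasure.ennreal_mass, hμ N]
      exact hmass N))
  have hμt : Tendsto μ 𝒰 (𝓝 μ0) := hμ0
  rw [FiniteMeasure.tendsto_iff_forall_integral_rclike_tendsto ℂ] at hμt
  -- the limit of the integrals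
  have hlim : ∀ z : ℂ, z.im ≠ 0 → Tendsto (fun N => ∑ j, (w N j : ℂ) * ((lam N j : ℂ) - z)⁻¹) 𝒰
      (𝓝 (∫ θ, FF z θ ∂(μ0 : Measure EE))) := by
    intro z hz
    have h1 := hμt (BoundedContinuousFunction.mkOfCompact ⟨FF z, FF_cont hz⟩)
    simp only [BoundedContinuousFunction.mkOfCompact_apply, ContinuousMap.coe_mk] at h1
    refine h1.congr fun N => ?_
    exact dm_lim (lam N) (w N) (hw0 N) hz (μ N : Measure EE) (fun F hF => by
      rw [hμ N]
      exact dmE_int _ _ (hw0 N) hF)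
  -- the measure on the line
  set Z : Set EE := {θ | Real.cos θ.1 ≠ 0} with hZ
  have hZm : MeasurableSet Z := by
    have h1 : Continuous fun θ : EE => Real.cos θ.1 := by fun_prop
    exact (measurableSet_singleton (0 : ℝ)).compl.preimage h1.measurable
  have htan : Measurable fun θ : EE => Real.tan θ.1 := by
    have h1 : (fun θ : EE => Real.tan θ.1) = fun θ : EE => Real.sin θ.1 / Real.cos θ.1 := by
      funext θ
      rw [Real.tan_eq_sin_div_cos]
    rw [h1]
    have h2 : Continuous fun θ : EE => Real.sin θ.1 := by fun_prop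
    have h3 : Continuous fun θ : EE => Real.cos θ.1 := by fun_prop
    exact h2.measurable.div h3.measurable
  refine ⟨((μ0 : Measure EE).restrict Z).map fun θ => Real.tan θ.1, inferInstance, fun z hz => ?_⟩
  choose uN huN1 huN2 using fun N => hres N z hz
  obtain ⟨u, hu, hueq⟩ := exists_resF hK hnb hBm hBe v hg hz uN huN1
  refine ⟨u, hu, hueq, ?_⟩
  have h1 := (res_tendstoF hK hnb hD0 hD hB v hg hu hz hueq uN huN1).mono_left hle
  have h2 : Tendsto (fun N => ∑ x : B N, (starRingEnd ℂ) (g x.1) * uN N x) 𝒰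
      (𝓝 (∫ θ, FF z θ ∂(μ0 : Measure EE))) := (hlim z hz).congr fun N => (huN2 N).symm
  have h3 := tendsto_nhds_unique h2 h1
  rw [← h3]
  have hcont : Continuous fun t : ℝ => ((t : ℂ) - z)⁻¹ := by
    refine Continuous.inv₀ (Complex.continuous_ofReal.sub continuous_const) fun t h0 => ?_
    have := congrArg Complex.im h0
    simp at this
    exact hz this
  rw [integral_map htan.aemeasurable hcont.aestronglyMeasurable]
  rw [← integral_indicator hZm]
  refine integral_congr_ae (Filter.Eventually.of_forall fun θ => ?_)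
  by_cases hθ : θ ∈ Z
  · rw [Set.indicator_of_mem hθ, FF_tan hz θ hθ]
  · rw [Set.indicator_of_notMem hθ, FF_zero z θ (not_not.1 hθ)]

end Ex

/-- **M8.** -/
theorem stEx : StEx := by
  intro X _ _ K nb hK hnb D hD v g hg
  obtain ⟨B, hBm, hBe⟩ := exists_exh X
  exact exists_spF hK hnb (le_max_right D 0) (fun x => (hD x).trans (le_max_left _ _)) hBm hBe v hg

end Pool.Agent.L0h56.SL
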