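import Pool.Agent.L0h56.SL.Env

/-!
Mixing two independent configurations.
-/

set_option autoImplicit false
set_option linter.unusedSectionVars false
set_option linter.unusedVariables false

open scoped BigOperators Topology
open Complex MeasureTheory Pool.Agent.L0h56.CS

namespace Pool.Agent.L0h56.SL.M

variable {ι : Type} [Fintype ι] [DecidableEq ι]

theorem meas_mix_of {Ω : Type*} [MeasurableSpace Ω] (B : Finset ι) {f g : Ω → ι → ℝ}
    (hf : Measurable f) (hg : Measurable g) : Measurable fun z => mix B (f z) (g z) := by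
  refine measurable_pi_iff.2 fun x => ?_
  unfold mix
  by_cases h : x ∈ B
  · simp only [h, if_true]
    exact (measurable_pi_apply x).comp hf
  · simp only [h, if_false]
    exact (measurable_pi_apply x).comp hg

theorem PI_prob {c : ℝ} (hc : 0 < c) : IsProbabilityMeasure (PI c ι) := by
  have := unif_prob c hc
  infer_instance

theorem mp_mix {c : ℝ} (hc : 0 < c) (B : Finset ι) :
    MeasurePreserving (fun z : (ι → ℝ) × (ι → ℝ) => mix B z.1 z.2) ((PI c ι).prod (PI c ι))
      (PI c ι) := by
  have := unif_prob c hc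
  have h1 := (measurePreserving_arrowProdEquivProdArrow ℝ ℝ ι (fun _ => unif c) (fun _ => unif c)).symm
  have h2 : MeasurePreserving (fun (z : ι → ℝ × ℝ) (i : ι) => (if i ∈ B then (z i).1 else (z i).2))
      (Measure.pi fun _ : ι => (unif c).prod (unif c)) (Measure.pi fun _ : ι => unif c) := by
    refine measurePreserving_pi (fun _ : ι => (unif c).prod (unif c)) (fun _ : ι => unif c)
      (f := fun i (p : ℝ × ℝ) => if i ∈ B then p.1 else p.2) fun i => ?_
    by_cases h : i ∈ B
    · simp only [h, if_true]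
      exact measurePreserving_fst
    · simp only [h, if_false]
      exact measurePreserving_snd
  exact h2.comp h1

theorem int_mix {E : Type*} [NormedAddCommGroup E] [NormedSpace ℝ E] [MeasurableSpace E]
    [BorelSpace E] [SecondCountableTopology E] {c : ℝ} (hc : 0 < c) (B : Finset ι)
    {f : (ι → ℝ) → E} (hf : Measurable f) {M : ℝ} (hM : ∀ ω, ‖f ω‖ ≤ M) :
    ∫ ω, ∫ ω', f (mix B ω ω') ∂(PI c ι) ∂(PI c ι) = ∫ ω, f ω ∂(PI c ι) := by
  have hP := PI_prob (ι := ι) hc
  have h := mp_mix (ι := ι) hc B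
  have hint : Integrable (fun z : (ι → ℝ) × (ι → ℝ) => f (mix B z.1 z.2))
      ((PI c ι).prod (PI c ι)) :=
    Integrable.of_bound (hf.comp h.measurable).aestronglyMeasurable M
      (Filter.Eventually.of_forall fun z => hM _)
  rw [← integral_prod _ hint]
  conv_rhs => rw [← h.map_eq]
  exact (integral_map h.measurable.aemeasurable hf.aestronglyMeasurable).symm

theorem int_mix3 {E : Type*} [NormedAddCommGroup E] [NormedSpace ℝ E] [MeasurableSpace E]
    [BorelSpace E] [SecondCountableTopology E] {c : ℝ} (hc : 0 < c) (B C : Finset ι)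
    {f : (ι → ℝ) → E} (hf : Measurable f) {M : ℝ} (hM : ∀ ω, ‖f ω‖ ≤ M) :
    ∫ ω₁, ∫ ω₂, ∫ ω₃, f (mix B ω₁ (mix C ω₂ ω₃)) ∂(PI c ι) ∂(PI c ι) ∂(PI c ι) =
      ∫ ω, f ω ∂(PI c ι) := by
  rw [← int_mix hc B hf hM]
  refine integral_congr_ae (Filter.Eventually.of_forall fun ω₁ => ?_)
  exact int_mix hc C (f := fun ω' => f (mix B ω₁ ω'))
    (hf.comp (meas_mix_of B measurable_const measurable_id)) fun ω => hM _

end Pool.Agent.L0h56.SL.M
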