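import Pool.Agent.L0h56.SL.Ci

/-!
The pointwise bound of the reflection defect by the derivatives in the slab.
-/

set_option autoImplicit false
set_option linter.unusedSectionVars false
set_option linter.unusedVariables false

open scoped BigOperators Topology
open Complex MeasureTheory Pool.Agent.L0h56.CS

namespace Pool.Agent.L0h56.SL.M

variable {ι : Type} [Fintype ι] [DecidableEq ι]

theorem col_eq {K : ι → ι → ℝ} (hK : ∀ x y, K x y = K y x) {p : ι → ℂ} (hp : ∀ x, (p x).im < 0)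
    (a : ι) : (MM K p).mulVec (fun x => Gr K p x a) = Pi.single a 1 := by
  have h := mul_Gr hK hp
  funext x
  have h1 := congrFun (congrFun h x) a
  rw [Matrix.mul_apply, Matrix.one_apply] at h1
  rw [Matrix.mulVec, dotProduct, h1, Pi.single_apply]

/-- the equation of the difference of two columns -/
theorem diff_eq {K : ι → ι → ℝ} (hK : ∀ x y, K x y = K y x) {p q : ι → ℂ} (hp : ∀ x, (p x).im < 0)
    (hq : ∀ x, (q x).im < 0) (a : ι) :
    (MM K p).mulVec (fun x => Gr K q x a - Gr K p x a) = fun x => (p x - q x) * Gr K q x a := by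
  have h1 := col_eq hK hp a
  have h2 := col_eq hK hq a
  funext x
  have e1 := congrFun h1 x
  have e2 := congrFun h2 x
  rw [Matrix.mulVec, dotProduct] at e1 e2 ⊢
  have e3 : ∑ y, MM K p x y * (Gr K q y a - Gr K p y a) =
      ∑ y, MM K p x y * Gr K q y a - ∑ y, MM K p x y * Gr K p y a := by
    rw [← Finset.sum_sub_distrib]
    exact Finset.sum_congr rfl fun y _ => by ring
  have e4 : ∑ y, MM K p x y * Gr K q y a = ∑ y, MM K q x y * Gr K q y a +
      (p x - q x) * Gr K q x a := by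
    have : ∀ y, MM K p x y * Gr K q y a = MM K q x y * Gr K q y a +
        (if x = y then (p x - q x) * Gr K q x a else 0) := by
      intro y
      rw [MM_apply, MM_apply]
      by_cases h : x = y
      · subst h
        simp only [if_true]
        ring
      · simp only [if_neg h]
        ring
    rw [Finset.sum_congr rfl fun y _ => this y, Finset.sum_add_distrib]
    simp
  rw [e3, e1, e4, e2]
  ring

section

variable {K : ι → ι → ℝ} (hK : ∀ x y, K x y = K y x) {V : ι → ℝ} {c η : ℝ} (hη : 0 < η) (hc : 0 < c)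
  {a : ι} {B S : Finset ι} (hBS : Disjoint B S) (ha : a ∈ B) {D : ℝ} (hD0 : 0 < D)
  (hD : ∀ x, ∑ y, |K x y| ≤ D) {L : ℝ} (hL : 0 < L) {v0 : ℝ} (hv0 : 0 < v0) {m : ℕ} {d : ι → ℕ}
  {ω₁ ω₂ : ι → ℝ} (hd : IsLev K B S c v0 ω₂ m d)

/-- the configuration -/
def Cf (B S : Finset ι) (ω₁ ω₂ w : ι → ℝ) : ι → ℝ := mix B ω₁ (mix (B ∪ S) ω₂ w)

theorem Cf_S {x : ι} (hBS : Disjoint B S) (hx : x ∈ S) (w : ι → ℝ) : Cf B S ω₁ ω₂ w x = ω₂ x := by
  have hxB : x ∉ B := fun h => Finset.disjoint_left.1 hBS h hx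
  unfold Cf mix
  simp only [hxB, if_false, Finset.mem_union_right B hx, if_true]

theorem Cf_in {x : ι} (hx : x ∈ B ∪ S) (w w' : ι → ℝ) : Cf B S ω₁ ω₂ w x = Cf B S ω₁ ω₂ w' x := by
  unfold Cf mix
  by_cases h : x ∈ B
  · simp only [h, if_true]
  · simp only [h, if_false, hx, if_true]

include hK hη hc hBS ha hD0 hD hL hv0 hd

theorem lev_in {x : ι} (hx : d x ≤ m) : x ∈ B ∪ S := by
  by_contra h
  rw [Finset.mem_union, not_or] at h
  have := hd.outer x h.1 h.2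
  omega

theorem T_bound (w : ι → ℝ) :
    ∑ x ∈ S.filter (fun x => v0 ≤ vf c (ω₂ x)), L * v0 *
      ‖Gc K V c η a (Cf B S ω₁ ω₂ w) (T0 S L) x‖ ^ 2 ≤ 1 / 4 := by
  refine le_trans ?_ (sum_le hK (V := V) (c := c) hη a (T0_im (S := S) hL.le) (Cf B S ω₁ ω₂ w))
  calc _ ≤ ∑ x ∈ S.filter (fun x => v0 ≤ vf c (ω₂ x)),
        (-(T0 S L x).im * vf c (Cf B S ω₁ ω₂ w x) + η) *
          ‖Gc K V c η a (Cf B S ω₁ ω₂ w) (T0 S L) x‖ ^ 2 := by
        refine Finset.sum_le_sum fun x hx => ?_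
        rw [Finset.mem_filter] at hx
        refine mul_le_mul_of_nonneg_right ?_ (sq_nonneg _)
        rw [Cf_S hBS hx.1]
        unfold T0
        rw [if_pos hx.1]
        have : -(-(I * (L : ℂ))).im = L := by simp
        rw [this]
        nlinarith [hx.2]
    _ ≤ _ := by
        refine Finset.sum_le_sum_of_subset_of_nonneg (Finset.subset_univ _) fun x _ _ => ?_
        exact mul_nonneg (abs_pos' hη (T0_im hL.le) x).le (sq_nonneg _)

theorem step_gd : ∀ x y, K x y ≠ 0 → d x ≠ d y → d y ≤ d x + 1 ∧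
    x ∈ S.filter (fun x => v0 ≤ vf c (ω₂ x)) := by
  intro x y h1 h2
  obtain ⟨h3, h4, h5⟩ := hd.step x y h1 h2
  exact ⟨h3, Finset.mem_filter.2 ⟨h4, h5⟩⟩

theorem gd_le (w : ι → ℝ) : ∀ x ∈ S.filter (fun x => v0 ≤ vf c (ω₂ x)),
    L * v0 ≤ -(dd V c η a (Cf B S ω₁ ω₂ w) (T0 S L) x).im := by
  intro x hx
  rw [Finset.mem_filter] at hx
  rw [im_dd, Cf_S hBS hx.1]
  unfold T0
  rw [if_pos hx.1]
  have : -(-(I * (L : ℂ))).im = L := by simp
  rw [this]
  have h3 : (0 : ℝ) ≤ (if x = a then 1 else 0) := by split_ifs <;> norm_num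
  nlinarith [hx.2]

theorem out_small (w : ι → ℝ) :
    ∑ x ∈ Finset.univ.filter (fun x => m / 2 < d x),
      (-(dd V c η a (Cf B S ω₁ ω₂ w) (T0 S L) x).im) *
        ‖Gc K V c η a (Cf B S ω₁ ω₂ w) (T0 S L) x‖ ^ 2 ≤ att D L v0 m := by
  have hp := dd_neg V (c := c) hη a (Cf B S ω₁ ω₂ w) (T0_im (S := S) hL.le)
  have hρ : 0 < L * v0 := mul_pos hL hv0
  have h := att_out hK hD0 hD (step_gd hK hη hc hBS ha hD0 hD hL hv0 hd) hp hρ
    (gd_le hK hη hc hBS ha hD0 hD hL hv0 hd w) (col_eq hK hp a)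
    (fun x hx => by
      rw [Pi.single_apply, if_neg]
      rintro rfl
      have := hd.inner x ha
      omega) (T_bound (V := V) hK hη hc hBS ha hD0 hD hL hv0 hd w) (m / 2)
  refine le_trans h ?_
  unfold att
  have h1 : m / 2 / 2 = m / 4 := by omega
  rw [h1]
  have h2 : 0 ≤ ((1 + 2 * (L * v0) / D) ^ (m / 4))⁻¹ := by positivity
  have h3 : D / (2 * (L * v0)) * ((1 + 2 * (L * v0) / D) ^ (m / 4))⁻¹ * (1 / 4) =
      D / (L * v0) * ((1 + 2 * (L * v0) / D) ^ (m / 4))⁻¹ * (1 / 8) := by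
    field_simp
    ring
  rw [h3]
  have h4 : 0 ≤ D / (L * v0) * ((1 + 2 * (L * v0) / D) ^ (m / 4))⁻¹ := by positivity
  linarith

theorem in_small (w w' : ι → ℝ) :
    ∑ x ∈ Finset.univ.filter (fun x => d x ≤ m / 2),
      (-(dd V c η a (Cf B S ω₁ ω₂ w) (T0 S L) x).im) *
        ‖Gc K V c η a (Cf B S ω₁ ω₂ w') (T0 S L) x -
          Gc K V c η a (Cf B S ω₁ ω₂ w) (T0 S L) x‖ ^ 2 ≤ att D L v0 m := by
  have hp := dd_neg V (c := c) hη a (Cf B S ω₁ ω₂ w) (T0_im (S := S) hL.le)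
  have hq := dd_neg V (c := c) hη a (Cf B S ω₁ ω₂ w') (T0_im (S := S) hL.le)
  have hρ : 0 < L * v0 := mul_pos hL hv0
  have hT : ∑ x ∈ S.filter (fun x => v0 ≤ vf c (ω₂ x)), L * v0 *
      ‖Gc K V c η a (Cf B S ω₁ ω₂ w') (T0 S L) x -
          Gc K V c η a (Cf B S ω₁ ω₂ w) (T0 S L) x‖ ^ 2 ≤ 1 := by
    have t1 := T_bound (V := V) (ω₁ := ω₁) hK hη hc hBS ha hD0 hD hL hv0 hd w
    have t2 := T_bound (V := V) (ω₁ := ω₁) hK hη hc hBS ha hD0 hD hL hv0 hd w'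
    calc _ ≤ ∑ x ∈ S.filter (fun x => v0 ≤ vf c (ω₂ x)),
          (2 * (L * v0 * ‖Gc K V c η a (Cf B S ω₁ ω₂ w') (T0 S L) x‖ ^ 2) +
            2 * (L * v0 * ‖Gc K V c η a (Cf B S ω₁ ω₂ w) (T0 S L) x‖ ^ 2)) := by
          refine Finset.sum_le_sum fun x _ => ?_
          set g := Gc K V c η a (Cf B S ω₁ ω₂ w') (T0 S L) x
          set g' := Gc K V c η a (Cf B S ω₁ ω₂ w) (T0 S L) x
          have h1 := norm_sub_le g g'
          have h2 : ‖g - g'‖ ^ 2 ≤ 2 * ‖g‖ ^ 2 + 2 * ‖g'‖ ^ 2 := by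
            nlinarith [norm_nonneg (g - g'), norm_nonneg g, norm_nonneg g', sq_nonneg (‖g‖ - ‖g'‖)]
          calc L * v0 * ‖g - g'‖ ^ 2 ≤ L * v0 * (2 * ‖g‖ ^ 2 + 2 * ‖g'‖ ^ 2) :=
                mul_le_mul_of_nonneg_left h2 hρ.le
            _ = _ := by ring
      _ = 2 * ∑ x ∈ S.filter (fun x => v0 ≤ vf c (ω₂ x)),
            L * v0 * ‖Gc K V c η a (Cf B S ω₁ ω₂ w') (T0 S L) x‖ ^ 2 +
          2 * ∑ x ∈ S.filter (fun x => v0 ≤ vf c (ω₂ x)),
            L * v0 * ‖Gc K V c η a (Cf B S ω₁ ω₂ w) (T0 S L) x‖ ^ 2 := by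
          rw [Finset.sum_add_distrib, Finset.mul_sum, Finset.mul_sum]
      _ ≤ 1 := by linarith
  have h := att_in hK hD0 hD (step_gd hK hη hc hBS ha hD0 hD hL hv0 hd) hp hρ
    (gd_le hK hη hc hBS ha hD0 hD hL hv0 hd w) (diff_eq hK hp hq a) (m := m)
    (fun x hx => by
      have h1 := lev_in hK hη hc hBS ha hD0 hD hL hv0 hd hx
      have h2 : dd V c η a (Cf B S ω₁ ω₂ w) (T0 S L) x = dd V c η a (Cf B S ω₁ ω₂ w') (T0 S L) x := by
        unfold dd
        rw [Cf_in h1 w w']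
      rw [h2, sub_self, zero_mul]) hT (m / 2) (m / 4) (by omega)
  refine le_trans h ?_
  unfold att
  have h3 : D / (2 * (L * v0)) * ((1 + 2 * (L * v0) / D) ^ (m / 4))⁻¹ * 1 =
      D / (L * v0) * ((1 + 2 * (L * v0) / D) ^ (m / 4))⁻¹ * (1 / 2) := by
    field_simp
  rw [h3]
  have h4 : 0 ≤ D / (L * v0) * ((1 + 2 * (L * v0) / D) ^ (m / 4))⁻¹ := by positivity
  linarith

omit hc hD0 hD hv0 in
theorem Rc_diff_le (w w' : ι → ℝ) {A : ℝ} (hA : ∑ x ∈ Finset.univ.filter (fun x => d x ≤ m / 2),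
      (-(dd V c η a (Cf B S ω₁ ω₂ w) (T0 S L) x).im) *
        ‖Gc K V c η a (Cf B S ω₁ ω₂ w') (T0 S L) x -
          Gc K V c η a (Cf B S ω₁ ω₂ w) (T0 S L) x‖ ^ 2 ≤ A) :
    ‖Rc K V c η a (Cf B S ω₁ ω₂ w') (T0 S L) - Rc K V c η a (Cf B S ω₁ ω₂ w) (T0 S L)‖ ≤
      2 * Real.sqrt A := by
  set g := Gc K V c η a (Cf B S ω₁ ω₂ w') (T0 S L) a with hg
  set g' := Gc K V c η a (Cf B S ω₁ ω₂ w) (T0 S L) a with hg'
  have h1 : ‖g - g'‖ ^ 2 ≤ A := by
    refine le_trans ?_ hA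
    have ha0 : a ∈ Finset.univ.filter (fun x => d x ≤ m / 2) := by
      rw [Finset.mem_filter]
      refine ⟨Finset.mem_univ _, ?_⟩
      rw [hd.inner a ha]
      exact Nat.zero_le _
    refine le_trans ?_ (Finset.single_le_sum (f := fun x =>
      (-(dd V c η a (Cf B S ω₁ ω₂ w) (T0 S L) x).im) *
        ‖Gc K V c η a (Cf B S ω₁ ω₂ w') (T0 S L) x -
          Gc K V c η a (Cf B S ω₁ ω₂ w) (T0 S L) x‖ ^ 2) (fun x _ => ?_) ha0)
    · rw [im_dd, if_pos rfl]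
      have h2 := abs_pos' (c := c) hη (ω := Cf B S ω₁ ω₂ w) (T0_im (S := S) hL.le) a
      have h3 := sq_nonneg ‖g - g'‖
      show ‖g - g'‖ ^ 2 ≤ _ * ‖g - g'‖ ^ 2
      nlinarith
    · have := dd_neg V (c := c) hη a (Cf B S ω₁ ω₂ w) (T0_im (S := S) hL.le) x
      exact mul_nonneg (by linarith) (sq_nonneg _)
  have h2 : ‖g - g'‖ ≤ Real.sqrt A := Real.le_sqrt_of_sq_le h1
  have e : Rc K V c η a (Cf B S ω₁ ω₂ w') (T0 S L) - Rc K V c η a (Cf B S ω₁ ω₂ w) (T0 S L) =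
      2 * I * (g - g') := by
    unfold Rc
    ring
  rw [e, norm_mul, norm_mul, Complex.norm_I, Complex.norm_ofNat, mul_one]
  linarith

omit hc ha hD0 hD hv0 in
theorem bb_diff_le (w w' : ι → ℝ) {A : ℝ} (hA : ∑ x ∈ Finset.univ.filter (fun x => d x ≤ m / 2),
      (-(dd V c η a (Cf B S ω₁ ω₂ w) (T0 S L) x).im) *
        ‖Gc K V c η a (Cf B S ω₁ ω₂ w') (T0 S L) x -
          Gc K V c η a (Cf B S ω₁ ω₂ w) (T0 S L) x‖ ^ 2 ≤ A) :
    ∑ x ∈ S.filter (fun x => d x ≤ m / 2),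
      ‖-(2 * I) * (L : ℂ) * (vf c (ω₂ x) : ℂ) * Gc K V c η a (Cf B S ω₁ ω₂ w') (T0 S L) x ^ 2 -
        -(2 * I) * (L : ℂ) * (vf c (ω₂ x) : ℂ) * Gc K V c η a (Cf B S ω₁ ω₂ w) (T0 S L) x ^ 2‖ ≤
      2 * Real.sqrt A := by
  set g : ι → ℂ := fun x => Gc K V c η a (Cf B S ω₁ ω₂ w') (T0 S L) x with hg
  set g' : ι → ℂ := fun x => Gc K V c η a (Cf B S ω₁ ω₂ w) (T0 S L) x with hg'
  have hv : ∀ x, 0 ≤ L * vf c (ω₂ x) := fun x => mul_nonneg hL.le (vf_nonneg _ _)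
  have hSin : ∀ x ∈ S, ∀ w : ι → ℝ, L * vf c (ω₂ x) ≤
      -(T0 S L x).im * vf c (Cf B S ω₁ ω₂ w x) + η := by
    intro x hx w
    rw [Cf_S hBS hx]
    unfold T0
    rw [if_pos hx]
    have : -(-(I * (L : ℂ))).im = L := by simp
    rw [this]
    linarith
  have h1 : ∑ x ∈ S.filter (fun x => d x ≤ m / 2), L * vf c (ω₂ x) * ‖g x - g' x‖ ^ 2 ≤ A := by
    refine le_trans ?_ hA
    calc _ ≤ ∑ x ∈ S.filter (fun x => d x ≤ m / 2),
          (-(dd V c η a (Cf B S ω₁ ω₂ w) (T0 S L) x).im) * ‖g x - g' x‖ ^ 2 := by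
          refine Finset.sum_le_sum fun x hx => mul_le_mul_of_nonneg_right ?_ (sq_nonneg _)
          rw [im_dd]
          have h3 : (0 : ℝ) ≤ (if x = a then 1 else 0) := by split_ifs <;> norm_num
          have := hSin x (Finset.mem_filter.1 hx).1 w
          linarith
      _ ≤ _ := by
          refine Finset.sum_le_sum_of_subset_of_nonneg (fun x hx => ?_) fun x _ _ => ?_
          · rw [Finset.mem_filter] at hx ⊢
            exact ⟨Finset.mem_univ _, hx.2⟩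
          · have := dd_neg V (c := c) hη a (Cf B S ω₁ ω₂ w) (T0_im (S := S) hL.le) x
            exact mul_nonneg (by linarith) (sq_nonneg _)
  have hS4 : ∀ w : ι → ℝ, ∑ x ∈ S.filter (fun x => d x ≤ m / 2), L * vf c (ω₂ x) *
      ‖Gc K V c η a (Cf B S ω₁ ω₂ w) (T0 S L) x‖ ^ 2 ≤ 1 / 4 := by
    intro w
    refine le_trans ?_ (sum_le hK (V := V) (c := c) hη a (T0_im (S := S) hL.le) (Cf B S ω₁ ω₂ w))
    calc _ ≤ ∑ x ∈ S.filter (fun x => d x ≤ m / 2),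
          (-(T0 S L x).im * vf c (Cf B S ω₁ ω₂ w x) + η) *
            ‖Gc K V c η a (Cf B S ω₁ ω₂ w) (T0 S L) x‖ ^ 2 := by
          refine Finset.sum_le_sum fun x hx => mul_le_mul_of_nonneg_right ?_ (sq_nonneg _)
          exact hSin x (Finset.mem_filter.1 hx).1 w
      _ ≤ _ := by
          refine Finset.sum_le_sum_of_subset_of_nonneg (Finset.subset_univ _) fun x _ _ => ?_
          exact mul_nonneg (abs_pos' hη (T0_im hL.le) x).le (sq_nonneg _)
  have h2 : ∑ x ∈ S.filter (fun x => d x ≤ m / 2), L * vf c (ω₂ x) * ‖g x + g' x‖ ^ 2 ≤ 1 := by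
    have t1 := hS4 w
    have t2 := hS4 w'
    calc _ ≤ ∑ x ∈ S.filter (fun x => d x ≤ m / 2), (2 * (L * vf c (ω₂ x) * ‖g x‖ ^ 2) +
            2 * (L * vf c (ω₂ x) * ‖g' x‖ ^ 2)) := by
          refine Finset.sum_le_sum fun x _ => ?_
          have h1 := norm_add_le (g x) (g' x)
          have h2 : ‖g x + g' x‖ ^ 2 ≤ 2 * ‖g x‖ ^ 2 + 2 * ‖g' x‖ ^ 2 := by
            nlinarith [norm_nonneg (g x + g' x), norm_nonneg (g x), norm_nonneg (g' x),
              sq_nonneg (‖g x‖ - ‖g' x‖)]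
          calc L * vf c (ω₂ x) * ‖g x + g' x‖ ^ 2
              ≤ L * vf c (ω₂ x) * (2 * ‖g x‖ ^ 2 + 2 * ‖g' x‖ ^ 2) :=
                mul_le_mul_of_nonneg_left h2 (hv x)
            _ = _ := by ring
      _ = 2 * ∑ x ∈ S.filter (fun x => d x ≤ m / 2), L * vf c (ω₂ x) * ‖g x‖ ^ 2 +
          2 * ∑ x ∈ S.filter (fun x => d x ≤ m / 2), L * vf c (ω₂ x) * ‖g' x‖ ^ 2 := by
          rw [Finset.sum_add_distrib, Finset.mul_sum, Finset.mul_sum]
      _ ≤ 1 := by linarith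
  have e : ∀ x, ‖-(2 * I) * (L : ℂ) * (vf c (ω₂ x) : ℂ) * g x ^ 2 -
        -(2 * I) * (L : ℂ) * (vf c (ω₂ x) : ℂ) * g' x ^ 2‖ =
      2 * ((Real.sqrt (L * vf c (ω₂ x)) * ‖g x - g' x‖) *
        (Real.sqrt (L * vf c (ω₂ x)) * ‖g x + g' x‖)) := by
    intro x
    have e1 : -(2 * I) * (L : ℂ) * (vf c (ω₂ x) : ℂ) * g x ^ 2 -
        -(2 * I) * (L : ℂ) * (vf c (ω₂ x) : ℂ) * g' x ^ 2 =
        -(2 * I) * ((L * vf c (ω₂ x) : ℝ) : ℂ) * ((g x - g' x) * (g x + g' x)) := by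
      push_cast
      ring
    rw [e1, norm_mul, norm_mul, norm_neg, norm_mul, Complex.norm_I, Complex.norm_ofNat,
      Complex.norm_real, Real.norm_of_nonneg (hv x), norm_mul]
    have h3 := Real.mul_self_sqrt (hv x)
    linear_combination (-(2 * ‖g x - g' x‖ * ‖g x + g' x‖)) * h3
  have hA0 : 0 ≤ A := le_trans (Finset.sum_nonneg fun x _ => mul_nonneg (hv x) (sq_nonneg _)) h1
  rw [Finset.sum_congr rfl fun x _ => e x, ← Finset.mul_sum]
  refine mul_le_mul_of_nonneg_left ?_ (by norm_num)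
  refine Real.le_sqrt_of_sq_le ?_
  refine (Finset.sum_mul_sq_le_sq_mul_sq _ _ _).trans ?_
  have e2 : ∀ x, (Real.sqrt (L * vf c (ω₂ x)) * ‖g x - g' x‖) ^ 2 =
      L * vf c (ω₂ x) * ‖g x - g' x‖ ^ 2 := fun x => by rw [mul_pow, Real.sq_sqrt (hv x)]
  have e3 : ∀ x, (Real.sqrt (L * vf c (ω₂ x)) * ‖g x + g' x‖) ^ 2 =
      L * vf c (ω₂ x) * ‖g x + g' x‖ ^ 2 := fun x => by rw [mul_pow, Real.sq_sqrt (hv x)]
  simp only [e2, e3]
  calc _ ≤ A * 1 := mul_le_mul h1 h2 (Finset.sum_nonneg fun x _ => mul_nonneg (hv x) (sq_nonneg _)) hA0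
    _ = A := mul_one A

/-- **The pointwise bound.** -/
theorem pt_bound (w : ι → ℝ) :
    1 - ‖cz K V c η a B ω₁‖ ^ 2 ≤ 2 * ∑ x ∈ S, ‖bb K V c η a B S L x ω₁ ω₂‖ +
      2 * ‖Ph K V c η a B S (T0 S L) ω₁ ω₂ - cz K V c η a B ω₁‖ + 8 * Real.sqrt (att D L v0 m) +
      4 * att D L v0 m +
      4 * η * ∑ x ∈ B ∪ S, ‖Gc K V c η a (Cf B S ω₁ ω₂ w) (T0 S L) x‖ ^ 2 := by
  have hP := PI_prob (ι := ι) hc
  have hA0 : 0 ≤ att D L v0 m := by unfold att; positivity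
  set A := att D L v0 m with hA
  have hCm : Measurable (Cf B S ω₁ ω₂) := meas_mix_of B measurable_const
    (meas_mix_of (B ∪ S) measurable_const measurable_id)
  have hin := fun w' => in_small (V := V) (ω₁ := ω₁) hK hη hc hBS ha hD0 hD hL hv0 hd w w'
  -- the reflection amplitude
  have hR : ‖Ph K V c η a B S (T0 S L) ω₁ ω₂ - Rc K V c η a (Cf B S ω₁ ω₂ w) (T0 S L)‖ ≤
      2 * Real.sqrt A := by
    have hi : Integrable (fun w' => Rc K V c η a (Cf B S ω₁ ω₂ w') (T0 S L)) (PI c ι) := by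
      refine Integrable.of_bound ?_ 1
        (Filter.Eventually.of_forall fun w' => Rc_le hK hη a (T0_im hL.le) _)
      exact (meas_Rc K V c η a (w := Cf B S ω₁ ω₂) (fun x => (measurable_pi_apply x).comp hCm)
        (t := fun _ => T0 S L) fun x => measurable_const).aestronglyMeasurable
    have e : Ph K V c η a B S (T0 S L) ω₁ ω₂ - Rc K V c η a (Cf B S ω₁ ω₂ w) (T0 S L) =
        ∫ w', (Rc K V c η a (Cf B S ω₁ ω₂ w') (T0 S L) -
          Rc K V c η a (Cf B S ω₁ ω₂ w) (T0 S L)) ∂(PI c ι) := by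
      rw [integral_sub hi (integrable_const _), integral_const]
      simp only [probReal_univ, one_smul]
      rfl
    rw [e]
    have h := norm_integral_le_of_norm_le_const (μ := PI c ι)
      (f := fun w' => Rc K V c η a (Cf B S ω₁ ω₂ w') (T0 S L) -
          Rc K V c η a (Cf B S ω₁ ω₂ w) (T0 S L)) (C := 2 * Real.sqrt A)
      (Filter.Eventually.of_forall fun w' =>
        Rc_diff_le hK hη hBS ha hL hd w w' (hin w'))
    simpa using h
  -- the derivatives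
  set β : (ι → ℝ) → ι → ℂ := fun w' x => -(2 * I) * (L : ℂ) * (vf c (ω₂ x) : ℂ) *
    Gc K V c η a (Cf B S ω₁ ω₂ w') (T0 S L) x ^ 2 with hβ
  have hβm : ∀ x, Measurable fun w' => β w' x := fun x =>
    ((meas_Gc K V c η a (w := Cf B S ω₁ ω₂) (fun x => (measurable_pi_apply x).comp hCm)
        (t := fun _ => T0 S L) (fun x => measurable_const) x).pow_const 2).const_mul _
  have hβb : ∀ x w', ‖β w' x‖ ≤ ‖-(2 * I) * (L : ℂ) * (vf c (ω₂ x) : ℂ)‖ * (1 / (4 * η)) := by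
    intro x w'
    rw [hβ]
    dsimp only
    rw [norm_mul, norm_pow]
    exact mul_le_mul_of_nonneg_left (eta_sq_le hK hη a (T0_im hL.le) _ x) (norm_nonneg _)
  have hβi : ∀ x, Integrable (fun w' => β w' x) (PI c ι) := fun x =>
    Integrable.of_bound (hβm x).aestronglyMeasurable _ (Filter.Eventually.of_forall (hβb x))
  have hb : ∑ x ∈ S.filter (fun x => d x ≤ m / 2), ‖bb K V c η a B S L x ω₁ ω₂ - β w x‖ ≤
      2 * Real.sqrt A := by
    have e : ∀ x, bb K V c η a B S L x ω₁ ω₂ - β w x = ∫ w', (β w' x - β w x) ∂(PI c ι) := by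
      intro x
      rw [integral_sub (hβi x) (integrable_const _), integral_const]
      simp only [probReal_univ, one_smul]
      rfl
    have hi : ∀ x, Integrable (fun w' => ‖β w' x - β w x‖) (PI c ι) := fun x =>
      ((hβi x).sub (integrable_const _)).norm
    calc _ ≤ ∑ x ∈ S.filter (fun x => d x ≤ m / 2), ∫ w', ‖β w' x - β w x‖ ∂(PI c ι) := by
          refine Finset.sum_le_sum fun x _ => ?_
          rw [e x]
          exact norm_integral_le_integral_norm _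
      _ = ∫ w', ∑ x ∈ S.filter (fun x => d x ≤ m / 2), ‖β w' x - β w x‖ ∂(PI c ι) :=
          (integral_finsetSum _ fun x _ => hi x).symm
      _ ≤ ∫ w' : ι → ℝ, 2 * Real.sqrt A ∂(PI c ι) := by
          refine integral_mono (integrable_finsetSum _ fun x _ => hi x) (integrable_const _)
            fun w' => ?_
          exact bb_diff_le hK hη hBS hL hd w w' (hin w')
      _ = 2 * Real.sqrt A := by simp
  have hb2 : ∑ x ∈ S.filter (fun x => d x ≤ m / 2), ‖β w x‖ ≤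
      ∑ x ∈ S, ‖bb K V c η a B S L x ω₁ ω₂‖ + 2 * Real.sqrt A := by
    calc _ ≤ ∑ x ∈ S.filter (fun x => d x ≤ m / 2), (‖bb K V c η a B S L x ω₁ ω₂‖ +
          ‖bb K V c η a B S L x ω₁ ω₂ - β w x‖) := by
          refine Finset.sum_le_sum fun x _ => ?_
          have := norm_sub_le (bb K V c η a B S L x ω₁ ω₂) (bb K V c η a B S L x ω₁ ω₂ - β w x)
          rwa [sub_sub_cancel] at this
      _ ≤ _ := by
          rw [Finset.sum_add_distrib]
          refine add_le_add (Finset.sum_le_sum_of_subset_of_nonneg (Finset.filter_subset _ _)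
            fun _ _ _ => norm_nonneg _) hb
  -- conservation
  have hcons := cons hK (V := V) (c := c) hη a (T0_im (S := S) hL.le) (Cf B S ω₁ ω₂ w)
  set G : ι → ℂ := fun x => Gc K V c η a (Cf B S ω₁ ω₂ w) (T0 S L) x with hG
  have hsplit : ∑ x, (-(T0 S L x).im * vf c (Cf B S ω₁ ω₂ w x) + η) * ‖G x‖ ^ 2 ≤
      (∑ x ∈ S.filter (fun x => d x ≤ m / 2), ‖β w x‖) / 2 + η * ∑ x ∈ B ∪ S, ‖G x‖ ^ 2 + A := by
    have h0 : ∑ x, (-(T0 S L x).im * vf c (Cf B S ω₁ ω₂ w x) + η) * ‖G x‖ ^ 2 =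
        ∑ x ∈ Finset.univ.filter (fun x => d x ≤ m / 2),
          (-(T0 S L x).im * vf c (Cf B S ω₁ ω₂ w x) + η) * ‖G x‖ ^ 2 +
        ∑ x ∈ Finset.univ.filter (fun x => ¬ d x ≤ m / 2),
          (-(T0 S L x).im * vf c (Cf B S ω₁ ω₂ w x) + η) * ‖G x‖ ^ 2 :=
      (Finset.sum_filter_add_sum_filter_not _ _ _).symm
    have h1 : ∑ x ∈ Finset.univ.filter (fun x => ¬ d x ≤ m / 2),
          (-(T0 S L x).im * vf c (Cf B S ω₁ ω₂ w x) + η) * ‖G x‖ ^ 2 ≤ A := by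
      refine le_trans ?_ (out_small (V := V) (ω₁ := ω₁) hK hη hc hBS ha hD0 hD hL hv0 hd w)
      simp only [not_le]
      refine Finset.sum_le_sum fun x _ => mul_le_mul_of_nonneg_right ?_ (sq_nonneg _)
      rw [im_dd]
      have h3 : (0 : ℝ) ≤ (if x = a then 1 else 0) := by split_ifs <;> norm_num
      linarith
    have h2 : ∑ x ∈ Finset.univ.filter (fun x => d x ≤ m / 2),
          (-(T0 S L x).im * vf c (Cf B S ω₁ ω₂ w x) + η) * ‖G x‖ ^ 2 ≤
        (∑ x ∈ S.filter (fun x => d x ≤ m / 2), ‖β w x‖) / 2 + η * ∑ x ∈ B ∪ S, ‖G x‖ ^ 2 := by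
      have e1 : ∀ x, (-(T0 S L x).im * vf c (Cf B S ω₁ ω₂ w x) + η) * ‖G x‖ ^ 2 =
          (if x ∈ S then ‖β w x‖ / 2 else 0) + η * ‖G x‖ ^ 2 := by
        intro x
        by_cases hx : x ∈ S
        · rw [if_pos hx, Cf_S hBS hx]
          have e2 : ‖β w x‖ = 2 * L * vf c (ω₂ x) * ‖G x‖ ^ 2 := by
            rw [hβ]
            dsimp only
            rw [norm_mul, norm_mul, norm_mul, norm_neg, norm_mul, Complex.norm_I, Complex.norm_ofNat,
              Complex.norm_real, Real.norm_of_nonneg hL.le, Complex.norm_real,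
              Real.norm_of_nonneg (vf_nonneg _ _), norm_pow]
            ring
          rw [e2]
          unfold T0
          rw [if_pos hx]
          have : -(-(I * (L : ℂ))).im = L := by simp
          rw [this]
          ring
        · rw [if_neg hx]
          unfold T0
          rw [if_neg hx]
          simp
      rw [Finset.sum_congr rfl fun x _ => e1 x, Finset.sum_add_distrib, ← Finset.mul_sum]
      refine add_le_add (le_of_eq ?_) (mul_le_mul_of_nonneg_left ?_ hη.le)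
      · rw [← Finset.sum_filter, Finset.filter_filter, Finset.sum_div]
        refine Finset.sum_congr ?_ fun _ _ => rfl
        ext x
        simp only [Finset.mem_filter, Finset.mem_univ, true_and]
        exact and_comm
      · refine Finset.sum_le_sum_of_subset_of_nonneg (fun x hx => ?_) fun _ _ _ => sq_nonneg _
        rw [Finset.mem_filter] at hx
        exact lev_in hK hη hc hBS ha hD0 hD hL hv0 hd (hx.2.trans (Nat.div_le_self _ _))
    rw [h0]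
    linarith
  -- conclusion
  set R := Rc K V c η a (Cf B S ω₁ ω₂ w) (T0 S L) with hRdef
  set P := Ph K V c η a B S (T0 S L) ω₁ ω₂ with hPdef
  set c₀ := cz K V c η a B ω₁ with hc0
  have hR1 : ‖R‖ ≤ 1 := Rc_le hK hη a (T0_im hL.le) _
  have hc1 : ‖c₀‖ ≤ 1 := cz_le hK hη hc ω₁
  have h5 : ‖R‖ - ‖c₀‖ ≤ 2 * Real.sqrt A + ‖P - c₀‖ := by
    have h6 : ‖R‖ - ‖c₀‖ ≤ ‖R - c₀‖ := norm_sub_norm_le _ _
    have h7 : ‖R - c₀‖ ≤ ‖R - P‖ + ‖P - c₀‖ := norm_sub_le_norm_sub_add_norm_sub _ _ _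
    have h8 : ‖R - P‖ = ‖P - R‖ := norm_sub_rev _ _
    linarith
  have hx0 : 0 ≤ 2 * Real.sqrt A + ‖P - c₀‖ := by positivity
  have h9 : ‖R‖ ^ 2 - ‖c₀‖ ^ 2 ≤ 2 * (2 * Real.sqrt A + ‖P - c₀‖) := by
    have h10 : ‖R‖ ^ 2 - ‖c₀‖ ^ 2 = (‖R‖ - ‖c₀‖) * (‖R‖ + ‖c₀‖) := by ring
    rw [h10]
    have hs : 0 ≤ ‖R‖ + ‖c₀‖ := by positivity
    have hs2 : ‖R‖ + ‖c₀‖ ≤ 2 := by linarith
    calc (‖R‖ - ‖c₀‖) * (‖R‖ + ‖c₀‖) ≤ (2 * Real.sqrt A + ‖P - c₀‖) * (‖R‖ + ‖c₀‖) :=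
          mul_le_mul_of_nonneg_right h5 hs
      _ ≤ (2 * Real.sqrt A + ‖P - c₀‖) * 2 := mul_le_mul_of_nonneg_left hs2 hx0
      _ = _ := by ring
  nlinarith

end

end Pool.Agent.L0h56.SL.M
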