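import Pool.Agent.L0h56.SL.Ph

/-!
Complex displacements of a slab: the two constants theorem, and the derivatives.
-/

set_option autoImplicit false
set_option linter.unusedSectionVars false
set_option linter.unusedVariables false

open scoped BigOperators Topology
open Complex MeasureTheory Pool.Agent.L0h56.CS

namespace Pool.Agent.L0h56.SL.M

/-- Jensen -/
theorem sq_int_le {Ω : Type*} [MeasurableSpace Ω] {μ : Measure Ω} [IsProbabilityMeasure μ]
    {f : Ω → ℂ} (hf : Measurable f) {M : ℝ} (hM : ∀ s, ‖f s‖ ≤ M) :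
    ‖∫ s, f s ∂μ‖ ^ 2 ≤ ∫ s, ‖f s‖ ^ 2 ∂μ := by
  have h1 : ‖∫ s, f s ∂μ‖ ≤ ∫ s, ‖f s‖ ∂μ := norm_integral_le_integral_norm _
  have hi : Integrable (fun s => ‖f s‖) μ :=
    Integrable.of_bound hf.norm.aestronglyMeasurable M
      (Filter.Eventually.of_forall fun s => by rw [norm_norm]; exact hM s)
  have hi2 : Integrable (fun s => ‖f s‖ ^ 2) μ :=
    Integrable.of_bound (hf.norm.pow_const 2).aestronglyMeasurable (M ^ 2)
      (Filter.Eventually.of_forall fun s => by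
        rw [Real.norm_of_nonneg (sq_nonneg _)]
        exact pow_le_pow_left₀ (norm_nonneg _) (hM s) 2)
  set m := ∫ s, ‖f s‖ ∂μ with hm
  have h2 : 0 ≤ ∫ s, (‖f s‖ - m) ^ 2 ∂μ := integral_nonneg fun _ => sq_nonneg _
  have e : ∀ s, (‖f s‖ - m) ^ 2 = ‖f s‖ ^ 2 - 2 * m * ‖f s‖ + m ^ 2 := fun s => by ring
  simp only [e] at h2
  rw [integral_add (f := fun s => ‖f s‖ ^ 2 - 2 * m * ‖f s‖) (g := fun _ => m ^ 2)
    (hi2.sub (hi.const_mul _)) (integrable_const _),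
    integral_sub (f := fun s => ‖f s‖ ^ 2) (g := fun s => 2 * m * ‖f s‖) hi2 (hi.const_mul _),
    integral_const_mul, integral_const] at h2
  simp only [probReal_univ, one_smul] at h2
  have h3 : m ^ 2 ≤ ∫ s, ‖f s‖ ^ 2 ∂μ := by
    rw [← hm] at h2
    nlinarith
  exact (pow_le_pow_left₀ (norm_nonneg _) h1 2).trans h3

theorem two_c (hHP : StHP) (hTwo : StTwo) (hCV : StCV) (κ : ℝ) (hκ : 0 < κ) (hκ1 : κ < 1) (c : ℝ)
    (hc : 0 < c) : ∃ M0 C2 : ℝ, 0 < M0 ∧ 0 < C2 ∧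
    ∀ (ι : Type) [Fintype ι] [DecidableEq ι] (K : ι → ι → ℝ), (∀ x y, K x y = K y x) →
    ∀ (V : ι → ℝ) (η : ℝ), 0 < η → ∀ (a : ι) (B S : Finset ι), Disjoint B S →
    ∀ (n : ℕ), 1 ≤ n → S.card ≤ n → ∀ L : ℝ, 0 < L → L ^ 2 * n ≤ M0 ^ 2 →
    ∀ (u w : ι → ℝ), (∀ x, x ∉ S → u x = 0) → (∀ x, x ∉ S → w x = 0) → (∀ x, |u x| ≤ L) →
    (∀ x, 0 ≤ w x) → (∀ x, w x ≤ 2 * L) → ∀ ω₁ : ι → ℝ,
    ∫ ω₂, ‖Ph K V c η a B S (fun x => (u x : ℂ) - I * (w x : ℂ)) ω₁ ω₂ - cz K V c η a B ω₁‖ ^ 2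
      ∂(PI c ι) ≤ C2 * V1 K V c η a B S ω₁ ^ κ := by
  have h1κ : 0 < 1 - κ := by linarith
  obtain ⟨q, hq⟩ := exists_nat_gt (1 / (1 - κ))
  have hq1 : (1 : ℝ) < q := by
    refine lt_trans ?_ hq
    rw [lt_div_iff₀ h1κ]
    linarith
  have hq2 : 2 ≤ q := by
    have : (1 : ℕ) < q := by exact_mod_cast hq1
    omega
  have hq0 : (0 : ℝ) < q := by linarith
  have hqκ : κ < 1 - 1 / (q : ℝ) := by
    rw [div_lt_iff₀ h1κ] at hq
    have : 1 / (q : ℝ) < 1 - κ := by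
      rw [div_lt_iff₀ hq0]
      linarith
    linarith
  set θ : ℝ := 1 - 1 / (q : ℝ) with hθ
  have hθ0 : 0 < θ := hκ.trans hqκ
  set γ : ℝ := κ / θ with hγ
  have hγ0 : 0 < γ := by positivity
  have hγ1 : γ < 1 := by rw [hγ, div_lt_one hθ0]; exact hqκ
  obtain ⟨k, t0, hk, ht0, hT⟩ := hTwo γ hγ0 hγ1
  obtain ⟨Cc, hCc, hV⟩ := hCV c hc q hq2
  have hm0 : 0 < min (c / 4) 1 := by positivity
  refine ⟨min (c / 4) 1 / (1 + 2 * t0), 5 * Cc ^ γ, by positivity, by positivity, ?_⟩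
  intro ι _ _ K hK V η hη a B S hBS n hn hSn L hL hLn u w hu0 hw0 huL hw hwL ω₁
  have hP := PI_prob (ι := ι) hc
  have hLn' : (L * (1 + 2 * t0)) ^ 2 * n ≤ (min (c / 4) 1) ^ 2 := by
    have : (min (c / 4) 1) ^ 2 = (min (c / 4) 1 / (1 + 2 * t0)) ^ 2 * (1 + 2 * t0) ^ 2 := by
      field_simp
    rw [this]
    calc (L * (1 + 2 * t0)) ^ 2 * n = (L ^ 2 * n) * (1 + 2 * t0) ^ 2 := by ring
      _ ≤ _ := mul_le_mul_of_nonneg_right hLn (by positivity)
  have hn1 : (1 : ℝ) ≤ n := by exact_mod_cast hn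
  have hL1 : L * (1 + 2 * t0) ≤ min (c / 4) 1 := by
    refine le_of_sq_le_sq ?_ hm0.le
    refine le_trans ?_ hLn'
    have : 0 ≤ (L * (1 + 2 * t0)) ^ 2 := sq_nonneg _
    nlinarith
  have hτ : ∀ z : ℂ, 0 ≤ z.im → ∀ x, ((u x : ℂ) - z * (w x : ℂ)).im ≤ 0 := by
    intro z hz x
    simp
    exact mul_nonneg hz (hw x)
  have hre : ∀ t : ℝ, (0 : ℝ) ≤ ((t : ℂ)).im := fun t => by simp
  set g : (ι → ℝ) → ℝ := fun ω₂ => ‖Ph K V c η a B S 0 ω₁ ω₂ - cz K V c η a B ω₁‖ ^ 2 with hg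
  have hgm : Measurable g :=
    ((meas_Ph hc (t := fun _ => 0) (fun x => measurable_const) (w₁ := fun _ => ω₁) (w₂ := fun s => s)
      measurable_const measurable_id).sub_const _).norm.pow_const 2
  have hg4 : ∀ ω, g ω ≤ 4 := by
    intro ω
    have h1 := diff_le (V := V) (a := a) (B := B) (S := S) hK hη hc (τ := 0) (fun x => by simp) ω₁ ω
    have : g ω ≤ 2 ^ 2 := pow_le_pow_left₀ (norm_nonneg _) h1 2
    linarith
  have h := hT (ι → ℝ) (PI c ι)
    (fun ω₂ t => Ph K V c η a B S (fun x => (u x : ℂ) - (t : ℂ) * (w x : ℂ)) ω₁ ω₂ - cz K V c η a B ω₁)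
    (fun ω₂ => Ph K V c η a B S (fun x => (u x : ℂ) - I * (w x : ℂ)) ω₁ ω₂ - cz K V c η a B ω₁)
    ?_ ?_ ?_ ?_ (Cc * V1 K V c η a B S ω₁ ^ θ) ?_ ?_
  · refine h.trans (le_of_eq ?_)
    rw [Real.mul_rpow hCc.le (Real.rpow_nonneg (V1_nonneg _) _), ← Real.rpow_mul (V1_nonneg _)]
    have : θ * γ = κ := by rw [hγ]; field_simp
    rw [this]
    ring
  · refine Measurable.sub_const ?_ _
    refine meas_Ph hc (Ω := (ι → ℝ) × ℝ) (t := fun z x => (u x : ℂ) - (z.2 : ℂ) * (w x : ℂ))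
      (fun x => ?_) (w₁ := fun _ => ω₁) (w₂ := fun z => z.1) measurable_const measurable_fst
    exact measurable_const.sub ((Complex.measurable_ofReal.comp measurable_snd).mul measurable_const)
  · refine Measurable.sub_const ?_ _
    exact meas_Ph hc (Ω := (ι → ℝ)) (t := fun _ x => (u x : ℂ) - I * (w x : ℂ))
      (fun x => measurable_const) (w₁ := fun _ => ω₁) (w₂ := fun z => z) measurable_const measurable_id
  · intro ω t
    exact diff_le hK hη hc (hτ _ (hre t)) ω₁ ω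
  · intro Λ hΛ ω
    exact mvP hK hη hc hHP ω₁ ω u w hw hk hΛ
  · exact mul_nonneg hCc.le (Real.rpow_nonneg (V1_nonneg _) _)
  · intro t ht
    have hut : ∀ x, x ∉ S → u x - t * w x = 0 := fun x hx => by rw [hu0 x hx, hw0 x hx]; ring
    have hb : ∀ x, |u x - t * w x| ≤ L * (1 + 2 * t0) := by
      intro x
      calc |u x - t * w x| ≤ |u x| + |t * w x| := abs_sub _ _
        _ = |u x| + |t| * w x := by rw [abs_mul, abs_of_nonneg (hw x)]
        _ ≤ L + t0 * (2 * L) := by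
            refine add_le_add (huL x) (mul_le_mul ht (hwL x) (hw x) ht0.le)
        _ = _ := by ring
    have e : ∀ ω₂, ‖Ph K V c η a B S (fun x => (u x : ℂ) - (t : ℂ) * (w x : ℂ)) ω₁ ω₂ -
        cz K V c η a B ω₁‖ ^ 2 = g (fun x => ω₂ x + (u x - t * w x) * vf c (ω₂ x)) := by
      intro ω₂
      rw [hg]
      dsimp only
      rw [← Ph_real (K := K) (V := V) (c := c) (η := η) (a := a) hut hBS ω₁ ω₂]
      congr 4
      funext x
      push_cast
      ring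
    simp only [e]
    refine hV ι (fun x => u x - t * w x) (fun x => (hb x).trans (hL1.trans (min_le_left _ _))) ?_ g hgm
      (fun ω => sq_nonneg _) hg4
    calc ∑ x, (u x - t * w x) ^ 2 = ∑ x ∈ S, (u x - t * w x) ^ 2 := by
          symm
          refine Finset.sum_subset (Finset.subset_univ _) fun x _ hx => ?_
          rw [hut x hx]; ring
      _ ≤ ∑ x ∈ S, (L * (1 + 2 * t0)) ^ 2 := by
          refine Finset.sum_le_sum fun x _ => ?_
          exact sq_le_sq' (by linarith [neg_abs_le (u x - t * w x), hb x]) ((le_abs_self _).trans (hb x))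
      _ = (L * (1 + 2 * t0)) ^ 2 * S.card := by rw [Finset.sum_const, nsmul_eq_mul, mul_comm]
      _ ≤ (L * (1 + 2 * t0)) ^ 2 * n := by
          refine mul_le_mul_of_nonneg_left ?_ (sq_nonneg _)
          exact_mod_cast hSn
      _ ≤ (min (c / 4) 1) ^ 2 := hLn'
      _ ≤ 1 := by
          have h1 : min (c / 4) 1 ≤ 1 := min_le_right _ _
          nlinarith

end Pool.Agent.L0h56.SL.M
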